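import Pool.Agent.Lib.MP_8115c2_gt.Bu.St

/-!
From the absence of a calibrating form to the failure of convexity, by the Hahn-Banach theorem.
-/

open MeasureTheory Set Metric Real
open scoped RealInnerProductSpace

noncomputable section

namespace Pool.Agent.Lib.MP_8115c2_gt.Bu

variable {n N : ℕ}

lemma h_om : 0 ≤ om n := measureReal_nonneg

lemma h_JJ (A : Matrix (Fin N) (Fin n) ℝ) : 0 ≤ JJ A := div_nonneg h_om measureReal_nonneg

lemma h_JJ_mul (A : Matrix (Fin N) (Fin n) ℝ) (B : Matrix (Fin n) (Fin n) ℝ) (hB : B.det ≠ 0) :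
    JJ (A * B) = |B.det| * JJ A := by
  have h1 : {x : E n | ‖(A * B).mulVec x‖ ≤ 1} =
      Matrix.toLpLin 2 2 B ⁻¹' {x : E n | ‖A.mulVec x‖ ≤ 1} := by
    ext x
    simp [Matrix.ofLp_toLpLin, Matrix.mulVec_mulVec]
  unfold JJ
  rw [h1, Measure.real, Measure.addHaar_preimage_linearMap _ (by rwa [LinearMap.det_toLpLin]),
    LinearMap.det_toLpLin, ENNReal.toReal_mul, ENNReal.toReal_ofReal (abs_nonneg _), abs_inv,
    Measure.real, div_eq_mul_inv, mul_inv, inv_inv]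
  ring

/-- The vector of maximal minors. -/
def mino (A : Matrix (Fin N) (Fin n) ℝ) : (Fin n → Fin N) → ℝ := fun I => (A.submatrix I id).det

lemma h_mino_mul (A : Matrix (Fin N) (Fin n) ℝ) (B : Matrix (Fin n) (Fin n) ℝ) :
    mino (A * B) = B.det • mino A := by
  funext I
  have h : (A * B).submatrix I id = A.submatrix I id * B := by
    ext i j
    simp [Matrix.mul_apply]
  simp [mino, h, mul_comm]

lemma h_scale (hn : 1 ≤ n) (A : Matrix (Fin N) (Fin n) ℝ) {c : ℝ} (hc : c ≠ 0) :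
    ∃ A' : Matrix (Fin N) (Fin n) ℝ, mino A' = c • mino A ∧ JJ A' = |c| * JJ A := by
  have h : (Matrix.diagonal (Function.update (1 : Fin n → ℝ) ⟨0, hn⟩ c)).det = c := by
    rw [Matrix.det_diagonal, Finset.prod_update_of_mem (Finset.mem_univ _)]
    simp
  exact ⟨A * Matrix.diagonal (Function.update (1 : Fin n → ℝ) ⟨0, hn⟩ c),
    by rw [h_mino_mul, h], by rw [h_JJ_mul _ _ (by rwa [h]), h]⟩

/-- The Hahn-Banach step for a homogeneous family of vectors with costs. -/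
lemma h_hb {M V : Type} [AddCommGroup V] [Module ℝ V] (τ : M → V) (J : M → ℝ)
    (hJ : ∀ a, 0 ≤ J a) (hs : ∀ a (c : ℝ), c ≠ 0 → ∃ a', τ a' = c • τ a ∧ J a' = |c| * J a)
    (a₀ : M) (h : ∀ (m : ℕ) (a : Fin m → M), ∑ i, τ (a i) = τ a₀ → 1 ≤ ∑ i, J (a i)) :
    ∃ l : V →ₗ[ℝ] ℝ, l (τ a₀) = 1 ∧ ∀ a, |l (τ a)| ≤ J a := by
  classical
  have h0 : τ a₀ ≠ 0 := fun h0 => by
    have := h 0 Fin.elim0 (by simp [h0])
    norm_num at this
  obtain ⟨c, hc⟩ := Module.Projective.exists_dual_eq_one ℝ h0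
  set Φ : (M →₀ ℝ) →ₗ[ℝ] V := Finsupp.linearCombination ℝ τ with hΦ
  set q : (M →₀ ℝ) → ℝ := fun φ => ∑ a ∈ φ.support, |φ a| * J a with hq
  have q0 : ∀ φ, 0 ≤ q φ := fun φ =>
    Finset.sum_nonneg fun a _ => mul_nonneg (abs_nonneg _) (hJ a)
  have qs : ∀ (φ : M →₀ ℝ) (s : Finset M), φ.support ⊆ s → q φ = ∑ a ∈ s, |φ a| * J a :=
    fun φ s hs => Finset.sum_subset hs fun a _ ha => by
      rw [Finsupp.notMem_support_iff.1 ha]
      simp
  have qh : ∀ t : ℝ, 0 < t → ∀ φ, q (t • φ) = t * q φ := fun t ht φ => by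
    rw [qs _ φ.support Finsupp.support_smul, hq, Finset.mul_sum]
    refine Finset.sum_congr rfl fun a _ => ?_
    rw [Finsupp.smul_apply, smul_eq_mul, abs_mul, abs_of_pos ht, mul_assoc]
  have qa : ∀ φ ψ, q (φ + ψ) ≤ q φ + q ψ := fun φ ψ => by
    rw [qs _ _ Finsupp.support_add, qs φ _ Finset.subset_union_left,
      qs ψ _ Finset.subset_union_right, ← Finset.sum_add_distrib]
    refine Finset.sum_le_sum fun a _ => ?_
    rw [← add_mul]
    exact mul_le_mul_of_nonneg_right (abs_add_le _ _) (hJ a)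
  have q1 : ∀ φ, Φ φ = τ a₀ → 1 ≤ q φ := fun φ hφ => by
    choose b hb hb' using fun a : φ.support => hs a (φ a) (Finsupp.mem_support_iff.1 a.2)
    have := h _ (fun i => b ((Fintype.equivFin φ.support).symm i)) (by
      rw [Equiv.sum_comp (Fintype.equivFin φ.support).symm fun a => τ (b a), ← hφ, hΦ,
        Finsupp.linearCombination_apply, Finsupp.sum, ← Finset.sum_coe_sort φ.support]
      exact Finset.sum_congr rfl fun a _ => hb a)
    rw [Equiv.sum_comp (Fintype.equivFin φ.support).symm fun a => J (b a)] at this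
    refine this.trans_eq ?_
    rw [hq]
    simp only [hb']
    exact Finset.sum_coe_sort φ.support fun a => |φ a| * J a
  obtain ⟨g, hg, hg'⟩ := exists_extension_of_le_sublinear
    ⟨(ℝ ∙ τ a₀).comap Φ, (c ∘ₗ Φ).domRestrict _⟩ q qh qa (by
      rintro ⟨φ, hφ⟩
      obtain ⟨t, ht⟩ := Submodule.mem_span_singleton.1 (Submodule.mem_comap.1 hφ)
      change c (Φ φ) ≤ q φ
      rw [← ht, map_smul, hc, smul_eq_mul, mul_one]
      rcases le_or_gt t 0 with h1 | h1
      · exact h1.trans (q0 φ)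
      · have h2 := q1 (t⁻¹ • φ) (by rw [map_smul, ← ht, inv_smul_smul₀ h1.ne'])
        rw [qh _ (inv_pos.2 h1), le_inv_mul_iff₀ h1, mul_one] at h2
        exact h2)
  have hk : g ∈ (LinearMap.ker Φ).dualAnnihilator := by
    rw [Submodule.mem_dualAnnihilator]
    intro φ hφ
    have h1 : Φ φ = 0 := hφ
    have h2 : g φ = c (Φ φ) := hg ⟨φ, by simp [h1]⟩
    rw [h2, h1, map_zero]
  rw [← LinearMap.range_dualMap_eq_dualAnnihilator_ker] at hk
  obtain ⟨l, hl⟩ := hk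
  have e1 : ∀ a (t : ℝ), g (Finsupp.single a t) = t * l (τ a) := fun a t => by
    rw [← hl, LinearMap.dualMap_apply, hΦ, Finsupp.linearCombination_single, map_smul, smul_eq_mul]
  have e2 : ∀ a (t : ℝ), q (Finsupp.single a t) = |t| * J a := fun a t => by
    rw [qs _ {a} Finsupp.support_single_subset]
    simp
  refine ⟨l, ?_, fun a => abs_le.2 ⟨?_, ?_⟩⟩
  · have h1 : Φ (Finsupp.single a₀ 1) = τ a₀ := by simp [hΦ]
    have h2 : g (Finsupp.single a₀ 1) = c (Φ (Finsupp.single a₀ 1)) :=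
      hg ⟨Finsupp.single a₀ 1, by simp [h1]⟩
    rw [h1, hc, e1, one_mul] at h2
    exact h2
  · have := hg' (Finsupp.single a (-1))
    rw [e1, e2, abs_neg, abs_one] at this
    linarith
  · have := hg' (Finsupp.single a 1)
    rw [e1, e2, abs_one] at this
    linarith

/-- A finite net of the sphere. -/
lemma h_net (n : ℕ) {e : ℝ} (he : 0 < e) : ∃ (N : ℕ) (u : Fin N → E n), (∀ i, ‖u i‖ = 1) ∧
    ∀ x : E n, ‖x‖ = 1 → ∃ i, 1 - e ≤ ⟪u i, x⟫ := by
  obtain ⟨t, ht, hf, hc⟩ := (isCompact_sphere (0 : E n) 1).finite_cover_balls he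
  have := hf.fintype
  refine ⟨Fintype.card t, fun i => (Fintype.equivFin t).symm i,
    fun i => by simpa using ht ((Fintype.equivFin t).symm i).2, fun x hx => ?_⟩
  obtain ⟨u, hu, hxu⟩ := mem_iUnion₂.1 (hc (by simpa using hx : x ∈ sphere (0 : E n) 1))
  refine ⟨Fintype.equivFin t ⟨u, hu⟩, ?_⟩
  simp only [Equiv.symm_apply_apply]
  have h1 : ⟪u, x⟫ = 1 - ⟪x - u, x⟫ := by
    rw [inner_sub_left, real_inner_self_eq_norm_sq, hx]
    ring
  have h2 := real_inner_le_norm (x - u) x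
  rw [mem_ball_iff_norm] at hxu
  rw [hx, mul_one] at h2
  linarith

/-- The matrix with given rows. -/
def rows (v : Fin N → E n) : Matrix (Fin N) (Fin n) ℝ := Matrix.of fun i k => v i k

lemma h_rows (v : Fin N → E n) (x : E n) (i : Fin N) : (rows v).mulVec x i = ⟪v i, x⟫ := by
  simp [rows, Matrix.mulVec, dotProduct, PiLp.inner_apply, mul_comm]

lemma h_lam (l : ((Fin n → Fin N) → ℝ) →ₗ[ℝ] ℝ) (v : Fin N → E n) :
    l (mino (rows v)) = ∑ I : Fin n → Fin N, l (Pi.single I 1) * D fun j => v (I j) := by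
  rw [LinearMap.pi_apply_eq_sum_univ]
  refine Finset.sum_congr rfl fun I _ => ?_
  rw [smul_eq_mul, mul_comm]
  congr 2
  funext j
  simp [Pi.single_apply, eq_comm]

lemma h_cal (l : ((Fin n → Fin N) → ℝ) →ₗ[ℝ] ℝ) (hl : ∀ A, |l (mino A)| ≤ JJ A) (u : Fin N → E n)
    (hu : ∀ i, ‖u i‖ = 1) :
    Cal (fun I : Fin n → Fin N => l (Pi.single I 1)) fun I j => u (I j) := by
  intro F K hK
  have h1 := hl (rows fun i => F (u i))
  rw [h_lam] at h1
  refine (mul_le_mul_of_nonneg_right h1 measureReal_nonneg).trans ?_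
  unfold JJ
  rcases eq_or_ne (volume.real {x : E n | ‖(rows fun i => F (u i)).mulVec x‖ ≤ 1}) 0 with h0 | h0
  · rw [h0, div_zero, zero_mul]
    exact h_om
  · have h2 : volume.real K ≤ volume.real {x : E n | ‖(rows fun i => F (u i)).mulVec x‖ ≤ 1} := by
      refine measureReal_mono (fun ξ hξ => ?_) fun ht => h0 (by rw [Measure.real, ht]; rfl)
      refine (pi_norm_le_iff_of_nonneg zero_le_one).2 fun i => ?_
      rw [h_rows]
      exact hK ξ hξ _ (hu i)
    refine (mul_le_mul_of_nonneg_left h2 (div_nonneg h_om measureReal_nonneg)).trans_eq ?_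
    exact div_mul_cancel₀ _ h0

lemma h_eps (n : ℕ) {η : ℝ} (hη : 0 < η) : ∃ e : ℝ, 0 < e ∧ e < 1 ∧ 1 - η < (1 - e) ^ n := by
  have h1 : min (1 / 2) (η / (n + 1)) ≤ 1 / 2 := min_le_left _ _
  have h2 : min (1 / 2) (η / (n + 1)) ≤ η / (n + 1) := min_le_right _ _
  have h3 : 0 < min (1 / 2) (η / (n + 1)) := by positivity
  generalize min (1 / 2) (η / (n + 1)) = e at h1 h2 h3
  refine ⟨e, h3, by linarith, ?_⟩
  have h4 := one_add_mul_le_pow (a := -e) (by linarith) n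
  rw [le_div_iff₀ (by positivity)] at h2
  rw [sub_eq_add_neg 1 e]
  linarith

lemma h_dom {e : ℝ} (hp : 0 < 1 - e) (u : Fin N → E n)
    (hnet : ∀ x : E n, ‖x‖ = 1 → ∃ i, 1 - e ≤ ⟪u i, x⟫) (x : E n) :
    ‖x‖ ≤ ‖(rows fun i => (1 - e)⁻¹ • u i).mulVec x‖ := by
  rcases eq_or_ne x 0 with rfl | h0
  · simp
  · have h1 : 0 < ‖x‖ := norm_pos_iff.2 h0
    obtain ⟨i, hi⟩ := hnet (‖x‖⁻¹ • x) (norm_smul_inv_norm h0)
    refine le_trans ?_ (norm_le_pi_norm _ i)
    rw [h_rows, real_inner_smul_left, Real.norm_eq_abs]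
    rw [real_inner_smul_right, le_inv_mul_iff₀ h1] at hi
    refine le_trans ?_ (le_abs_self _)
    rw [le_inv_mul_iff₀ hp]
    linarith

lemma h_mino_smul (c : ℝ) (u : Fin N → E n) :
    mino (rows fun i => c • u i) = c ^ n • mino (rows u) := by
  funext I
  have h : (rows fun i => c • u i).submatrix I id = c • (rows u).submatrix I id := by
    ext i j
    simp [rows]
  simp [mino, h]

lemma h_main (hn : 1 ≤ n) (A₀ : Matrix (Fin N) (Fin n) ℝ)
    (h : ¬∃ (m : ℕ) (A : Fin m → Matrix (Fin N) (Fin n) ℝ),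
      (∀ I : Fin n → Fin N, ∑ i, ((A i).submatrix I id).det = (A₀.submatrix I id).det) ∧
        ∑ i, JJ (A i) < 1) :
    ∃ l : ((Fin n → Fin N) → ℝ) →ₗ[ℝ] ℝ, l (mino A₀) = 1 ∧ ∀ A, |l (mino A)| ≤ JJ A := by
  refine h_hb mino JJ h_JJ (fun A c hc => h_scale hn A hc) A₀ fun m A hA => ?_
  by_contra h'
  refine h ⟨m, A, fun I => ?_, not_le.1 h'⟩
  have := congrFun hA I
  rw [Finset.sum_apply] at this
  exact this

theorem hS : HStmt := by
  rintro ⟨n₀, hA⟩
  refine ⟨max n₀ 1, fun n hn => ?_⟩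
  obtain ⟨η, hη, hA⟩ := hA n (le_of_max_le_left hn)
  obtain ⟨e, he, he1, he2⟩ := h_eps n hη
  have hp : 0 < 1 - e := sub_pos.2 he1
  obtain ⟨N, u, hu, hnet⟩ := h_net n he
  refine ⟨N, rows fun i => (1 - e)⁻¹ • u i, ?_⟩
  by_contra hB
  obtain ⟨l, hl, hl'⟩ := h_main (le_of_max_le_right hn) (rows fun i => (1 - e)⁻¹ • u i)
    fun ⟨m, A, h⟩ => hB ⟨m, A, h_dom hp u hnet, h⟩
  have h1 := hA (Fin n → Fin N) (fun I => l (Pi.single I 1)) (fun I j => u (I j))
    (fun I j => hu (I j)) (h_cal l hl' u hu)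
  rw [h_mino_smul, map_smul, h_lam, smul_eq_mul, inv_pow, inv_mul_eq_one₀ (pow_pos hp n).ne'] at hl
  exact absurd (he2.trans_eq hl) (not_lt.2 h1)

end Pool.Agent.Lib.MP_8115c2_gt.Bu
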