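import Pool.Agent.Lib.MP_8115c2_gt.Bu.St
import Pool.Agent.Lib.MP_8115c2_gt.Meas

/-!
The Hausdorff measure of a linear image of the ball in the space with the sup norm.
-/

open MeasureTheory Set Metric Filter Topology Module Pointwise
open scoped ENNReal

noncomputable section

namespace Pool.Agent.Lib.MP_8115c2_gt.Bu

/-- The Hausdorff measure of the unit ball of a normed space. -/
lemma haBall (W : Type) [NormedAddCommGroup W] [NormedSpace ℝ W] [FiniteDimensional ℝ W]
    [MeasurableSpace W] [BorelSpace W] :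
    μH[finrank ℝ W] (ball (0 : W) 1) ≤ 2 ^ finrank ℝ W := by
  set n := finrank ℝ W with hn
  let μ : Measure W := μH[finrank ℝ W]
  choose t r tc ts hr h0 hd using fun k : ℕ => Besicovitch.exists_disjoint_closedBall_covering_ae
    μ (fun _ => univ) (ball 0 1)
    (fun x _ δ hδ => by simpa using hδ) (fun x => min (1 / (k + 1)) (1 - ‖x‖))
    fun x hx => lt_min Nat.one_div_pos_of_nat (sub_pos.2 (mem_ball_zero_iff.1 hx))
  have hc : ∀ k, Countable (t k) := tc
  have h1 : ∀ k (x : t k), ediam (closedBall x.1 (r k x)) ≤ ENNReal.ofReal (2 * r k x) :=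
    fun k x => ediam_le_of_forall_dist_le fun a ha b hb => by
      linarith [dist_triangle_right a b x.1, mem_closedBall.1 ha, mem_closedBall.1 hb]
  have h2 := Measure.hausdorffMeasure_le_liminf_tsum n (⋂ k, ⋃ x : t k, closedBall x.1 (r k x))
    (l := atTop) (fun k : ℕ => ENNReal.ofReal (2 * (1 / (k + 1))))
    (by simpa using ENNReal.tendsto_ofReal (tendsto_one_div_add_atTop_nhds_zero_nat.const_mul 2))
    (fun k (x : t k) => closedBall x.1 (r k x))
    (.of_forall fun k x => (h1 k x).trans (ENNReal.ofReal_le_ofReal (by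
      linarith [(hr k x x.2).2.2.trans_le (min_le_left _ _)])))
    (.of_forall fun k => iInter_subset _ k)
  have h3 : μH[n] (ball (0 : W) 1 \ ⋂ k, ⋃ x : t k, closedBall x.1 (r k x)) = 0 := by
    rw [sdiff_iInter]
    exact measure_iUnion_null fun k => by rw [iUnion_coe_set]; exact h0 k
  refine ((measure_le_inter_add_sdiff _ _ _).trans_eq (by rw [h3, add_zero])).trans
    (((measure_mono inter_subset_right).trans h2).trans (liminf_le_of_frequently_le'
    (.of_forall fun k => ?_)))
  have h4 : ∑' x : t k, μ (closedBall x.1 (r k x)) ≤ μ (ball (0 : W) 1) :=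
    (measure_biUnion (tc k) (hd k) fun _ _ => measurableSet_closedBall).ge.trans
      (measure_mono (iUnion₂_subset fun x hx => closedBall_subset_ball' (by
        have := (hr k x hx).2.2.trans_le (min_le_right _ _)
        rw [dist_zero_right]
        linarith)))
  refine (ENNReal.mul_le_mul_iff_left (measure_ball_pos μ (0 : W) one_pos).ne'
    measure_ball_lt_top.ne).1 (le_trans ?_ (mul_le_mul_right h4 (2 ^ n)))
  rw [← ENNReal.tsum_mul_left, ← ENNReal.tsum_mul_right]
  refine ENNReal.tsum_le_tsum fun x => ?_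
  have h5 := (hr k x x.2).2.1
  rw [Measure.addHaar_closedBall _ _ h5.le, ← hn, ← mul_assoc,
    ENNReal.rpow_natCast, ENNReal.ofReal_pow h5.le, ← mul_pow]
  refine mul_le_mul_left (pow_le_pow_left' ((h1 k x).trans_eq ?_) n) _
  rw [ENNReal.ofReal_mul zero_le_two, ENNReal.ofReal_ofNat]

/-- The lower bound for the Euclidean ball. -/
lemma haLow {n : ℕ} (hn : 0 < n) : 2 ^ n ≤ μH[n] (ball (0 : E n) 1) := by
  have hp := (measure_ball_pos volume (0 : E n) one_pos).ne'
  have ht : volume (ball (0 : E n) 1) ≠ ⊤ := measure_ball_lt_top.ne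
  have h := mass (volume : Measure (E n)) id (ball (0 : E n) 1) hn (γ := 2 ^ n)
    (C := volume (ball (0 : E n) 1)) (δ := 1) hp ht one_pos fun A _ hA => by
      have hf : ediam A ≠ ⊤ := (hA.trans_lt ENNReal.one_lt_top).ne
      have h0 : 0 ≤ (ediam A).toReal := ENNReal.toReal_nonneg
      have h1 := isodiam (A := A) (isCompact_closedBall (0 : E n) 1) h0 fun a ha b hb => by
        rw [_root_.smul_closedBall _ _ zero_le_one, smul_zero, mul_one, Real.norm_of_nonneg h0,
          mem_closedBall_zero_iff, ← dist_eq_norm, dist_edist]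
        exact ENNReal.toReal_mono hf (edist_le_ediam_of_mem ha hb)
      rw [image_id]
      refine (mul_le_mul_right h1 _).trans (le_of_eq ?_)
      rw [ENNReal.ofReal_mul (by positivity), ofReal_measureReal measure_closedBall_lt_top.ne,
        Measure.addHaar_unitClosedBall_eq_addHaar_unitBall, ENNReal.ofReal_pow (by positivity),
        ENNReal.ofReal_div_of_pos two_pos, ENNReal.ofReal_toReal hf, ENNReal.ofReal_ofNat,
        ← mul_assoc, ← mul_pow, ENNReal.mul_div_cancel (by simp) (by simp), mul_comm]
  rw [image_id, mul_comm] at h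
  exact (ENNReal.mul_le_mul_iff_right hp ht).1 h

theorem haS : HaStmt := fun n N A hn => by
  let T : E n →ₗ[ℝ] (Fin N → ℝ) :=
    A.mulVecLin ∘ₗ (WithLp.linearEquiv 2 ℝ (Fin n → ℝ)).toLinearMap
  have hT : (fun x : E n => A.mulVec x) = T := rfl
  have hs : {x : E n | ‖A.mulVec x‖ ≤ 1} = {x | ‖T x‖ ≤ 1} := rfl
  rw [JJ, hT, hs, Measure.euclideanHausdorffMeasure_def, Measure.smul_apply, ENNReal.smul_def,
    smul_eq_mul]
  let W := LinearMap.range T
  have hW : Isometry ((↑) : W → Fin N → ℝ) := isometry_subtype_coe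
  by_cases hi : Function.Injective T
  · let e : E n ≃L[ℝ] W := (LinearEquiv.ofInjective T hi).toContinuousLinearEquiv
    have hr : finrank ℝ W = n := by rw [← e.toLinearEquiv.finrank_eq, finrank_euclideanSpace_fin]
    obtain ⟨a, ha⟩ : ∃ a : ℝ≥0∞, (μH[n] : Measure W) = a • volume.map e := by
      obtain ⟨a, h⟩ : ∃ a : NNReal, (μH[finrank ℝ W] : Measure W) = a • volume.map e :=
        ⟨_, Measure.isAddLeftInvariant_eq_smul _ _⟩
      rw [hr] at h
      exact ⟨a, h⟩
    have hm : Measurable e := e.continuous.measurable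
    have h1 : μH[n] (T '' ball 0 1) = a * volume (ball (0 : E n) 1) := by
      have h2 : T '' ball 0 1 = ((↑) : W → Fin N → ℝ) '' (e '' ball 0 1) := by
        rw [image_image]; rfl
      rw [h2, hW.hausdorffMeasure_image (.inl n.cast_nonneg)]
      refine (congr($ha (e '' ball 0 1))).trans ?_
      rw [Measure.smul_apply, Measure.map_apply hm
        (e.isOpenMap _ isOpen_ball).measurableSet, preimage_image_eq _ e.injective,
        smul_eq_mul]
    have hK : {x | ‖T x‖ ≤ 1} = e ⁻¹' closedBall 0 1 := by
      ext x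
      rw [mem_preimage, mem_closedBall_zero_iff]
      rfl
    have h2 : a * volume {x | ‖T x‖ ≤ 1} ≤ 2 ^ n := by
      have h3 := haBall W
      rw [← Measure.addHaar_unitClosedBall_eq_addHaar_unitBall, hr, ha, Measure.smul_apply,
        Measure.map_apply hm measurableSet_closedBall, smul_eq_mul, ← hK] at h3
      exact h3
    have h3 : (Measure.addHaarScalarFactor (volume : Measure (E n)) μH[n] : ℝ≥0∞) * 2 ^ n ≤
        volume (ball (0 : E n) 1) := by
      conv_rhs => rw [← EuclideanSpace.euclideanHausdorffMeasure_eq_volume,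
        Measure.euclideanHausdorffMeasure_def, Measure.smul_apply, ENNReal.smul_def, smul_eq_mul]
      exact mul_le_mul_right (haLow (by omega)) _
    have hV : volume {x | ‖T x‖ ≤ 1} ≠ ⊤ := by
      rw [hK]
      exact (e.toHomeomorph.isCompact_preimage.2 (isCompact_closedBall _ _)).measure_lt_top.ne
    have hV0 : volume {x | ‖T x‖ ≤ 1} ≠ 0 := by
      rw [hK]
      exact ((isOpen_ball.preimage e.continuous).measure_pos volume
        ⟨0, by simp⟩ |>.trans_le (measure_mono (preimage_mono ball_subset_closedBall))).ne'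
    have ho : ENNReal.ofReal (om n) = volume (ball (0 : E n) 1) :=
      ofReal_measureReal measure_ball_lt_top.ne
    rw [h1, ENNReal.ofReal_mul (show 0 ≤ om n from measureReal_nonneg),
      ENNReal.ofReal_div_of_pos (y := volume.real _) (ENNReal.toReal_pos hV0 hV), ho, ofReal_measureReal hV, ← mul_assoc,
      mul_comm (volume _)]
    refine mul_le_mul_left ((ENNReal.le_div_iff_mul_le (.inl hV0) (.inl hV)).2 ?_) _
    rw [mul_assoc]
    exact (mul_le_mul_right h2 _).trans h3
  · have hr : finrank ℝ W < n := by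
      have h1 := T.finrank_range_add_finrank_ker
      have h2 : finrank ℝ (LinearMap.ker T) ≠ 0 := fun h =>
        hi (LinearMap.ker_eq_bot.1 (Submodule.finrank_eq_zero.1 h))
      rw [finrank_euclideanSpace_fin] at h1
      simp only [W]
      omega
    have h1 : dimH (T '' ball 0 1) < ((n : NNReal) : ℝ≥0∞) := by
      have h2 : T '' ball 0 1 ⊆ ((↑) : W → Fin N → ℝ) '' univ := by
        rintro _ ⟨x, -, rfl⟩
        exact ⟨⟨T x, x, rfl⟩, trivial, rfl⟩
      refine (dimH_mono h2).trans_lt ?_
      rw [hW.dimH_image]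
      refine (Real.dimH_univ_eq_finrank W).trans_lt ?_
      exact_mod_cast hr
    have h2 := hausdorffMeasure_of_dimH_lt h1
    rw [NNReal.coe_natCast] at h2
    rw [h2, mul_zero]
    exact zero_le

end Pool.Agent.Lib.MP_8115c2_gt.Bu
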