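import Pool.Agent.Lib.MP_8115c2_gt.Bu.St

/-!
The form at the two test perturbations of the identity, bounded by the volume of a star body.
-/

open MeasureTheory Set Metric Real
open scoped RealInnerProductSpace

noncomputable section

namespace Pool.Agent.Lib.MP_8115c2_gt.Bu

namespace L1

variable {n : ℕ}

lemma cos_low_pos (y h : ℝ) (hh : 0 < h) : -(h ^ 2 / 2) ≤ cos (y + h) - cos y + h * sin y := by
  have hd : ∀ x : ℝ, HasDerivAt (fun x : ℝ => x ^ 2 / 2 + cos (y + x) + x * sin y)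
      (x - sin (y + x) + sin y) x := fun x => by
    have h1 : HasDerivAt (fun x : ℝ => x ^ 2 / 2) x x := by
      simpa using (hasDerivAt_pow 2 x).div_const 2
    have h2 : HasDerivAt (fun x : ℝ => cos (y + x)) (-sin (y + x)) x := by
      simpa using ((hasDerivAt_id x).const_add y).cos
    have h3 : HasDerivAt (fun x : ℝ => x * sin y) (sin y) x := by
      simpa using (hasDerivAt_id x).mul_const (sin y)
    exact (h1.add h2).add h3
  obtain ⟨c, hc, he⟩ := exists_hasDerivAt_eq_slope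
    (fun x : ℝ => x ^ 2 / 2 + cos (y + x) + x * sin y) (fun x => x - sin (y + x) + sin y) hh
    (fun x _ => (hd x).continuousAt.continuousWithinAt) (fun x _ => hd x)
  have h1 : |sin (y + c) - sin y| ≤ c := by
    have := abs_sin_sub_sin_le (y + c) y
    rwa [add_sub_cancel_left, abs_of_pos hc.1] at this
  have h2 : 0 ≤ c - sin (y + c) + sin y := by linarith [(abs_le.1 h1).2]
  rw [he, sub_zero, le_div_iff₀ hh] at h2
  simp only [add_zero, zero_mul] at h2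
  linarith

lemma cos_low (y h : ℝ) : -(h ^ 2 / 2) ≤ cos (y + h) - cos y + h * sin y := by
  rcases lt_trichotomy h 0 with hh | rfl | hh
  · have := cos_low_pos (-y) (-h) (by linarith)
    rw [← neg_add, cos_neg, cos_neg, sin_neg] at this
    linarith
  · simp
  · exact cos_low_pos y h hh

lemma cos_taylor (y h : ℝ) : |cos (y + h) - cos y + h * sin y| ≤ h ^ 2 / 2 := by
  refine abs_le.2 ⟨cos_low y h, ?_⟩
  have := cos_low (y + π) h
  rw [add_right_comm, cos_add_pi, cos_add_pi, sin_add_pi] at this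
  linarith

lemma fv_neg (b : ℝ) (g u : E n) : fv b g (-u) = -fv b g u := by
  unfold fv
  simp only [inner_neg_right, mul_neg, sin_neg, cos_neg, neg_mul, neg_neg, smul_neg, neg_smul,
    sub_neg_eq_add, neg_sub]
  abel

/-- The support function, from above. -/
lemma supp_le (b t : ℝ) (g u ξ : E n) (hb : 0 ≤ b) (hu : ‖u‖ = 1) (hξ : ‖ξ‖ = 1)
    (ht : |t| * (b ^ 2 * ‖g‖ ^ 2 + b * ‖g‖ + 1) ≤ 1) :
    ⟪u + t • fv b g u, ξ⟫ ≤ 1 + t * cos (b * ⟪g, ξ⟫) := by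
  set c := ⟪g, u⟫ with hc
  set γ := ⟪g, ξ⟫ with hγ
  set d := ‖ξ - u‖ with hd
  have hs : ⟪u, ξ⟫ = 1 - d ^ 2 / 2 := by
    rw [hd, norm_sub_sq_real, hu, hξ, real_inner_comm]
    ring
  have hF : ⟪u + t • fv b g u, ξ⟫ = ⟪u, ξ⟫ +
      t * ((b * c * sin (b * c) + cos (b * c)) * ⟪u, ξ⟫ - b * sin (b * c) * γ) := by
    unfold fv
    rw [inner_add_left, real_inner_smul_left, inner_sub_left, real_inner_smul_left,
      real_inner_smul_left]
  have h1 : |γ - c| ≤ ‖g‖ * d := by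
    rw [hγ, hc, ← inner_sub_right]
    exact abs_real_inner_le_norm _ _
  have h2 : (b * (γ - c)) ^ 2 ≤ b ^ 2 * ‖g‖ ^ 2 * d ^ 2 := by
    rw [mul_pow, mul_assoc, ← mul_pow ‖g‖, ← sq_abs (γ - c)]
    gcongr
  have h3 := cos_taylor (b * c) (b * (γ - c))
  rw [show b * c + b * (γ - c) = b * γ by ring] at h3
  have h4 : |c| ≤ ‖g‖ := by
    have := abs_real_inner_le_norm g u
    rwa [hu, mul_one] at this
  have h5 : |b * c * sin (b * c) + cos (b * c)| ≤ b * ‖g‖ + 1 := by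
    refine (abs_add_le _ _).trans (add_le_add ?_ (abs_cos_le_one _))
    rw [abs_mul, abs_mul, abs_of_nonneg hb]
    calc b * |c| * |sin (b * c)| ≤ b * ‖g‖ * 1 := by gcongr; exact abs_sin_le_one _
      _ = b * ‖g‖ := mul_one _
  set a := b * c * sin (b * c) + cos (b * c) with ha
  set r := cos (b * γ) - cos (b * c) + b * (γ - c) * sin (b * c) with hr
  have h6 : a * (1 - d ^ 2 / 2) - b * sin (b * c) * γ = cos (b * γ) - (r + a * (d ^ 2 / 2)) := by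
    rw [ha, hr]
    ring
  have h7 : |r + a * (d ^ 2 / 2)| ≤ (b ^ 2 * ‖g‖ ^ 2 + b * ‖g‖ + 1) * (d ^ 2 / 2) := by
    refine (abs_add_le _ _).trans ?_
    rw [abs_mul, abs_of_nonneg (by positivity : 0 ≤ d ^ 2 / 2)]
    have : |a| * (d ^ 2 / 2) ≤ (b * ‖g‖ + 1) * (d ^ 2 / 2) := by gcongr
    linarith
  have h8 : |t * (r + a * (d ^ 2 / 2))| ≤ d ^ 2 / 2 := by
    rw [abs_mul]
    calc |t| * |r + a * (d ^ 2 / 2)|
        ≤ |t| * ((b ^ 2 * ‖g‖ ^ 2 + b * ‖g‖ + 1) * (d ^ 2 / 2)) := by gcongr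
      _ = |t| * (b ^ 2 * ‖g‖ ^ 2 + b * ‖g‖ + 1) * (d ^ 2 / 2) := by ring
      _ ≤ 1 * (d ^ 2 / 2) := by gcongr
      _ = d ^ 2 / 2 := one_mul _
  rw [hF, hs, h6, mul_sub]
  linarith [(abs_le.1 h8).1]

/-- The support function. -/
lemma supp_abs (b t : ℝ) (g u ξ : E n) (hb : 0 ≤ b) (hu : ‖u‖ = 1) (hξ : ‖ξ‖ = 1)
    (ht : |t| * (b ^ 2 * ‖g‖ ^ 2 + b * ‖g‖ + 1) ≤ 1) :
    |⟪u + t • fv b g u, ξ⟫| ≤ 1 + t * cos (b * ⟪g, ξ⟫) := by
  refine abs_le.2 ⟨?_, supp_le b t g u ξ hb hu hξ ht⟩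
  have := supp_le b t g (-u) ξ hb (by rwa [norm_neg]) hξ ht
  rw [fv_neg, smul_neg, ← neg_add, inner_neg_left] at this
  linarith

lemma om_pos (n : ℕ) : 0 < om n :=
  ENNReal.toReal_pos (measure_ball_pos _ _ one_pos).ne' measure_ball_lt_top.ne

lemma pow_low (hn : 1 ≤ n) {y : ℝ} (hy : |y| ≤ 1 / 8) :
    1 - y + y ^ 2 / 2 - |y| ^ 3 ≤ (1 + y / n)⁻¹ ^ n := by
  have n1 : (1 : ℝ) ≤ n := by exact_mod_cast hn
  have h0 : |y / n| ≤ 1 / 8 := by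
    rw [abs_div, abs_of_pos (by linarith : (0 : ℝ) < n)]
    exact (div_le_self (abs_nonneg _) n1).trans hy
  have h1 : 0 < 1 + y / n := by linarith [(abs_le.1 h0).1]
  have h2 : (1 + y / n) ^ n ≤ exp y := by
    calc (1 + y / n) ^ n ≤ exp (y / n) ^ n := by
          gcongr
          linarith [add_one_le_exp (y / n)]
      _ = exp y := by
          rw [← exp_nat_mul]
          congr 1
          field_simp
  have h3 : exp (-y) ≤ (1 + y / n)⁻¹ ^ n := by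
    rw [inv_pow, exp_neg]
    exact inv_anti₀ (pow_pos h1 n) h2
  refine le_trans ?_ h3
  have h4 := exp_bound (x := -y) (by rw [abs_neg]; linarith) (n := 3) (by norm_num)
  simp only [Finset.sum_range_succ, Finset.sum_range_zero, Nat.factorial, abs_neg] at h4
  have h5 := (abs_le.1 h4).1
  have h6 : 0 ≤ |y| ^ 3 := by positivity
  norm_num at h5
  linarith

lemma int_bd {σ : Measure (E n)} [IsProbabilityMeasure σ] {f : E n → ℝ} (hf : Continuous f)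
    (C : ℝ) (h : ∀ ξ, |f ξ| ≤ C) : Integrable f σ :=
  (integrable_const C).mono' hf.aestronglyMeasurable (.of_forall h)

/-- One sign. -/
lemma one (σ : Measure (E n)) (hn : 1 ≤ n) (hσ : Sph σ) {ι : Type} [Fintype ι] (w : ι → ℝ)
    (U : ι → Fin n → E n) (hC : Cal w U) (b e : ℝ) (g : E n) (hb : 0 ≤ b) (he : |e| ≤ 1 / 8)
    (hg : |e| * (b ^ 2 * ‖g‖ ^ 2 + b * ‖g‖ + 1) ≤ n) :
    |pp w U (fv b g) (e / n)| * (1 - e * ∫ ξ, cos (b * ⟪g, ξ⟫) ∂σ +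
      e ^ 2 * (∫ ξ, cos (b * ⟪g, ξ⟫) ^ 2 ∂σ) / 2 - |e| ^ 3) ≤ 1 := by
  obtain ⟨hP, -, -, hV⟩ := hσ
  have n1 : (1 : ℝ) ≤ n := by exact_mod_cast hn
  have n0 : (0 : ℝ) < n := by linarith
  have hy : ∀ ξ : E n, |e * cos (b * ⟪g, ξ⟫)| ≤ |e| := fun ξ => by
    rw [abs_mul]
    exact mul_le_of_le_one_right (abs_nonneg _) (abs_cos_le_one _)
  have hpos : ∀ ξ : E n, 7 / 8 ≤ 1 + e * cos (b * ⟪g, ξ⟫) / n := fun ξ => by
    have : |e * cos (b * ⟪g, ξ⟫) / n| ≤ 1 / 8 := by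
      rw [abs_div, abs_of_pos n0]
      exact (div_le_self (abs_nonneg _) n1).trans ((hy ξ).trans he)
    linarith [(abs_le.1 this).1]
  set ρ : E n → ℝ := fun ξ => (1 + e * cos (b * ⟪g, ξ⟫) / n)⁻¹ with hρ
  have ρc : Continuous ρ :=
    Continuous.inv₀ (by fun_prop) fun ξ => by linarith [hpos ξ]
  have ρp : ∀ ξ, 0 < ρ ξ := fun ξ => inv_pos.2 (by linarith [hpos ξ])
  have ρb : ∀ ξ, ρ ξ ≤ 2 := fun ξ => by
    rw [hρ]
    exact inv_le_of_inv_le₀ (by norm_num) (by linarith [hpos ξ])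
  have ht : |e / n| * (b ^ 2 * ‖g‖ ^ 2 + b * ‖g‖ + 1) ≤ 1 := by
    rw [abs_div, abs_of_pos n0, div_mul_eq_mul_div, div_le_one n0]
    exact hg
  have h1 := hC (fun u => u + (e / n) • fv b g u) {ξ : E n | ‖ξ‖ < ρ (‖ξ‖⁻¹ • ξ)} (by
    intro ξ hξ u hu
    by_cases h0 : ξ = 0
    · simp [h0]
    have hx : 0 < ‖ξ‖ := norm_pos_iff.2 h0
    have hu' : ‖‖ξ‖⁻¹ • ξ‖ = 1 := by
      rw [norm_smul, norm_inv, norm_norm, inv_mul_cancel₀ hx.ne']
    have h2 := supp_abs b (e / n) g u _ hb hu hu' ht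
    have h3 : ⟪u + (e / n) • fv b g u, ξ⟫ =
        ‖ξ‖ * ⟪u + (e / n) • fv b g u, ‖ξ‖⁻¹ • ξ⟫ := by
      rw [real_inner_smul_right, ← mul_assoc, mul_inv_cancel₀ hx.ne', one_mul]
    have h4 : ‖ξ‖ < (1 + e * cos (b * ⟪g, ‖ξ‖⁻¹ • ξ⟫) / n)⁻¹ := hξ
    have h5 := hpos (‖ξ‖⁻¹ • ξ)
    rw [div_mul_eq_mul_div] at h2
    rw [h3, abs_mul, abs_of_pos hx]
    calc ‖ξ‖ * |⟪u + (e / n) • fv b g u, ‖ξ‖⁻¹ • ξ⟫|
        ≤ (1 + e * cos (b * ⟪g, ‖ξ‖⁻¹ • ξ⟫) / n)⁻¹ *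
          (1 + e * cos (b * ⟪g, ‖ξ‖⁻¹ • ξ⟫) / n) := by
          gcongr
      _ = 1 := inv_mul_cancel₀ (by linarith))
  rw [hV ρ ρc ρp] at h1
  have h2 : |pp w U (fv b g) (e / n)| * ∫ ξ, ρ ξ ^ n ∂σ ≤ 1 := by
    refine le_of_mul_le_mul_left ?_ (om_pos n)
    rw [mul_one, mul_left_comm]
    exact h1
  refine le_trans (mul_le_mul_of_nonneg_left ?_ (abs_nonneg _)) h2
  have i1 : Integrable (fun ξ : E n => cos (b * ⟪g, ξ⟫)) σ :=
    int_bd (by fun_prop) 1 fun _ => abs_cos_le_one _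
  have i2 : Integrable (fun ξ : E n => cos (b * ⟪g, ξ⟫) ^ 2) σ :=
    int_bd (by fun_prop) 1 fun _ => by
      rw [abs_of_nonneg (sq_nonneg _)]
      exact cos_sq_le_one _
  have i3 : Integrable (fun ξ => ρ ξ ^ n) σ :=
    int_bd (ρc.pow n) (2 ^ n) fun ξ => by
      rw [abs_of_pos (pow_pos (ρp ξ) n)]
      exact pow_le_pow_left₀ (ρp ξ).le (ρb ξ) n
  have j1 : Integrable (fun ξ : E n => 1 - |e| ^ 3 - e * cos (b * ⟪g, ξ⟫)) σ :=
    (integrable_const _).sub (i1.const_mul e)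
  have j2 : Integrable (fun ξ : E n => e ^ 2 / 2 * cos (b * ⟪g, ξ⟫) ^ 2) σ := i2.const_mul _
  have h3 : ∫ ξ, ((1 - |e| ^ 3 - e * cos (b * ⟪g, ξ⟫)) + e ^ 2 / 2 * cos (b * ⟪g, ξ⟫) ^ 2) ∂σ ≤
      ∫ ξ, ρ ξ ^ n ∂σ := by
    refine integral_mono (j1.add j2) i3 fun ξ => ?_
    have a1 := pow_low hn ((hy ξ).trans he)
    have a2 : |e * cos (b * ⟪g, ξ⟫)| ^ 3 ≤ |e| ^ 3 := pow_le_pow_left₀ (abs_nonneg _) (hy ξ) 3
    have a3 : (e * cos (b * ⟪g, ξ⟫)) ^ 2 / 2 = e ^ 2 / 2 * cos (b * ⟪g, ξ⟫) ^ 2 := by ring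
    change _ ≤ (1 + e * cos (b * ⟪g, ξ⟫) / n)⁻¹ ^ n
    linarith
  rw [integral_add j1 j2, integral_sub (integrable_const _) (i1.const_mul e), integral_const_mul,
    integral_const_mul] at h3
  simp only [integral_const, probReal_univ, smul_eq_mul, one_mul] at h3
  linarith

lemma inv_le {p z δ : ℝ} (hz : |z| ≤ δ) (hδ : δ ≤ 1 / 4) (h : |p| * (1 - z) ≤ 1) :
    p ≤ 1 + z + z ^ 2 + 2 * δ ^ 3 := by
  obtain ⟨h1, h2⟩ := abs_le.1 hz
  have h0 : 0 ≤ δ := (abs_nonneg z).trans hz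
  have h3 : z ^ 3 ≤ δ ^ 3 := by
    refine (le_abs_self _).trans ?_
    rw [abs_pow]
    exact pow_le_pow_left₀ (abs_nonneg _) hz 3
  have h4 : 0 ≤ δ ^ 3 := by positivity
  refine (le_abs_self p).trans (le_of_mul_le_mul_right (h.trans ?_) (by linarith : 0 < 1 - z))
  have h5 : (1 + z + z ^ 2 + 2 * δ ^ 3) * (1 - z) = 1 - z ^ 3 + 2 * δ ^ 3 * (1 - z) := by ring
  have h6 : 2 * δ ^ 3 * (1 / 2) ≤ 2 * δ ^ 3 * (1 - z) := by gcongr; linarith
  linarith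

lemma fin {p q a s ε : ℝ} (h0 : 0 < ε) (h1 : ε ≤ 1 / 8) (ha : |a| ≤ 1) (hs0 : 0 ≤ s) (hs : s ≤ 1)
    (hp : |p| * (1 - ε * a + ε ^ 2 * s / 2 - ε ^ 3) ≤ 1)
    (hq : |q| * (1 + ε * a + ε ^ 2 * s / 2 - ε ^ 3) ≤ 1) :
    p + q ≤ 2 - ε ^ 2 * s + 2 * ε ^ 2 * a ^ 2 + 20 * ε ^ 3 := by
  set r := ε ^ 3 - ε ^ 2 * s / 2 with hr
  have e2 : 0 < ε ^ 2 := by positivity
  have e3 : ε ^ 3 ≤ ε ^ 2 / 8 := by nlinarith
  have e3' : 0 < ε ^ 3 := by positivity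
  have e4 : ε ^ 2 * s ≤ ε ^ 2 := mul_le_of_le_one_right e2.le hs
  have e5 : 0 ≤ ε ^ 2 * s := by positivity
  have r1 : |r| ≤ ε ^ 2 / 2 := abs_le.2 ⟨by linarith, by linarith⟩
  have r2 : ε ^ 2 / 2 ≤ ε / 2 := by nlinarith
  have a1 : |ε * a| ≤ ε := by
    rw [abs_mul, abs_of_pos h0]
    exact mul_le_of_le_one_right h0.le ha
  have z1 : |ε * a + r| ≤ 3 / 2 * ε := (abs_add_le _ _).trans (by linarith)
  have z2 : |-(ε * a) + r| ≤ 3 / 2 * ε := (abs_add_le _ _).trans (by rw [abs_neg]; linarith)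
  have b1 := inv_le (p := p) z1 (by linarith) (by rw [hr]; convert hp using 2; ring)
  have b2 := inv_le (p := q) z2 (by linarith) (by rw [hr]; convert hq using 2; ring)
  have r3 : r ^ 2 ≤ ε ^ 3 := by
    have : r ^ 2 ≤ (ε ^ 2 / 2) ^ 2 := by
      rw [← sq_abs r]
      exact pow_le_pow_left₀ (abs_nonneg _) r1 2
    nlinarith
  have c1 : (ε * a + r) ^ 2 + (-(ε * a) + r) ^ 2 = 2 * ε ^ 2 * a ^ 2 + 2 * r ^ 2 := by ring
  have c2 : (3 / 2 * ε) ^ 3 = 27 / 8 * ε ^ 3 := by ring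
  linarith

end L1

/-- The sum of the values at the two test perturbations. -/
theorem l1S : L1Stmt := by
  intro n σ hn hσ ι _ w U hC b ε g hb h0 h1 hg
  have hP := hσ.1
  have p1 := L1.one σ hn hσ w U hC b ε g hb (by rwa [abs_of_pos h0]) (by rwa [abs_of_pos h0])
  have p2 := L1.one σ hn hσ w U hC b (-ε) g hb (by rwa [abs_neg, abs_of_pos h0])
    (by rwa [abs_neg, abs_of_pos h0])
  rw [abs_of_pos h0] at p1
  rw [abs_neg ε, abs_of_pos h0, neg_div, neg_mul, sub_neg_eq_add, neg_sq] at p2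
  refine L1.fin h0 h1 ?_ (integral_nonneg fun _ => sq_nonneg _) ?_ p1 p2
  · have := norm_integral_le_of_norm_le_const (μ := σ)
      (f := fun ξ : E n => cos (b * ⟪g, ξ⟫)) (C := 1) (.of_forall fun _ => abs_cos_le_one _)
    simpa using this
  · have := norm_integral_le_of_norm_le_const (μ := σ)
      (f := fun ξ : E n => cos (b * ⟪g, ξ⟫) ^ 2) (C := 1) (.of_forall fun _ => by
        rw [Real.norm_eq_abs, abs_of_nonneg (sq_nonneg _)]
        exact cos_sq_le_one _)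
    simp only [probReal_univ, mul_one, Real.norm_eq_abs] at this
    exact (le_abs_self _).trans this

end Pool.Agent.Lib.MP_8115c2_gt.Bu
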