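import Pool.Agent.Lib.MP_8115c2_gt.Bu.St

/-!
The expansion of the form along a perturbation of the identity.
-/

open MeasureTheory Set Metric Real
open scoped RealInnerProductSpace

noncomputable section

namespace Pool.Agent.Lib.MP_8115c2_gt.Bu

namespace L2

variable {n : ℕ} {ι : Type} [Fintype ι]

/-- The coefficients of a polynomial are bounded by its values on the unit interval. -/
lemma coef (N : ℕ) : ∃ C : ℝ, 0 ≤ C ∧ ∀ (a : ℕ → ℝ) (B : ℝ),
    (∀ s : ℝ, |s| ≤ 1 → |∑ k ∈ Finset.range N, s ^ k * a k| ≤ B) → ∀ k < N, |a k| ≤ C * B := by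
  let v : Fin N → ℝ := fun j => (j : ℕ) / (N + 1)
  have hN : (0 : ℝ) < N + 1 := by positivity
  have hv : Function.Injective v := fun j j' e =>
    Fin.ext (by exact_mod_cast (div_left_inj' hN.ne').1 e)
  have hd : IsUnit (Matrix.vandermonde v).det :=
    (Matrix.det_vandermonde_ne_zero_iff.2 hv).isUnit
  refine ⟨∑ k, ∑ j, |(Matrix.vandermonde v)⁻¹ k j|, by positivity, fun a B h k hk => ?_⟩
  have h1 : ∀ j, |((Matrix.vandermonde v).mulVec fun k : Fin N => a k) j| ≤ B := fun j => by
    have := h (v j) (by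
      rw [abs_of_nonneg (by positivity), div_le_one hN]
      have : ((j : ℕ) : ℝ) ≤ N := by exact_mod_cast j.2.le
      linarith)
    rwa [← Fin.sum_univ_eq_sum_range (fun k => v j ^ k * a k)] at this
  have hB : 0 ≤ B := (abs_nonneg _).trans (h 0 (by simp))
  have h2 : a k = ∑ j, (Matrix.vandermonde v)⁻¹ ⟨k, hk⟩ j *
      ((Matrix.vandermonde v).mulVec fun k : Fin N => a k) j := by
    have := congrFun (Matrix.mulVec_mulVec (fun k : Fin N => a k) (Matrix.vandermonde v)⁻¹
      (Matrix.vandermonde v)) ⟨k, hk⟩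
    rw [Matrix.nonsing_inv_mul _ hd, Matrix.one_mulVec] at this
    exact this.symm
  rw [h2]
  refine (Finset.abs_sum_le_sum_abs _ _).trans ?_
  calc _ ≤ ∑ j, |(Matrix.vandermonde v)⁻¹ ⟨k, hk⟩ j| * B := Finset.sum_le_sum fun j _ => by
        rw [abs_mul]
        exact mul_le_mul_of_nonneg_left (h1 j) (abs_nonneg _)
    _ ≤ _ := by
        rw [← Finset.sum_mul]
        exact mul_le_mul_of_nonneg_right (Finset.single_le_sum
          (f := fun k => ∑ j, |(Matrix.vandermonde v)⁻¹ k j|) (fun _ _ => by positivity)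
          (Finset.mem_univ _)) hB

lemma pairs {α : Type} [Fintype α] [DecidableEq α] (g : Finset α → ℝ) :
    ∑ j, ∑ j' ∈ Finset.univ.erase j, g {j, j'} =
      2 * ∑ S ∈ Finset.univ.filter fun S : Finset α => S.card = 2, g S := by
  have h1 : ∀ j, ∑ j' ∈ Finset.univ.erase j, g {j, j'} =
      ∑ S ∈ Finset.univ.filter fun S : Finset α => S.card = 2, if j ∈ S then g S else 0 := by
    intro j
    rw [← Finset.sum_filter]
    refine Finset.sum_bij (fun j' _ => {j, j'}) (fun a ha => ?_) (fun a ha b hb e => ?_)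
      (fun S hS => ?_) fun _ _ => rfl
    · simp [Finset.card_pair (Finset.ne_of_mem_erase ha).symm]
    · have : a ∈ ({j, b} : Finset α) := e ▸ (by simp)
      simpa [Finset.ne_of_mem_erase ha] using this
    · simp only [Finset.mem_filter, Finset.mem_univ, true_and] at hS
      obtain ⟨x, y, hxy, rfl⟩ := Finset.card_eq_two.1 hS.1
      rcases Finset.mem_insert.1 hS.2 with rfl | h
      · exact ⟨y, by simp [hxy.symm], rfl⟩
      · rw [Finset.mem_singleton.1 h]
        exact ⟨x, by simp [hxy], Finset.pair_comm _ _⟩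
  simp only [h1]
  rw [Finset.sum_comm, Finset.mul_sum]
  refine Finset.sum_congr rfl fun S hS => ?_
  rw [← Finset.sum_filter, Finset.sum_const, Finset.filter_mem_eq_inter, Finset.univ_inter,
    (Finset.mem_filter.1 hS).2]
  simp

lemma D_exp (u v : Fin n → E n) (t : ℝ) :
    D (fun j => u j + t • v j) = ∑ S : Finset (Fin n), t ^ S.card * D (S.piecewise v u) := by
  let m : MultilinearMap ℝ (fun _ : Fin n => Fin n → ℝ) ℝ :=
    (Matrix.detRowAlternating : (Fin n → ℝ) [⋀^Fin n]→ₗ[ℝ] ℝ).toMultilinearMap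
  have hD : ∀ x : Fin n → E n, D x = m fun j k => x j k := fun _ => rfl
  have e : (fun j k => (u j + t • v j) k) = (fun j k => t * v j k) + fun j k => u j k := by
    funext j k
    simp [add_comm]
  rw [hD, e, m.map_add_univ]
  refine Finset.sum_congr rfl fun S _ => ?_
  have := m.map_piecewise_smul (fun _ => t) (fun j k => S.piecewise v u j k) S
  rw [Finset.prod_const, smul_eq_mul] at this
  rw [hD, ← this]
  congr 1
  funext j
  by_cases h : j ∈ S <;> simp [h]
  rfl

/-- The coefficients of `pp`. -/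
def cc (w : ι → ℝ) (U : ι → Fin n → E n) (V : E n → E n) (k : ℕ) : ℝ :=
  ∑ i, w i * ∑ S ∈ Finset.univ.filter fun S : Finset (Fin n) => S.card = k,
    D (S.piecewise (fun j => V (U i j)) (U i))

variable (w : ι → ℝ) (U : ι → Fin n → E n) (V : E n → E n)

lemma pp_eq (t : ℝ) : pp w U V t = ∑ k ∈ Finset.range (n + 3), t ^ k * cc w U V k := by
  simp only [pp, cc, Finset.mul_sum]
  rw [Finset.sum_comm]
  refine Finset.sum_congr rfl fun i _ => ?_
  rw [D_exp, Finset.mul_sum, ← Finset.sum_fiberwise_of_maps_to (t := Finset.range (n + 3))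
    (g := Finset.card) (fun S _ => by
      have := S.card_le_univ
      rw [Fintype.card_fin] at this
      exact Finset.mem_range.2 (by omega))]
  refine Finset.sum_congr rfl fun k _ => Finset.sum_congr rfl fun S hS => ?_
  rw [(Finset.mem_filter.1 hS).2]
  ring

lemma cc_zero : cc w U V 0 = ∑ i, w i * D (U i) := by
  refine Finset.sum_congr rfl fun i _ => ?_
  simp [Finset.filter_eq']

lemma cc_two : qq w U V = 2 * cc w U V 2 := by
  rw [qq, cc, Finset.mul_sum]
  refine Finset.sum_congr rfl fun i _ => ?_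
  rw [mul_left_comm, ← pairs]
  congr 1
  refine Finset.sum_congr rfl fun j _ => Finset.sum_congr rfl fun j' _ => ?_
  congr 1
  funext l
  by_cases h : l = j'
  · subst h
    simp
  · by_cases h' : l = j
    · subst h'
      simp [h]
    · simp [h, h']

lemma om_pos : 0 < om n :=
  ENNReal.toReal_pos (measure_ball_pos volume _ one_pos).ne' measure_ball_lt_top.ne

variable {w U}

lemma bound (h : Cal w U) (F : E n → E n) {r : ℝ} (hr : 0 < r) (hF : ∀ u, ‖u‖ = 1 → ‖F u‖ ≤ r) :
    |∑ i, w i * D fun j => F (U i j)| ≤ r ^ n := by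
  have h1 := h F (ball 0 r⁻¹) fun ξ hξ u hu => by
    refine (abs_real_inner_le_norm _ _).trans ?_
    rw [← mul_inv_cancel₀ hr.ne']
    exact mul_le_mul (hF u hu) (mem_ball_zero_iff.1 hξ).le (norm_nonneg _) hr.le
  have h2 : volume.real (ball (0 : E n) r⁻¹) = r⁻¹ ^ n * om n := by
    rw [om, Measure.real, Measure.addHaar_ball_of_pos _ _ (inv_pos.2 hr), ENNReal.toReal_mul,
      ENNReal.toReal_ofReal (by positivity), finrank_euclideanSpace_fin]
    rfl
  rw [h2, ← mul_assoc, mul_le_iff_le_one_left om_pos, inv_pow,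
    mul_inv_le_iff₀ (pow_pos hr n), one_mul] at h1
  exact h1

end L2

open L2 in
theorem l2S : L2Stmt := by
  intro n
  obtain ⟨C, hC, hc⟩ := coef (n + 3)
  refine ⟨2 * (C * 2 ^ n) * (n + 1), by positivity, fun ι _ w U h => ⟨?_, fun V M hM hV => ?_⟩⟩
  · simpa using bound h id one_pos fun u hu => hu.le
  have h1 : ∀ k < n + 3, |cc w U V k| ≤ C * 2 ^ n * M ^ k := fun k hk => by
    have := hc (fun k => cc w U V k / M ^ k) (2 ^ n) (fun s hs => by
      have e : ∑ k ∈ Finset.range (n + 3), s ^ k * (cc w U V k / M ^ k) = pp w U V (s / M) := by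
        rw [pp_eq]
        exact Finset.sum_congr rfl fun k _ => by rw [div_pow]; ring
      rw [e]
      refine bound h (fun u => u + (s / M) • V u) two_pos fun u hu => (norm_add_le _ _).trans ?_
      rw [norm_smul, hu, Real.norm_eq_abs, abs_div, abs_of_pos hM]
      have : |s| / M * ‖V u‖ ≤ 1 / M * M :=
        mul_le_mul (by gcongr) (hV u hu) (norm_nonneg _) (by positivity)
      rw [one_div, inv_mul_cancel₀ hM.ne'] at this
      linarith) k hk
    rwa [abs_div, abs_of_pos (pow_pos hM k), div_le_iff₀ (pow_pos hM k)] at this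
  have hn : (0 : ℝ) ≤ n := Nat.cast_nonneg n
  have hp : 0 ≤ C * 2 ^ n := by positivity
  refine ⟨?_, fun t ht => ?_⟩
  · rw [cc_two, abs_mul, abs_two]
    have := h1 2 (by omega)
    nlinarith [mul_nonneg hn (mul_nonneg hp (pow_pos hM 2).le)]
  have e : pp w U V t + pp w U V (-t) - 2 * ∑ i, w i * D (U i) - t ^ 2 * qq w U V =
      ∑ k ∈ Finset.range n, (t ^ (k + 3) + (-t) ^ (k + 3)) * cc w U V (k + 3) := by
    rw [pp_eq, pp_eq, cc_two, ← cc_zero w U V]
    simp only [Finset.sum_range_succ', add_mul, Finset.sum_add_distrib]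
    ring
  have h0 : 0 ≤ |t| * M := by positivity
  rw [e]
  refine (Finset.abs_sum_le_sum_abs _ _).trans ?_
  calc _ ≤ ∑ _k ∈ Finset.range n, 2 * (C * 2 ^ n) * (|t| * M) ^ 3 :=
        Finset.sum_le_sum fun k hk => by
          have a1 : |t ^ (k + 3) + (-t) ^ (k + 3)| ≤ 2 * |t| ^ (k + 3) := by
            refine (abs_add_le _ _).trans ?_
            rw [abs_pow, abs_pow, abs_neg]
            linarith
          have a2 := h1 (k + 3) (by have := Finset.mem_range.1 hk; omega)
          have a3 : (|t| * M) ^ (k + 3) ≤ (|t| * M) ^ 3 := pow_le_pow_of_le_one h0 ht (by omega)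
          rw [abs_mul]
          calc _ ≤ 2 * |t| ^ (k + 3) * (C * 2 ^ n * M ^ (k + 3)) :=
                mul_le_mul a1 a2 (abs_nonneg _) (by positivity)
            _ = 2 * (C * 2 ^ n) * (|t| * M) ^ (k + 3) := by rw [mul_pow]; ring
            _ ≤ _ := by gcongr
    _ ≤ _ := by
        rw [Finset.sum_const, Finset.card_range, nsmul_eq_mul]
        nlinarith [mul_nonneg hp (pow_nonneg h0 3)]

end Pool.Agent.Lib.MP_8115c2_gt.Bu
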