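import Pool.Agent.Lib.MP_8115c2_gt.Bu.St

/-!
The Gaussian mean of the second order term.
-/

open MeasureTheory Set Metric Real
open scoped RealInnerProductSpace

noncomputable section

namespace Pool.Agent.Lib.MP_8115c2_gt.Bu

namespace L3a

variable {n : ℕ}

/-- a function of polynomial growth with mean `a` -/
def IV (f : E n → ℝ) (a : ℝ) : Prop := PG f ∧ ∫ g, f g ∂gm n = a

lemma IV.add {f h : E n → ℝ} {a b : ℝ} (hf : IV f a) (hh : IV h b) :
    IV (fun g => f g + h g) (a + b) :=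
  ⟨hf.1.add hh.1, by rw [integral_add hf.1.int hh.1.int, hf.2, hh.2]⟩

lemma IV.smul {f : E n → ℝ} {a : ℝ} (hf : IV f a) (c : ℝ) : IV (fun g => c * f g) (c * a) :=
  ⟨(PG.const c).mul hf.1, by rw [integral_const_mul, hf.2]⟩

lemma IV.congr {f h : E n → ℝ} {a b : ℝ} (hf : IV f a) (h1 : ∀ g, h g = f g) (h2 : b = a) :
    IV h b := by
  rw [funext h1, h2]
  exact hf

lemma IV.sum {ι : Type} (s : Finset ι) {f : ι → E n → ℝ} {a : ι → ℝ}
    (h : ∀ i ∈ s, IV (f i) (a i)) : IV (fun g => ∑ i ∈ s, f i g) (∑ i ∈ s, a i) :=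
  ⟨PG.sum s fun i hi => (h i hi).1, by
    rw [integral_finsetSum _ fun i hi => (h i hi).1.int]
    exact Finset.sum_congr rfl fun i hi => (h i hi).2⟩

/-- a function of one variable with its derivative -/
def Fn (n : ℕ) (F F' : ℝ → ℝ) : Prop :=
  (∀ t, HasDerivAt F (F' t) t) ∧ ∀ v : E n, PG (fun g => F ⟪g, v⟫) ∧ PG fun g => F' ⟪g, v⟫

lemma st (N u u' : E n) {F F' G G' : ℝ → ℝ} (hF : Fn n F F') (hG : Fn n G G') :
    IV (fun g => ⟪g, N⟫ * (F ⟪g, u⟫ * G ⟪g, u'⟫) -
      (F' ⟪g, u⟫ * ⟪N, u⟫ * G ⟪g, u'⟫ + F ⟪g, u⟫ * (G' ⟪g, u'⟫ * ⟪N, u'⟫))) 0 := by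
  have p1 := (hF.2 u).1.mul (hG.2 u').1
  have p2 := (((hF.2 u).2.mul (PG.const ⟪N, u⟫)).mul (hG.2 u').1).add
    ((hF.2 u).1.mul ((hG.2 u').2.mul (PG.const ⟪N, u'⟫)))
  refine ⟨((PG.inner N).mul p1).sub p2, ?_⟩
  rw [integral_sub ((PG.inner N).mul p1).int p2.int, stein N p1 p2 fun g => ?_, sub_self]
  have h : ∀ (v : E n) {F F' : ℝ → ℝ}, Fn n F F' →
      HasDerivAt (fun t : ℝ => F ⟪g + t • N, v⟫) (F' ⟪g, v⟫ * ⟪N, v⟫) 0 := fun v F F' hF => by
    simp only [inner_add_left, real_inner_smul_left]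
    exact ((hF.1 (⟪g, v⟫ + 0 * ⟪N, v⟫)).comp (0 : ℝ)
      (((hasDerivAt_id (0 : ℝ)).mul_const ⟪N, v⟫).const_add ⟪g, v⟫)).congr_deriv (by simp)
  exact ((h u hF).mul (h u' hG)).congr_deriv (by simp)

lemma pS (b : ℝ) (v : E n) : PG fun g => sin (b * ⟪g, v⟫) := PG.sin (by fun_prop)

lemma pC (b : ℝ) (v : E n) : PG fun g => cos (b * ⟪g, v⟫) := PG.cos (by fun_prop)

lemma fS (b : ℝ) : Fn n (fun t => sin (b * t)) fun t => b * cos (b * t) :=
  ⟨fun t => ((hasDerivAt_id t).const_mul b).sin.congr_deriv (by simp [mul_comm]),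
    fun v => ⟨pS b v, (PG.const b).mul (pC b v)⟩⟩

lemma fC (b : ℝ) : Fn n (fun t => cos (b * t)) fun t => -b * sin (b * t) :=
  ⟨fun t => ((hasDerivAt_id t).const_mul b).cos.congr_deriv (by simp [mul_comm]),
    fun v => ⟨pC b v, (PG.const (-b)).mul (pS b v)⟩⟩

lemma fT (b : ℝ) :
    Fn n (fun t => t * sin (b * t)) fun t => sin (b * t) + t * (b * cos (b * t)) :=
  ⟨fun t => ((hasDerivAt_id t).mul ((fS (n := n) b).1 t)).congr_deriv (by simp),
    fun v => ⟨(PG.inner v).mul (pS b v),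
      (pS b v).add ((PG.inner v).mul ((PG.const b).mul (pC b v)))⟩⟩

lemma cosI (b s : ℝ) {u u' : E n} (hu : ‖u‖ = 1) (hu' : ‖u'‖ = 1) (hs : s ^ 2 = 1) :
    IV (fun g => cos (b * ⟪g, u⟫ + s * (b * ⟪g, u'⟫)))
      (exp (-b ^ 2) * exp (-s * (b ^ 2 * ⟪u, u'⟫))) := by
  refine ⟨PG.cos (by fun_prop), ?_⟩
  have h := int_cos (b • u + (s * b) • u')
  simp only [inner_add_right, real_inner_smul_right, mul_assoc] at h
  rw [h, ← exp_add, norm_add_sq_real, norm_smul, norm_smul, hu, hu', real_inner_smul_left,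
    real_inner_smul_right, mul_one, mul_one, Real.norm_eq_abs, Real.norm_eq_abs, sq_abs, sq_abs]
  congr 1
  linear_combination (-b ^ 2 / 2) * hs

lemma D_lin (U : Fin n → E n) (j : Fin n) (a b : ℝ) (x y : E n) :
    D (Function.update U j (a • x - b • y)) =
      a * D (Function.update U j x) - b * D (Function.update U j y) := by
  have e : ∀ v : E n, D (Function.update U j v) =
      ((Matrix.of fun j k => U j k).updateRow j fun k => v k).det := fun v => by
    unfold D
    congr 1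
    ext l k
    rw [Matrix.updateRow_apply, Matrix.of_apply, Function.update_apply]
    split_ifs <;> rfl
  rw [e, e, e, show (fun k => (a • x - b • y) k) = a • (fun k => x k) + (-b) • fun k => y k by
    ext k; simp [sub_eq_add_neg], Matrix.det_updateRow_add, Matrix.det_updateRow_smul,
    Matrix.det_updateRow_smul]
  ring

lemma D_zero {U : Fin n → E n} {j l : Fin n} (h : j ≠ l) (e : U j = U l) : D U = 0 :=
  Matrix.det_zero_of_row_eq h (by ext k; simp [e])

lemma ex_N (U : Fin n → E n) (j : Fin n) :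
    ∃ N : E n, ∀ g, D (Function.update U j g) = ⟪g, N⟫ := by
  let L : E n →ₗ[ℝ] ℝ :=
    { toFun := fun g => D (Function.update U j g)
      map_add' := fun x y => by simpa using D_lin U j 1 (-1) x y
      map_smul' := fun a x => by simpa using D_lin U j a 0 x x }
  refine ⟨(InnerProductSpace.toDual ℝ _).symm (LinearMap.toContinuousLinearMap L), fun g => ?_⟩
  rw [real_inner_comm, InnerProductSpace.toDual_symm_apply]
  rfl

lemma pair (U : Fin n → E n) (hU : ∀ j, ‖U j‖ = 1) (b : ℝ) {j l : Fin n} (h : l ≠ j) :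
    IV (fun g => D (Function.update (Function.update U j (fv b g (U j))) l (fv b g (U l))))
      (D U * Lk (b ^ 2) ⟪U j, U l⟫) := by
  obtain ⟨N, hN⟩ := ex_N U j
  obtain ⟨M, hM⟩ := ex_N U l
  have n1 : ⟪N, U j⟫ = D U := by rw [real_inner_comm, ← hN, Function.update_eq_self]
  have n2 : ⟪N, U l⟫ = 0 := by
    rw [real_inner_comm, ← hN]
    exact D_zero h (by simp [h])
  have m1 : ⟪M, U l⟫ = D U := by rw [real_inner_comm, ← hM, Function.update_eq_self]
  have m2 : ⟪M, U j⟫ = 0 := by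
    rw [real_inner_comm, ← hM]
    exact D_zero h (by simp [h.symm])
  have u1 : ∀ j, ⟪U j, U j⟫ = 1 := fun j => by rw [real_inner_self_eq_norm_sq, hU, one_pow]
  have e : ∀ (g : E n) (a c a' c' : ℝ), D (Function.update (Function.update U j
      (a • U j - c • g)) l (a' • U l - c' • g)) =
      a * a' * D U - c * a' * ⟪g, N⟫ - a * c' * ⟪g, M⟫ := fun g a c a' c' => by
    have k : ∀ v, Function.update (Function.update U j v) l (U l) = Function.update U j v :=
      fun v => by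
        rw [Function.update_comm h.symm, Function.update_eq_self]
    rw [D_lin, k, D_lin, Function.update_eq_self, hN, Function.update_comm h.symm, D_lin,
      Function.update_comm h, Function.update_eq_self, hM, D_zero (U := Function.update
        (Function.update U l g) j g) h (by simp [h])]
    ring
  have s1 := st (U j) (U j) (U l) (fS b) (fC b)
  have s2 := st (U l) (U j) (U l) (fC b) (fS b)
  have s3 := st (U l) (U j) (U l) (fS b) (fC b)
  have s4 := st (U j) (U j) (U l) (fS b) (fT b)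
  have s5 := st N (U j) (U l) (fS b) (fT b)
  have s6 := st N (U j) (U l) (fS b) (fC b)
  have s7 := st M (U j) (U l) (fT b) (fS b)
  have s8 := st M (U j) (U l) (fC b) (fS b)
  have c1 := cosI b 1 (hU j) (hU l) (by norm_num)
  have c2 := cosI b (-1) (hU j) (hU l) (by norm_num)
  rw [real_inner_comm (U j) (U l)] at s2 s3
  rw [u1] at s1 s2 s3 s4
  rw [n1, n2] at s5 s6
  rw [m1, m2] at s7 s8
  generalize ⟪U j, U l⟫ = R at *
  refine (((((((((s1.smul (D U * (b - b ^ 3))).add (s2.smul (D U * b))).add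
    (s3.smul (D U * b ^ 3 * R))).add (s4.smul (D U * b ^ 2))).add (s5.smul (-b ^ 2))).add
    (s6.smul (-b))).add (s7.smul (-b ^ 2))).add (s8.smul (-b))).add
    ((c1.smul (D U * ((b ^ 4 * R ^ 2 - b ^ 4 + 1) + b ^ 2 * R) / 2)).add
      (c2.smul (D U * ((b ^ 4 * R ^ 2 - b ^ 4 + 1) - b ^ 2 * R) / 2)))).congr (fun g => ?_) ?_
  · unfold fv
    rw [e]
    simp only [cos_add, one_mul, neg_mul, cos_neg, sin_neg]
    ring
  · unfold Lk
    rw [cosh_eq, sinh_eq]
    simp only [neg_neg, one_mul, neg_mul]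
    ring

end L3a

theorem l3aS : L3aStmt := by
  intro n ι _ w U hU b
  have h := L3a.IV.sum Finset.univ fun i _ => (L3a.IV.sum Finset.univ fun j _ =>
    L3a.IV.sum (Finset.univ.erase j) fun l hl =>
      L3a.pair (U i) (hU i) b (Finset.ne_of_mem_erase hl)).smul (w i)
  refine ⟨h.1, h.2.trans ?_⟩
  unfold Lm
  rcases Nat.eq_zero_or_pos n with rfl | hn
  · simp
  · rw [mul_div_cancel₀ _ (by positivity)]
    simp only [Finset.mul_sum, mul_assoc]

end Pool.Agent.Lib.MP_8115c2_gt.Bu
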