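import Pool.Agent.Lib.MP_8115c2_gt.Bu.St

/-!
Gaussian means of the spherical cosine integrals.
-/

open MeasureTheory Set Metric Real
open scoped RealInnerProductSpace

noncomputable section

namespace Pool.Agent.Lib.MP_8115c2_gt.Bu

variable {n : ℕ}

lemma BC.integ {X Y : Type} [TopologicalSpace X] [TopologicalSpace Y] [FirstCountableTopology X]
    [MeasurableSpace Y] [OpensMeasurableSpace Y] [SecondCountableTopology Y] (μ : Measure Y)
    [IsProbabilityMeasure μ] {F : X → Y → ℝ} (hF : BC fun p : X × Y => F p.1 p.2) :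
    BC fun x => ∫ y, F x y ∂μ := by
  obtain ⟨c, C, h⟩ := hF
  refine ⟨continuous_of_dominated (bound := fun _ => C)
    (fun x => (c.comp (Continuous.prodMk_right x)).aestronglyMeasurable)
    (fun x => .of_forall fun g => h (x, g)) (integrable_const C)
    (.of_forall fun g => c.comp (Continuous.prodMk_left g)), C, fun x => ?_⟩
  have := norm_integral_le_of_norm_le_const (μ := μ) (f := F x) (C := C)
    (.of_forall fun g => h (x, g))
  simpa using this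

lemma int_cc (b : ℝ) (u v : E n) : ∫ g, cos (b * ⟪g, u⟫) * cos (b * ⟪g, v⟫) ∂gm n =
    (exp (-‖b • (u + v)‖ ^ 2 / 2) + exp (-‖b • (u - v)‖ ^ 2 / 2)) / 2 := by
  have h : ∀ g : E n, cos (b * ⟪g, u⟫) * cos (b * ⟪g, v⟫) =
      (cos ⟪g, b • (u + v)⟫ + cos ⟪g, b • (u - v)⟫) / 2 := fun g => by
    rw [real_inner_smul_right, real_inner_smul_right, inner_add_right, inner_sub_right, mul_add,
      mul_sub, cos_add, cos_sub]
    ring
  simp only [h]
  rw [integral_div, integral_add (PG.cos (by fun_prop)).int (PG.cos (by fun_prop)).int, int_cos,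
    int_cos]

lemma int_cc_le (b : ℝ) {u v : E n} (hu : ‖u‖ = 1) (hv : ‖v‖ = 1) :
    ∫ g, cos (b * ⟪g, u⟫) * cos (b * ⟪g, v⟫) ∂gm n ≤ exp (-b ^ 2 / 2) + 4 * ⟪u, v⟫ ^ 2 := by
  rw [int_cc, norm_smul, norm_smul, mul_pow, mul_pow, Real.norm_eq_abs, sq_abs, norm_add_sq_real,
    norm_sub_sq_real, hu, hv]
  have h1 := abs_real_inner_le_norm u v
  rw [hu, hv, abs_le] at h1
  generalize ⟪u, v⟫ = R at h1 ⊢
  have hb := sq_nonneg b
  rcases le_or_gt (R ^ 2) (1 / 4) with h | h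
  · have a1 : -(1 / 2) ≤ R := by nlinarith
    have a2 : R ≤ 1 / 2 := by nlinarith
    have e1 : exp (-(b ^ 2 * (1 ^ 2 + 2 * R + 1 ^ 2)) / 2) ≤ exp (-b ^ 2 / 2) :=
      exp_le_exp.2 (by nlinarith)
    have e2 : exp (-(b ^ 2 * (1 ^ 2 - 2 * R + 1 ^ 2)) / 2) ≤ exp (-b ^ 2 / 2) :=
      exp_le_exp.2 (by nlinarith)
    nlinarith [sq_nonneg R]
  · have e1 : exp (-(b ^ 2 * (1 ^ 2 + 2 * R + 1 ^ 2)) / 2) ≤ 1 :=
      exp_le_one_iff.2 (by nlinarith [h1.1])
    have e2 : exp (-(b ^ 2 * (1 ^ 2 - 2 * R + 1 ^ 2)) / 2) ≤ 1 :=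
      exp_le_one_iff.2 (by nlinarith [h1.2])
    linarith [exp_pos (-b ^ 2 / 2)]

theorem l3bS : L3bStmt := by
  intro n σ hn ⟨hp, h1, h2, _⟩ b
  have hn0 : (0 : ℝ) < n := by exact_mod_cast hn
  have c1 : BC fun p : E n × E n => cos (b * ⟪p.1, p.2⟫) := BC.cos (by fun_prop)
  have c2 : BC fun p : E n × E n => cos (b * ⟪p.1, p.2⟫) ^ 2 := by
    simpa only [sq] using c1.mul c1
  refine ⟨BC.integ σ (F := fun g ξ : E n => cos (b * ⟪g, ξ⟫)) c1,
    BC.integ σ (F := fun g ξ : E n => cos (b * ⟪g, ξ⟫) ^ 2) c2, ?_, ?_⟩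
  · rw [integral_integral_swap (f := fun g ξ : E n => cos (b * ⟪g, ξ⟫) ^ 2) (c2.int _)]
    have c2' : BC fun p : E n × E n => cos (b * ⟪p.2, p.1⟫) ^ 2 := by
      have c : BC fun p : E n × E n => cos (b * ⟪p.2, p.1⟫) := BC.cos (by fun_prop)
      simpa only [sq] using c.mul c
    have c3 : BC fun ξ : E n => ∫ g, cos (b * ⟪g, ξ⟫) ^ 2 ∂gm n :=
      BC.integral (F := fun ξ g : E n => cos (b * ⟪g, ξ⟫) ^ 2) c2'
    refine le_trans (by simp) (integral_mono (integrable_const (1 / 2 : ℝ)) (c3.int σ) fun ξ => ?_)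
    simp only [sq]
    rw [int_cc, sub_self, smul_zero, norm_zero]
    have := exp_pos (-‖b • (ξ + ξ)‖ ^ 2 / 2)
    simp only [ne_eq, OfNat.ofNat_ne_zero, not_false_eq_true, zero_pow, neg_zero, zero_div,
      exp_zero]
    linarith
  · have c4 : BC fun q : E n × E n × E n => cos (b * ⟪q.1, q.2.1⟫) * cos (b * ⟪q.1, q.2.2⟫) :=
      (BC.cos (by fun_prop)).mul (BC.cos (by fun_prop))
    have c5 : BC fun p : E n × E n => ∫ g, cos (b * ⟪g, p.1⟫) * cos (b * ⟪g, p.2⟫) ∂gm n :=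
      BC.integral (F := fun (p : E n × E n) (g : E n) => cos (b * ⟪g, p.1⟫) * cos (b * ⟪g, p.2⟫))
        ((BC.cos (by fun_prop)).mul (BC.cos (by fun_prop)))
    have c6 : BC fun u : E n => ∫ v, ∫ g, cos (b * ⟪g, u⟫) * cos (b * ⟪g, v⟫) ∂gm n ∂σ :=
      BC.integ σ (F := fun u v : E n => ∫ g, cos (b * ⟪g, u⟫) * cos (b * ⟪g, v⟫) ∂gm n) c5
    have e : ∀ g : E n, (∫ ξ, cos (b * ⟪g, ξ⟫) ∂σ) ^ 2 =
        ∫ p, cos (b * ⟪g, p.1⟫) * cos (b * ⟪g, p.2⟫) ∂σ.prod σ := fun g => by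
      rw [sq, ← integral_prod_mul]
    simp only [e]
    rw [integral_integral_swap
      (f := fun (g : E n) (p : E n × E n) => cos (b * ⟪g, p.1⟫) * cos (b * ⟪g, p.2⟫)) (c4.int _),
      integral_prod _ (c5.int _)]
    refine (integral_mono_ae (c6.int σ)
      (integrable_const (exp (-b ^ 2 / 2) + 4 / n)) ?_).trans (by simp)
    filter_upwards [h1] with u hu
    have h3 : ∫ ξ, ⟪u, ξ⟫ ^ 2 ∂σ = 1 / n := by rw [h2, hu, one_pow]
    have h4 : Integrable (fun ξ => ⟪u, ξ⟫ ^ 2) σ :=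
      Integrable.of_integral_ne_zero (by rw [h3]; positivity)
    have c7 : BC fun v : E n => ∫ g, cos (b * ⟪g, u⟫) * cos (b * ⟪g, v⟫) ∂gm n :=
      BC.integral (F := fun v g : E n => cos (b * ⟪g, u⟫) * cos (b * ⟪g, v⟫))
        ((BC.cos (by fun_prop)).mul (BC.cos (by fun_prop)))
    refine (integral_mono_ae (c7.int σ)
      ((integrable_const (exp (-b ^ 2 / 2))).add (h4.const_mul 4)) ?_).trans ?_
    · filter_upwards [h1] with v hv
      exact int_cc_le b hu hv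
    · simp only [Pi.add_apply]
      rw [integral_add (integrable_const _) (h4.const_mul 4), integral_const_mul, h3]
      simp [div_eq_mul_inv]

end Pool.Agent.Lib.MP_8115c2_gt.Bu
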