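import Pool.Agent.Lib.MP_8115c2_gt.Bu.St

/-!
The second order inequality at the ball, assembled from its parts.
-/

open MeasureTheory Set Metric Real
open scoped RealInnerProductSpace

noncomputable section

namespace Pool.Agent.Lib.MP_8115c2_gt.Bu

variable {n : ℕ}

lemma l4_fv_le {b : ℝ} (hb : 0 ≤ b) (g u : E n) (hu : ‖u‖ = 1) :
    ‖fv b g u‖ ≤ (1 + b * ‖g‖) ^ 2 := by
  have h1 : |⟪g, u⟫| ≤ ‖g‖ := by simpa [hu] using abs_real_inner_le_norm g u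
  have h2 : |b * ⟪g, u⟫ * sin (b * ⟪g, u⟫)| ≤ b * ‖g‖ := by
    rw [abs_mul, abs_mul, abs_of_nonneg hb]
    calc b * |⟪g, u⟫| * |sin (b * ⟪g, u⟫)| ≤ b * ‖g‖ * 1 := by
          gcongr
          exact abs_sin_le_one _
      _ = _ := mul_one _
  have h3 : |b * sin (b * ⟪g, u⟫)| ≤ b := by
    rw [abs_mul, abs_of_nonneg hb]
    exact mul_le_of_le_one_right hb (abs_sin_le_one _)
  have h4 := (abs_add_le _ _).trans (add_le_add h2 (abs_cos_le_one (b * ⟪g, u⟫)))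
  have h5 := mul_le_mul_of_nonneg_right h3 (norm_nonneg g)
  unfold fv
  refine (norm_sub_le _ _).trans ?_
  rw [norm_smul, norm_smul, hu, mul_one, Real.norm_eq_abs, Real.norm_eq_abs]
  nlinarith [sq_nonneg (b * ‖g‖)]

lemma l4_arith {S q p a a2 C ε N m : ℝ} (hC : 0 ≤ C) (hε : 0 < ε) (hε1 : ε ≤ 1 / 8) (hN : 1 ≤ N)
    (hm : 1 ≤ m) (hS : |S| ≤ 1) (hq : |q| ≤ C * N ^ 2) (ha2 : a2 ≤ 1)
    (h1 : ε * N ≤ 1 → p ≤ 2 - ε ^ 2 * a2 + 2 * ε ^ 2 * a ^ 2 + 20 * ε ^ 3)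
    (h2 : |ε / m| * N ≤ 1 → |p - 2 * S - (ε / m) ^ 2 * q| ≤ C * (|ε / m| * N) ^ 3) :
    2 * S + (ε / m) ^ 2 * q ≤ 2 - ε ^ 2 * a2 + 2 * ε ^ 2 * a ^ 2 + ε ^ 3 * ((C + 20) * N ^ 3) := by
  have ht0 : 0 < ε / m := by positivity
  have ht : ε / m ≤ ε := div_le_self hε.le hm
  have hN3 : 1 ≤ N ^ 3 := one_le_pow₀ hN
  have he3 : 0 < ε ^ 3 := by positivity
  rw [abs_of_pos ht0] at h2
  have htN : ε / m * N ≤ ε * N := by gcongr
  rcases le_total (ε * N) 1 with h | h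
  · have h3 := (abs_le.1 (h2 (htN.trans h))).1
    have h4 : C * (ε / m * N) ^ 3 ≤ C * (ε * N) ^ 3 := by gcongr
    have h5 : 20 * ε ^ 3 ≤ 20 * ε ^ 3 * N ^ 3 := le_mul_of_one_le_right (by positivity) hN3
    have h6 : ε ^ 3 * ((C + 20) * N ^ 3) = C * (ε * N) ^ 3 + 20 * ε ^ 3 * N ^ 3 := by ring
    linarith [h1 h]
  · have h3 : (ε / m) ^ 2 * q ≤ ε ^ 2 * (C * N ^ 2) :=
      calc (ε / m) ^ 2 * q ≤ (ε / m) ^ 2 * (C * N ^ 2) := by
            gcongr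
            exact (le_abs_self q).trans hq
        _ ≤ _ := by gcongr
    have h4 : (ε * N) ^ 2 ≤ (ε * N) ^ 3 := pow_le_pow_right₀ h (by norm_num)
    have h5 : 1 ≤ (ε * N) ^ 3 := one_le_pow₀ h
    have h6 : ε ^ 3 * ((C + 20) * N ^ 3) = C * (ε * N) ^ 3 + 20 * (ε * N) ^ 3 := by ring
    have h7 : ε ^ 2 * (C * N ^ 2) = C * (ε * N) ^ 2 := by ring
    have h8 := mul_le_mul_of_nonneg_left h4 hC
    have h9 : ε ^ 2 * a2 ≤ 1 := by nlinarith [mul_le_mul_of_nonneg_left ha2 (sq_nonneg ε)]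
    have h10 : 0 ≤ 2 * ε ^ 2 * a ^ 2 := by positivity
    linarith [(abs_le.1 hS).2]

theorem l4S : L4Stmt := by
  intro hSp hL1 hL2 hL3a hL3b n X hn
  obtain ⟨σ, hσ⟩ := hSp n hn
  obtain ⟨C, hC, hL2⟩ := hL2 n
  have hn1 : (1 : ℝ) ≤ n := by exact_mod_cast hn
  set N : E n → ℝ := fun g => ((1 + √X) * (1 + ‖g‖)) ^ 2 with hN
  have hNpg : PG fun g => (C + 20) * N g ^ 3 :=
    (PG.const _).mul ((((PG.const _).mul ((PG.const 1).add PG.norm)).pow 2).pow 3)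
  refine ⟨∫ g, (C + 20) * N g ^ 3 ∂gm n, integral_nonneg fun g => by positivity, ?_⟩
  intro ι _ w U hU hCal η ε hε hε1 hη x hx
  obtain ⟨hS, hL2⟩ := hL2 ι w U hCal
  have hb : 0 ≤ √x := sqrt_nonneg x
  have hbX : √x ≤ √X := sqrt_le_sqrt hx.2
  have hbx : √x ^ 2 = x := sq_sqrt hx.1
  obtain ⟨hq, hqi⟩ := hL3a n ι w U hU √x
  obtain ⟨ha, ha2, ha2i, hai⟩ := hL3b n σ hn hσ √x
  rw [hbx] at hqi hai
  have hpt : ∀ g : E n, 2 * ∑ i, w i * D (U i) + (ε / n) ^ 2 * qq w U (fv √x g) ≤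
      2 - ε ^ 2 * ∫ ξ, cos (√x * ⟪g, ξ⟫) ^ 2 ∂σ + 2 * ε ^ 2 * (∫ ξ, cos (√x * ⟪g, ξ⟫) ∂σ) ^ 2 +
        ε ^ 3 * ((C + 20) * N g ^ 3) := fun g => by
    have hg := norm_nonneg g
    have hy : 0 ≤ √x * ‖g‖ := mul_nonneg hb hg
    have h0 : (1 + √x * ‖g‖) ^ 2 ≤ N g := by
      refine pow_le_pow_left₀ (by positivity) ?_ 2
      nlinarith [mul_le_mul_of_nonneg_right hbX hg, sqrt_nonneg X]
    have h1 : 1 ≤ N g := by nlinarith
    obtain ⟨hq1, hq2⟩ := hL2 (fv √x g) (N g) (by linarith)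
      fun u hu => (l4_fv_le hb g u hu).trans h0
    refine l4_arith hC hε hε1 h1 hn1 hS hq1 ?_ (fun h => hL1 n σ hn hσ ι w U hCal _ ε g hb hε hε1 ?_)
      (hq2 (ε / n))
    · have := hσ.1
      have := norm_integral_le_of_norm_le_const (μ := σ) (f := fun ξ => cos (√x * ⟪g, ξ⟫) ^ 2)
        (C := 1) (.of_forall fun ξ => by
          rw [Real.norm_eq_abs, abs_of_nonneg (sq_nonneg _)]
          exact cos_sq_le_one _)
      rw [probReal_univ, mul_one] at this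
      exact (le_abs_self _).trans this
    · refine le_trans (mul_le_mul_of_nonneg_left ?_ hε.le) (h.trans hn1)
      nlinarith
  have i1 := (PG.const ((ε / n) ^ 2)).mul hq
  have i2 := (PG.const (ε ^ 2)).mul ha2.pg
  have i3 := (PG.const (2 * ε ^ 2)).mul (ha.pg.pow 2)
  have i4 := (PG.const (ε ^ 3)).mul hNpg
  have h := integral_mono ((PG.const _).add i1).int
    ((((PG.const 2).sub i2).add i3).add i4).int hpt
  rw [integral_add (PG.const _).int i1.int,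
    integral_add (((PG.const 2).sub i2).add i3).int i4.int,
    integral_add ((PG.const 2).sub i2).int i3.int, integral_sub (PG.const 2).int i2.int,
    integral_const, integral_const, integral_const_mul, integral_const_mul, integral_const_mul,
    integral_const_mul, hqi, probReal_univ, one_smul, one_smul] at h
  have he : (ε / n) ^ 2 * ((n : ℝ) ^ 2 * Lm w U x) = ε ^ 2 * Lm w U x := by
    field_simp
  have he2 : 0 < ε ^ 2 := by positivity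
  have h2 := mul_le_mul_of_nonneg_left ha2i he2.le
  have h3 := mul_le_mul_of_nonneg_left hai (by positivity : 0 ≤ 2 * ε ^ 2)
  refine le_of_mul_le_mul_left ?_ he2
  have he3 : ε ^ 2 * (-1 / 2 + 2 * (exp (-x / 2) + 4 / n) + 2 * η / ε ^ 2 +
      (∫ g, (C + 20) * N g ^ 3 ∂gm n) * ε) = -(ε ^ 2 * (1 / 2)) +
        2 * ε ^ 2 * (exp (-x / 2) + 4 / n) + 2 * η + ε ^ 3 * ∫ g, (C + 20) * N g ^ 3 ∂gm n := by
    field_simp
  rw [he3]
  linarith

end Pool.Agent.Lib.MP_8115c2_gt.Bu
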