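import Pool.Agent.Lib.MP_8115c2_gt.Bu.St

/-! A maximum principle with an explicit barrier. -/

open Set Real Filter Topology
open scoped RealInnerProductSpace

noncomputable section

namespace Pool.Agent.Lib.MP_8115c2_gt.Bu

namespace O

theorem mp {h h₁ h₂ : ℝ → ℝ} {a b : ℝ} (ha : 1 ≤ a) (d₁ : ∀ x, 0 < x → HasDerivAt h (h₁ x) x)
    (d₂ : ∀ x, 0 < x → HasDerivAt h₁ (h₂ x) x)
    (hL : ∀ x ∈ Icc a b, x ^ 2 * h₂ x + (2 * x ^ 2 - x) * h₁ x + (1 - x) * h x < 0)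
    (e₁ : 0 ≤ h a) (e₂ : 0 ≤ h b) : ∀ x ∈ Icc a b, 0 ≤ h x := fun x hx => by
  obtain ⟨z, hz, m⟩ := isCompact_Icc.exists_isMinOn ⟨x, hx⟩ fun y (hy : y ∈ Icc a b) =>
    (d₁ y (by linarith [hy.1])).continuousAt.continuousWithinAt
  refine le_trans (not_lt.1 fun n => ?_) (m hx)
  have z0 : 0 < z := by linarith [hz.1]
  have l : IsLocalMin h z := m.isLocalMin (Icc_mem_nhds
    (hz.1.lt_of_ne fun e => n.not_ge (e ▸ e₁)) (hz.2.lt_of_ne fun e => n.not_ge (e ▸ e₂)))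
  have e : deriv h =ᶠ[𝓝 z] h₁ := (lt_mem_nhds z0).mono fun y hy => (d₁ y hy).deriv
  have k₁ : h₁ z = 0 := l.hasDerivAt_eq_zero (d₁ z z0)
  have k₂ : 0 ≤ h₂ z := not_lt.1 fun k => by
    have u := isLocalMax_of_deriv_deriv_neg (f := h) (x₀ := z)
      (by rwa [e.deriv_eq, (d₂ z z0).deriv]) l.deriv_eq_zero (d₁ z z0).continuousAt
    have c : h =ᶠ[𝓝 z] fun _ => h z := (u.and l).mono fun y hy => le_antisymm hy.1 hy.2
    have c' := (e.symm.trans c.deriv).deriv_eq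
    rw [(d₂ z z0).deriv] at c'
    simp [c'] at k
  have := hL z hz
  rw [k₁] at this
  nlinarith [mul_nonneg (sq_nonneg z) k₂, mul_nonneg (sub_nonneg.2 (ha.trans hz.1)) (neg_pos.2 n).le]

/-- The first derivative of `kk`. -/
def k1 (x R : ℝ) : ℝ := exp (-x) * (R * sinh (x * R) - cosh (x * R))

/-- The second derivative of `kk`. -/
def k2 (x R : ℝ) : ℝ := exp (-x) * ((R ^ 2 + 1) * cosh (x * R) - 2 * R * sinh (x * R))

theorem dk1 (R x : ℝ) : HasDerivAt (fun x => kk x R) (k1 x R) x :=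
  ((hasDerivAt_neg x).exp.mul ((hasDerivAt_mul_const R).cosh)).congr_deriv (by rw [k1]; ring)

theorem dk2 (R x : ℝ) : HasDerivAt (fun x => k1 x R) (k2 x R) x :=
  ((hasDerivAt_neg x).exp.mul ((((hasDerivAt_mul_const R).sinh).const_mul R).sub
    (hasDerivAt_mul_const R).cosh)).congr_deriv (by simp only [k2, Pi.sub_apply]; ring)

variable {n : ℕ} {ι : Type} [Fintype ι] (w : ι → ℝ) (U : ι → Fin n → E n)

/-- The pair function of a kernel. -/
def sk (k : ℝ → ℝ → ℝ) (x : ℝ) : ℝ :=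
  (∑ i, w i * D (U i) * ∑ j, ∑ j' ∈ Finset.univ.erase j, k x ⟪U i j, U i j'⟫) / n ^ 2

theorem dsk {k k' : ℝ → ℝ → ℝ} (h : ∀ R x, HasDerivAt (fun x => k x R) (k' x R) x) (x : ℝ) :
    HasDerivAt (sk w U k) (sk w U k' x) x :=
  (HasDerivAt.fun_sum fun _ _ => (HasDerivAt.fun_sum fun _ _ =>
    HasDerivAt.fun_sum fun _ _ => h _ x).const_mul _).div_const _

theorem lm (x : ℝ) : x ^ 2 * sk w U k2 x + (2 * x ^ 2 - x) * sk w U k1 x + (1 - x) * mm w U x =
    Lm w U x := by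
  simp only [sk, mm, Lm, ← mul_div_assoc, ← add_div, Finset.mul_sum, ← Finset.sum_add_distrib]
  refine congrArg (· / _) (Finset.sum_congr rfl fun i _ => Finset.sum_congr rfl fun j _ =>
    Finset.sum_congr rfl fun j' _ => ?_)
  rw [k1, k2, kk, Lk]
  ring

end O

open O

theorem oS : OStmt := by
  intro n ι _ w U C X₀ X₁ hC h0 hL hm x hx
  have h1 : X₀ ≤ X₁ := hx.1.trans hx.2
  have s1 : 1 ≤ √X₁ := one_le_sqrt.2 (h0.trans h1)
  have de : ∀ y, HasDerivAt (fun y => (C + 1) * exp (-(y - X₀))) (-((C + 1) * exp (-(y - X₀)))) y :=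
    fun y => ((((hasDerivAt_id y).sub_const X₀).neg.exp).const_mul _).congr_deriv (by simp)
  refine sub_nonneg.1 (mp (h := fun y => mm w U y -
      (1 / (12 * y) - (C + 1) / √X₁ - (C + 1) * exp (-(y - X₀))))
    (h₁ := fun y => sk w U k1 y - (-(1 / (12 * y ^ 2)) + (C + 1) * exp (-(y - X₀))))
    (h₂ := fun y => sk w U k2 y - (1 / (6 * y ^ 3) - (C + 1) * exp (-(y - X₀)))) h0
    (fun y hy => (dsk w U dk1 y).sub ?_) (fun y hy => (dsk w U dk2 y).sub ?_) (fun y hy => ?_)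
    ?_ ?_ x hx)
  · refine (((((hasDerivAt_const y 1).div ((hasDerivAt_id y).const_mul 12)
      (by positivity)).sub_const _).sub (de y)).congr_deriv ?_)
    simp only [id]
    field_simp
    ring
  · refine ((((hasDerivAt_const y 1).div ((hasDerivAt_pow 2 y).const_mul 12)
      (by positivity)).neg.add (de y)).congr_deriv ?_)
    norm_num
    field_simp
    ring
  · have y1 := h0.trans hy.1
    have a1 := hL y hy
    rw [← lm] at a1
    have a2 : 0 ≤ (C + 1) / √X₁ * (y - 1) := mul_nonneg (by positivity) (by linarith)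
    have a3 : 0 ≤ (C + 1) * exp (-(y - X₀)) * (y ^ 2 - 1) :=
      mul_nonneg (by positivity) (by nlinarith)
    have a4 : y ^ 2 * (1 / (6 * y ^ 3)) + (2 * y ^ 2 - y) * -(1 / (12 * y ^ 2)) +
        (1 - y) * (1 / (12 * y)) = -1 / 4 + 1 / (3 * y) := by
      field_simp
      ring
    have a5 : 0 < 1 / (3 * y) := by positivity
    linarith
  · have a1 := hm X₀ ⟨le_rfl, h1⟩
    have a2 := mul_le_mul_of_nonneg_right (one_le_sqrt.2 h0) (abs_nonneg (mm w U X₀))
    have a3 := neg_abs_le (mm w U X₀)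
    have a4 : 1 / (12 * X₀) ≤ 1 := (div_le_one (by positivity)).2 (by linarith)
    have a5 : 0 ≤ (C + 1) / √X₁ := by positivity
    simp only [sub_self, neg_zero, exp_zero]
    linarith
  · have a1 : |mm w U X₁| ≤ C / √X₁ :=
      (le_div_iff₀' (by positivity)).2 (hm X₁ ⟨h1, le_rfl⟩)
    have a2 := neg_abs_le (mm w U X₁)
    have a3 : 1 / (12 * X₁) ≤ 1 / √X₁ := one_div_le_one_div_of_le (by positivity) (by
      nlinarith [sq_sqrt (show 0 ≤ X₁ by linarith)])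
    have a4 : 0 ≤ (C + 1) * exp (-(X₁ - X₀)) := by positivity
    simp only [add_div]
    linarith

end Pool.Agent.Lib.MP_8115c2_gt.Bu
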