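import Pool.Agent.Lib.MP_8115c2_gt.Bu.St

/-!
The uniform measure on the sphere, star shaped sets, and the intersection of a ball with slabs.
-/

open MeasureTheory Set Metric Real
open scoped RealInnerProductSpace

noncomputable section

namespace Pool.Agent.Lib.MP_8115c2_gt.Bu

namespace Sp

variable {n : ℕ}

lemma om_pos (n : ℕ) : 0 < om n :=
  ENNReal.toReal_pos (measure_ball_pos _ _ one_pos).ne' measure_ball_lt_top.ne

lemma nt (hn : 1 ≤ n) : Nontrivial (E n) :=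
  Module.nontrivial_of_finrank_pos (R := ℝ) (by rw [finrank_euclideanSpace_fin]; omega)

lemma star (hn : 1 ≤ n) {ρ : E n → ℝ} (hc : Continuous ρ) (h0 : ∀ ξ, 0 < ρ ξ) :
    volume {ξ : E n | ‖ξ‖ < ρ (‖ξ‖⁻¹ • ξ)} =
      ∫⁻ u, ENNReal.ofReal (ρ u.1 ^ n / n) ∂(volume : Measure (E n)).toSphere := by
  have := nt hn
  have hS : MeasurableSet {p : sphere (0 : E n) 1 × Ioi (0 : ℝ) | p.2.1 < ρ p.1.1} :=
    (isOpen_lt (by fun_prop) (by fun_prop)).measurableSet
  have h1 := (volume : Measure (E n)).measurePreserving_homeomorphUnitSphereProd.measure_preimage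
    hS.nullMeasurableSet
  have h2 : homeomorphUnitSphereProd (E n) ⁻¹'
      {p : sphere (0 : E n) 1 × Ioi (0 : ℝ) | p.2.1 < ρ p.1.1} =
      Subtype.val ⁻¹' {ξ : E n | ‖ξ‖ < ρ (‖ξ‖⁻¹ • ξ)} := by
    ext x
    simp
  rw [h2, comap_subtype_coe_apply (measurableSet_singleton _).compl, Subtype.image_preimage_coe,
    inter_comm, ← Set.sdiff_eq, measure_sdiff_null (measure_singleton _), Measure.prod_apply hS] at h1
  rw [h1]
  refine lintegral_congr fun u => ?_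
  have h3 : Prod.mk u ⁻¹' {p : sphere (0 : E n) 1 × Ioi (0 : ℝ) | p.2.1 < ρ p.1.1} =
      Iio ⟨ρ u.1, h0 _⟩ := rfl
  rw [h3, Measure.volumeIoiPow_apply_Iio, finrank_euclideanSpace_fin, Nat.sub_add_cancel hn,
    Nat.cast_pred hn, sub_add_cancel]

/-- The uniform measure on the sphere. -/
def sg (n : ℕ) : Measure (E n) :=
  (((volume : Measure (E n)).toSphere univ)⁻¹ • (volume : Measure (E n)).toSphere).map Subtype.val

lemma prob (hn : 1 ≤ n) : IsProbabilityMeasure (sg n) := by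
  have := nt hn
  have : NeZero (volume : Measure (E n)).toSphere := ⟨Measure.toSphere_ne_zero _⟩
  exact Measure.isProbabilityMeasure_map measurable_subtype_coe.aemeasurable

lemma ae_one : ∀ᵐ ξ ∂sg n, ‖ξ‖ = 1 :=
  (ae_map_iff measurable_subtype_coe.aemeasurable
    (isClosed_eq continuous_norm continuous_const).measurableSet).2
    (.of_forall fun u => norm_eq_of_mem_sphere u)

lemma star_real (hn : 1 ≤ n) (ρ : E n → ℝ) (hc : Continuous ρ) (h0 : ∀ ξ, 0 < ρ ξ) :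
    volume.real {ξ : E n | ‖ξ‖ < ρ (‖ξ‖⁻¹ • ξ)} = om n * ∫ ξ, ρ ξ ^ n ∂sg n := by
  have n0 : (0 : ℝ) < n := by exact_mod_cast hn
  have o := om_pos n
  rw [measureReal_def, star hn hc h0, ← integral_eq_lintegral_of_nonneg_ae
    (.of_forall fun u => div_nonneg (pow_nonneg (h0 _).le _) n0.le)
    (Continuous.aestronglyMeasurable (by fun_prop)), sg,
    integral_map measurable_subtype_coe.aemeasurable (Continuous.aestronglyMeasurable (by fun_prop)),
    integral_smul_measure, ENNReal.toReal_inv, ← measureReal_def,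
    Measure.toSphere_real_apply_univ, finrank_euclideanSpace_fin, integral_div, smul_eq_mul]
  change _ = om n * ((n * om n)⁻¹ * _)
  field_simp

lemma intg {σ : Measure (E n)} [IsProbabilityMeasure σ] (h : ∀ᵐ ξ ∂σ, ‖ξ‖ = 1) {f : E n → ℝ}
    (hf : Continuous f) : Integrable f σ := by
  have e : σ.restrict (sphere 0 1) = σ :=
    Measure.restrict_eq_self_of_ae_mem (h.mono fun ξ k => mem_sphere_zero_iff_norm.2 k)
  rw [← e]
  exact hf.continuousOn.integrableOn_compact (isCompact_sphere 0 1)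

lemma inv (hn : 1 ≤ n) {v w : E n} (h : ‖v‖ = ‖w‖) :
    ∫ ξ, ⟪v, ξ⟫ ^ 2 ∂sg n = ∫ ξ, ⟪w, ξ⟫ ^ 2 ∂sg n := by
  have := prob hn
  have key : ∀ a : E n, volume.real {ξ : E n | ‖ξ‖ < (1 + ⟪a, ‖ξ‖⁻¹ • ξ⟫ ^ 2) ^ (n : ℝ)⁻¹} =
      om n * (1 + ∫ ξ, ⟪a, ξ⟫ ^ 2 ∂sg n) := fun a => by
    have k := star_real hn (fun ξ => (1 + ⟪a, ξ⟫ ^ 2) ^ (n : ℝ)⁻¹)
      (Continuous.rpow_const (by fun_prop) fun _ => Or.inr (by positivity)) fun ξ => by positivity
    have e : ∀ ξ : E n, ((1 + ⟪a, ξ⟫ ^ 2) ^ (n : ℝ)⁻¹) ^ n = 1 + ⟪a, ξ⟫ ^ 2 := fun ξ =>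
      rpow_inv_natCast_pow (by positivity) (by omega)
    simp only [e] at k
    rw [k, integral_add (integrable_const _) (intg ae_one (by fun_prop))]
    simp
  set f := (ℝ ∙ (v - w))ᗮ.reflection
  have e : f v = w := Submodule.reflection_sub h
  have k := f.measurePreserving.measureReal_preimage
    (s := {ξ : E n | ‖ξ‖ < (1 + ⟪w, ‖ξ‖⁻¹ • ξ⟫ ^ 2) ^ (n : ℝ)⁻¹})
    (measurableSet_lt (by fun_prop) (by fun_prop)).nullMeasurableSet
  have e2 : f ⁻¹' {ξ : E n | ‖ξ‖ < (1 + ⟪w, ‖ξ‖⁻¹ • ξ⟫ ^ 2) ^ (n : ℝ)⁻¹} =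
      {ξ : E n | ‖ξ‖ < (1 + ⟪v, ‖ξ‖⁻¹ • ξ⟫ ^ 2) ^ (n : ℝ)⁻¹} := by
    ext ξ
    simp only [mem_preimage, mem_ofPred_eq]
    rw [← e, f.norm_map, ← f.map_smul, f.inner_map_map]
  rw [e2, key, key] at k
  have := mul_left_cancel₀ (om_pos n).ne' k
  linarith

lemma mom (hn : 1 ≤ n) (v : E n) : ∫ ξ, ⟪v, ξ⟫ ^ 2 ∂sg n = ‖v‖ ^ 2 / n := by
  have := prob hn
  have n0 : (0 : ℝ) < n := by exact_mod_cast hn
  have h1 : ∀ i : Fin n, ∫ ξ, ⟪v, ξ⟫ ^ 2 ∂sg n =
      ∫ ξ, ⟪EuclideanSpace.single i ‖v‖, ξ⟫ ^ 2 ∂sg n := fun i => inv hn (by simp)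
  have h2 : ∑ i : Fin n, ∫ ξ, ⟪EuclideanSpace.single i ‖v‖, ξ⟫ ^ 2 ∂sg n = ‖v‖ ^ 2 := by
    rw [← integral_finsetSum _ fun i _ => intg ae_one (by fun_prop),
      integral_congr_ae (g := fun _ => ‖v‖ ^ 2) ((ae_one (n := n)).mono fun ξ k => ?_)]
    · simp
    · have e := EuclideanSpace.real_norm_sq_eq ξ
      rw [k, one_pow] at e
      simp only [EuclideanSpace.inner_single_left, conj_trivial, mul_pow]
      rw [← Finset.mul_sum, ← e, mul_one]
  simp only [← h1, Finset.sum_const, Finset.card_univ, Fintype.card_fin, nsmul_eq_mul] at h2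
  rw [← h2]
  field_simp

/-- The sum of the normalised squares. -/
def tt (G : List (E n)) (u : E n) : ℝ := (G.map fun g => ⟪g, u⟫ ^ 2 / (3 / √n * ‖g‖) ^ 2).sum

lemma tt_cont (G : List (E n)) : Continuous (tt G) := by
  induction G with
  | nil => exact continuous_const
  | cons g G ih =>
    have e : tt (g :: G) = fun u => ⟪g, u⟫ ^ 2 / (3 / √n * ‖g‖) ^ 2 + tt G u := rfl
    rw [e]
    fun_prop

lemma tt_nonneg (G : List (E n)) (u : E n) : 0 ≤ tt G u :=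
  List.sum_nonneg fun x hx => by
    obtain ⟨g, -, rfl⟩ := List.mem_map.1 hx
    positivity

lemma le_tt {G : List (E n)} {g : E n} (hg : g ∈ G) (u : E n) :
    ⟪g, u⟫ ^ 2 / (3 / √n * ‖g‖) ^ 2 ≤ tt G u :=
  List.single_le_sum (fun x hx => by
    obtain ⟨g, -, rfl⟩ := List.mem_map.1 hx
    positivity) _ (List.mem_map.2 ⟨g, hg, rfl⟩)

lemma int_tt (hn : 1 ≤ n) (G : List (E n)) : ∫ u, tt G u ∂sg n ≤ G.length / 9 := by
  have := prob hn
  have n0 : (0 : ℝ) < n := by exact_mod_cast hn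
  induction G with
  | nil => simp [tt]
  | cons g G ih =>
    have e : tt (g :: G) = fun u => ⟪g, u⟫ ^ 2 / (3 / √n * ‖g‖) ^ 2 + tt G u := rfl
    have k : ‖g‖ ^ 2 / n / (3 / √n * ‖g‖) ^ 2 ≤ 1 / 9 := by
      rcases eq_or_ne ‖g‖ 0 with z | z
      · simp [z]
      · rw [mul_pow, div_pow, sq_sqrt n0.le]
        refine le_of_eq ?_
        field_simp
        norm_num
    rw [e, integral_add (intg ae_one (by fun_prop)) (intg ae_one (tt_cont G)), integral_div,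
      mom hn, List.length_cons]
    push_cast
    linarith

end Sp

open Sp

theorem spS : SpStmt := fun n hn => ⟨sg n, prob hn, ae_one, mom hn, star_real hn⟩

theorem slabS : SlabStmt := by
  intro n hn G hG
  have := prob hn
  have n0 : (0 : ℝ) < n := by exact_mod_cast hn
  have m1 : ∀ u, 1 ≤ max 1 (tt G u) := fun u => le_max_left _ _
  have m0 : ∀ u, 0 < max 1 (tt G u) := fun u => one_pos.trans_le (m1 u)
  have c : Continuous fun u => (max 1 (tt G u))⁻¹ :=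
    (continuous_const.max (tt_cont G)).inv₀ fun u => (m0 u).ne'
  have k := star_real hn _ c fun u => inv_pos.2 (m0 u)
  have k1 : ∫ u, (1 - tt G u) ∂sg n ≤ ∫ u, (max 1 (tt G u))⁻¹ ^ n ∂sg n :=
    integral_mono (intg ae_one (continuous_const.sub (tt_cont G))) (intg ae_one (c.pow n))
      fun u => by
        rcases le_total (tt G u) 1 with h | h
        · simp only [max_eq_left h, inv_one, one_pow]
          linarith [tt_nonneg G u]
        · exact (sub_nonpos.2 h).trans (pow_nonneg (inv_pos.2 (m0 u)).le _)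
  rw [integral_sub (integrable_const _) (intg ae_one (tt_cont G))] at k1
  have k2 := int_tt hn G
  have k3 : (G.length : ℝ) ≤ 4 := by exact_mod_cast hG
  have k4 : volume.real {ξ : E n | ‖ξ‖ < (max 1 (tt G (‖ξ‖⁻¹ • ξ)))⁻¹} ≤
      volume.real {ξ : E n | ‖ξ‖ ≤ 1 ∧ ∀ g ∈ G, |⟪g, ξ⟫| ≤ 3 / √n * ‖g‖} := by
    refine measureReal_mono (fun ξ hξ => ?_) (ne_top_of_le_ne_top
      (measure_closedBall_lt_top (x := (0 : E n)) (r := 1)).ne
      (measure_mono fun ξ hξ => mem_closedBall_zero_iff.2 hξ.1))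
    have a0 : ‖ξ‖ * max 1 (tt G (‖ξ‖⁻¹ • ξ)) < 1 := (lt_inv_mul_iff₀' (m0 _)).1 (by simpa using hξ)
    have a1 : ‖ξ‖ ≤ 1 := by nlinarith [m1 (‖ξ‖⁻¹ • ξ), norm_nonneg ξ]
    refine ⟨a1, fun g hg => ?_⟩
    rcases eq_or_ne ξ 0 with rfl | z
    · rw [inner_zero_right, abs_zero]
      positivity
    rcases eq_or_ne g 0 with rfl | z'
    · simp
    have x0 : 0 < ‖ξ‖ := norm_pos_iff.2 z
    have g0 : 0 < 3 / √n * ‖g‖ := by
      have := norm_pos_iff.2 z'
      positivity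
    have a2 := (le_tt hg (‖ξ‖⁻¹ • ξ)).trans (le_max_right 1 _)
    rw [div_le_iff₀ (by positivity), real_inner_smul_right, mul_pow, inv_pow,
      inv_mul_le_iff₀ (by positivity)] at a2
    refine abs_le_of_sq_le_sq (a2.trans ?_) g0.le
    rw [← mul_assoc]
    refine mul_le_of_le_one_left (by positivity) ?_
    nlinarith [m0 (‖ξ‖⁻¹ • ξ)]
  rw [k] at k4
  simp only [integral_const, probReal_univ, smul_eq_mul, mul_one] at k1
  nlinarith [om_pos n]

end Pool.Agent.Lib.MP_8115c2_gt.Bu
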