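import Pool.Agent.Lib.MP_8115c2_gt.Bu.Amp
import Pool.Agent.Lib.MP_8115c2_gt.Bu.Sp
import Pool.Agent.Lib.MP_8115c2_gt.Bu.L1
import Pool.Agent.Lib.MP_8115c2_gt.Bu.L2
import Pool.Agent.Lib.MP_8115c2_gt.Bu.L3a
import Pool.Agent.Lib.MP_8115c2_gt.Bu.L3b
import Pool.Agent.Lib.MP_8115c2_gt.Bu.L4
import Pool.Agent.Lib.MP_8115c2_gt.Bu.O
import Pool.Agent.Lib.MP_8115c2_gt.Bu.H
import Pool.Agent.Lib.MP_8115c2_gt.Bu.Ha

/-!
No calibration of the Euclidean ball in large dimension.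
-/

open MeasureTheory Set Metric Real Function Filter Topology
open scoped RealInnerProductSpace

noncomputable section

namespace Pool.Agent.Lib.MP_8115c2_gt.Bu

variable {n : ℕ}

lemma AA_one {ι : Type} [Fintype ι] (w : ι → ℝ) (U : ι → Fin n → E n) (hn : 1 ≤ n) (x : ℝ) :
    AA w U 1 x = (1 - 1 / n) ^ (n - 2) * (n ^ 2 * mm w U x) := by
  have h0 : (0 : ℝ) < n := by exact_mod_cast hn
  rw [mm, mul_div_cancel₀ _ (by positivity), AA, Finset.mul_sum]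
  refine Finset.sum_congr rfl fun i _ => ?_
  rw [mul_left_comm, KK]
  congr 1
  rw [Finset.mul_sum]
  refine Finset.sum_congr rfl fun j _ => ?_
  rw [Finset.mul_sum]
  refine Finset.sum_congr rfl fun j' hj' => ?_
  simp only [Pi.one_apply, Finset.prod_const, Finset.card_erase_of_mem hj',
    Finset.card_erase_of_mem (Finset.mem_univ j), Finset.card_univ, Fintype.card_fin, mul_one]
  rw [mul_comm, Nat.sub_sub]

lemma kappa (hn : 2 ≤ n) : (1 / 3 : ℝ) ≤ (1 - 1 / n) ^ (n - 2) := by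
  obtain ⟨k, rfl⟩ := Nat.exists_eq_add_of_le' hn
  have h0 : (0 : ℝ) < k + 1 := by positivity
  have h1 : exp (-(1 / (k + 1))) ≤ 1 - 1 / ((k + 2 : ℕ) : ℝ) := by
    rw [exp_neg]
    refine (inv_anti₀ (by positivity) (add_one_le_exp _)).trans_eq ?_
    push_cast
    field_simp
    ring
  have h2 : exp (-1) ≤ exp (-(1 / (k + 1))) ^ k := by
    rw [← exp_nat_mul, exp_le_exp, mul_neg, neg_le_neg_iff, mul_one_div, div_le_one h0]
    linarith
  have h3 : (1 / 3 : ℝ) ≤ exp (-1) := by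
    rw [exp_neg, one_div]
    exact inv_anti₀ (exp_pos _) (by linarith [exp_one_lt_d9])
  rw [Nat.add_sub_cancel]
  exact h3.trans (h2.trans (pow_le_pow_left₀ (exp_pos _).le h1 _))

lemma ex_r : ∃ r : ℕ, 1 ≤ r ∧ (r : ℝ) ^ 7 * (8 / 9) ^ r ≤ 1 / 10 ^ 16 ∧ 1 / (r : ℝ) ≤ 1 / 10 ^ 16 := by
  have h1 := (tendsto_pow_const_mul_const_pow_of_abs_lt_one 7 (r := 8 / 9)
    (by rw [abs_of_pos] <;> norm_num)).eventually (ge_mem_nhds (show (0 : ℝ) < 1 / 10 ^ 16 by norm_num))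
  have h2 := tendsto_one_div_atTop_nhds_zero_nat.eventually
    (ge_mem_nhds (show (0 : ℝ) < 1 / 10 ^ 16 by norm_num))
  exact ((eventually_ge_atTop 1).and (h1.and h2)).exists

lemma exp_le_q {r : ℕ} {y : ℝ} (h : (r : ℝ) ≤ y) : exp (-y / 2) ≤ (8 / 9) ^ r := by
  have h1 : exp (-1 / 2 : ℝ) ≤ 8 / 9 := by
    rw [neg_div, exp_neg]
    refine (inv_anti₀ (by norm_num) (add_one_le_exp _)).trans (by norm_num)
  refine le_trans ?_ (pow_le_pow_left₀ (exp_pos _).le h1 r)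
  rw [← exp_nat_mul, exp_le_exp]
  linarith

lemma last_num {r q n e e' : ℝ} (hr : 1 ≤ r) (hq : 0 ≤ q) (hn : 0 < n) (h1 : r ^ 7 * q ≤ 1 / 10 ^ 16)
    (h2 : 1 / r ≤ 1 / 10 ^ 16) (he : e ≤ q) (he' : e' ≤ q) :
    4 * 240 ^ 4 * n ^ 2 * (q + 16 * ((q + 8 * (2 / r ^ 2 + 1 / (4 * r ^ 2) + 2 * e)) / (r ^ 3) ^ 2 +
      e')) < 1 / 3 * (n ^ 2 * (1 / (24 * ((r + 3) * (r ^ 3) ^ 2)))) := by
  have h3 : r * q ≤ r ^ 7 * q := by
    gcongr
    exact le_self_pow₀ hr (by norm_num)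
  have h4 : 4 * 240 ^ 4 * n ^ 2 * (q + 16 * ((q + 8 * (2 / r ^ 2 + 1 / (4 * r ^ 2) + 2 * q)) /
      (r ^ 3) ^ 2 + q)) = 4 * 240 ^ 4 * (17 * (r ^ 7 * q) + 272 * (r * q) + 288 * (1 / r)) *
        (n ^ 2 / r ^ 7) := by
    field_simp
    ring
  have h5 : 1 / 288 * (n ^ 2 / r ^ 7) ≤ 1 / 3 * (n ^ 2 * (1 / (24 * ((r + 3) * (r ^ 3) ^ 2)))) := by
    have : 1 / 288 * (n ^ 2 / r ^ 7) = 1 / 3 * (n ^ 2 * (1 / (24 * ((4 * r) * (r ^ 3) ^ 2)))) := by
      field_simp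
      ring
    rw [this]
    gcongr
    linarith
  refine lt_of_le_of_lt (by gcongr) (h4.trans_lt (lt_of_lt_of_le ?_ h5))
  exact mul_lt_mul_of_pos_right (by linarith) (by positivity)

theorem aS : AStmt := by
  obtain ⟨r, hr, h1, h2⟩ := ex_r
  have r1 : (1 : ℝ) ≤ r := by exact_mod_cast hr
  obtain ⟨X, hX⟩ : ∃ X : ℝ, X = ((r : ℝ) ^ 3) ^ 2 := ⟨_, rfl⟩
  obtain ⟨C₁, hC₁⟩ : ∃ C : ℝ, C = 3 * (4 * 240 ^ 4) := ⟨_, rfl⟩
  have X1 : 1 ≤ X := hX ▸ one_le_pow₀ (one_le_pow₀ r1)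
  have rX : (r : ℝ) ≤ X := by
    rw [hX, ← pow_mul]
    exact le_self_pow₀ r1 (by norm_num)
  have q1 : (8 / 9 : ℝ) ^ r ≤ 1 / 10 ^ 16 :=
    (le_mul_of_one_le_left (by positivity) (one_le_pow₀ r1)).trans h1
  refine ⟨max 128 ⌈2 * ((3 / 2 : ℝ) ^ r) ^ 2⌉₊, fun n hn => ?_⟩
  have n1 : 128 ≤ n := le_of_max_le_left hn
  have n2 : (128 : ℝ) ≤ n := by exact_mod_cast n1
  obtain ⟨C, hC0, hL⟩ := l4S spS l1S l2S l3aS l3bS n ((48 * (C₁ + 1) * ((r + 3) * X)) ^ 2) (by omega)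
  obtain ⟨ε, e0, e1, e2⟩ : ∃ ε : ℝ, 0 < ε ∧ ε ≤ 1 / 8 ∧ C * ε ≤ 1 / 16 :=
    ⟨1 / (16 * (C + 1)), by positivity, one_div_le_one_div_of_le (by norm_num) (by linarith), by
      rw [mul_one_div, div_le_div_iff₀ (by positivity) (by norm_num)]
      linarith⟩
  refine ⟨ε ^ 2 / 32, by positivity, fun ι _ w U hU hC => not_lt.1 fun hlt => ?_⟩
  have k := kappa (n := n) (by omega)
  have hO := oS n ι w U C₁ X _ (by rw [hC₁]; norm_num) X1 (fun x hx => by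
    have h3 := hL ι w U hU hC _ ε e0 e1 hlt.le x ⟨by linarith [hx.1], hx.2⟩
    have h4 := exp_le_q (rX.trans hx.1)
    have h5 : 4 / (n : ℝ) ≤ 4 / 128 := by gcongr
    have h6 : 2 * (ε ^ 2 / 32) / ε ^ 2 = 1 / 16 := by field_simp; norm_num
    linarith) fun x hx => by
    have h3 := A_bd slabS (by omega) hC hU (θ := 1) (fun u => ⟨zero_le_one, by
      simp only [Pi.one_apply]; linarith⟩) (x := x) (by linarith [hx.1])
    rw [AA_one w U (by omega), abs_mul, abs_mul, abs_of_nonneg (by linarith),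
      abs_of_nonneg (by positivity)] at h3
    have h4 := mul_le_mul_of_nonneg_right k
      (show (0 : ℝ) ≤ n ^ 2 * (√x * |mm w U x|) by positivity)
    refine le_of_mul_le_mul_left ?_ (show (0 : ℝ) < n ^ 2 by positivity)
    rw [hC₁]
    linarith
  have C1 : 0 < C₁ + 1 := by rw [hC₁]; norm_num
  have hA := amp slabS (by omega) hC hU (Θ := (3 / 2) ^ r) (b := r ^ 3) (β := r ^ 2) (M := r ^ 2)
    (one_le_pow₀ (by norm_num)) (Nat.ceil_le.1 (le_of_max_le_right hn)) (Nat.one_le_pow _ _ hr)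
    (one_le_pow₀ r1) (by push_cast; ring) (by positivity) le_rfl
    (μ := 1 / 3 * (n ^ 2 * (1 / (24 * ((r + 3) * X))))) fun x hx => by
      rw [← hX] at hx
      have p1 : 1 ≤ (r + 3) * X := by nlinarith
      have p2 : (r + 3) * X ≤ 48 * (C₁ + 1) * ((r + 3) * X) :=
        le_mul_of_one_le_left (by linarith) (by rw [hC₁]; norm_num)
      have h3 := hO x ⟨by linarith [hx.1],
        hx.2.trans (p2.trans (le_self_pow₀ (p1.trans p2) two_ne_zero))⟩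
      rw [sqrt_sq (by positivity)] at h3
      have h4 : 1 / (12 * ((r + 3) * X)) ≤ 1 / (12 * x) := by
        gcongr
        · linarith [hx.1]
        · exact hx.2
      have h5 : exp (-(x - X)) ≤ (8 / 9) ^ r :=
        (exp_le_exp.2 (by linarith [hx.1])).trans (exp_le_q rX)
      have h6 : (C₁ + 1) * (8 / 9) ^ r ≤ 1 / (48 * ((r + 3) * X)) := by
        rw [le_div_iff₀ (by positivity)]
        calc _ ≤ (C₁ + 1) * (8 / 9) ^ r * (48 * ((4 * r) * X)) := by gcongr; linarith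
          _ = 192 * (C₁ + 1) * (r ^ 7 * (8 / 9) ^ r) := by rw [hX]; ring
          _ ≤ 1 := by rw [hC₁]; linarith
      have h7 : (C₁ + 1) / (48 * (C₁ + 1) * ((r + 3) * X)) = 1 / (48 * ((r + 3) * X)) := by
        field_simp
      have h8 : 1 / (24 * ((r + 3) * X)) = 1 / (12 * ((r + 3) * X)) - 1 / (48 * ((r + 3) * X)) -
          1 / (48 * ((r + 3) * X)) := by
        field_simp
        norm_num
      have h9 : 1 / (24 * ((r + 3) * X)) ≤ mm w U x := by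
        linarith [mul_le_mul_of_nonneg_left h5 C1.le]
      rw [AA_one w U (by omega)]
      gcongr
  have h3 := last_num r1 (by positivity) (show (0 : ℝ) < n by linarith) h1 h2
    (exp_le_q (y := ((r : ℝ) ^ 2) ^ 2) (by rw [← pow_mul]; exact le_self_pow₀ r1 (by norm_num)))
    (exp_le_q (hX ▸ rX))
  rw [hX] at hA
  push_cast at hA
  linarith

theorem bS : BStmt := hS aS

end Pool.Agent.Lib.MP_8115c2_gt.Bu
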