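import Pool.Agent.Lib.MP_8115c2_gt.Bu.I

/-!
Two levels of amplification by Riesz products.
-/

open MeasureTheory Set Metric Real Function
open scoped RealInnerProductSpace

noncomputable section

namespace Pool.Agent.Lib.MP_8115c2_gt.Bu

variable {n : ℕ}

lemma sum_wt (i : ℕ) : ∑ j ∈ Finset.range (i + 1), (i.choose j : ℝ) * (1 / 8) ^ j = (9 / 8) ^ i := by
  rw [show (9 / 8 : ℝ) = 1 / 8 + 1 by norm_num, add_pow]
  exact Finset.sum_congr rfl fun j _ => by rw [one_pow]; ring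

lemma grow {S : Type} {P : ℕ → S → Prop} {a : S → ℕ → ℝ} {nx : S → E n → S} {B δ : ℝ} (hδ : 0 ≤ δ)
    (h0 : ∀ θ, P 0 θ → a θ 2 ≤ B) (h1 : ∀ i θ g, P (i + 1) θ → P i (nx θ g))
    (h2 : ∀ θ q, BC fun g => a (nx θ g) q)
    (h3 : ∀ i θ, P (i + 1) θ → ∀ q, 2 ≤ q →
      a θ q + a θ (q + 1) / 8 ≤ ∫ g, a (nx θ g) q ∂gm n + δ) (i : ℕ) : ∀ θ, P i θ →
    ∑ j ∈ Finset.range (i + 1), (i.choose j : ℝ) * ((1 / 8) ^ j * a θ (2 + j)) ≤
      B + 8 * δ * (9 / 8) ^ i := by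
  induction i with
  | zero => intro θ hθ; have := h0 θ hθ; simp; linarith
  | succ i ih =>
    intro θ hθ
    have hb := fun j => (BC.const (i.choose j : ℝ)).mul ((BC.const ((1 / 8 : ℝ) ^ j)).mul (h2 θ (2 + j)))
    have h4 := integral_mono (BC.sum (Finset.range (i + 1)) fun j _ => hb j).pg.int
      (BC.const (B + 8 * δ * (9 / 8) ^ i)).pg.int fun g => ih _ (h1 i θ g hθ)
    rw [integral_finsetSum _ fun j _ => (hb j).pg.int] at h4
    simp only [integral_const_mul, integral_const, probReal_univ, smul_eq_mul, one_mul] at h4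
    have h5 := Finset.sum_choose_succ_mul (fun j _ => (1 / 8 : ℝ) ^ j * a θ (2 + j)) i
    rw [h5, ← Finset.sum_add_distrib]
    have h6 : ∑ j ∈ Finset.range (i + 1), ((i.choose j : ℝ) * ((1 / 8) ^ j * a θ (2 + j)) +
        (i.choose j : ℝ) * ((1 / 8) ^ (j + 1) * a θ (2 + (j + 1)))) ≤
        ∑ j ∈ Finset.range (i + 1), ((i.choose j : ℝ) * ((1 / 8) ^ j *
          ∫ g, a (nx θ g) (2 + j) ∂gm n) + (i.choose j : ℝ) * (1 / 8) ^ j * δ) :=
      Finset.sum_le_sum fun j _ => by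
        have := mul_le_mul_of_nonneg_left (h3 i θ hθ (2 + j) (by omega))
          (show (0 : ℝ) ≤ (i.choose j : ℝ) * (1 / 8) ^ j by positivity)
        rw [pow_succ, ← add_assoc]
        linarith
    rw [Finset.sum_add_distrib (f := fun j => (i.choose j : ℝ) * ((1 / 8) ^ j *
      ∫ g, a (nx θ g) (2 + j) ∂gm n)), ← Finset.sum_mul, sum_wt] at h6
    rw [pow_succ]
    linarith

variable {ι : Type} [Fintype ι] (w : ι → ℝ) (U : ι → Fin n → E n)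

/-- The pair quantity. -/
def AA (θ : E n → ℝ) (x : ℝ) : ℝ := ∑ i, w i * D (U i) *
  KK (U i) x (fun l => θ (U i l)) (fun l => 1 - θ (U i l) / n) Finset.univ

/-- The error of a step, amplified by `G`. -/
def YY (b v : ℝ) (θ G : E n → ℝ) (x : ℝ) : ℝ := ∫ g, ∑ p : ι × Fin n,
  w p.1 * D (U p.1) * (θ (U p.1 p.2) / (2 * n) * cos (b * ⟪g, U p.1 p.2⟫)) *
    KK (U p.1) x (fun l => θ (U p.1 l) * (1 + cos (b * ⟪g, U p.1 l⟫) / 2) * G (U p.1 l))
      (fun l => 1 - (θ (U p.1 l) * (1 + v * cos (b * ⟪g, U p.1 l⟫) / 2) +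
        θ (U p.1 l) * (G (U p.1 l) - 1) / 4) / n) (Finset.univ.erase p.2) ∂gm n

/-- One more factor of a Riesz product. -/
def nx (b : ℝ) (θ : E n → ℝ) (g v : E n) : ℝ := θ v * (1 + cos (b * ⟪g, v⟫) / 2)

/-- The functions that can still take `i` factors. -/
def Adm (Θ : ℝ) (i : ℕ) (θ : E n → ℝ) : Prop := ∀ v, 0 ≤ θ v ∧ θ v * (3 / 2) ^ i ≤ Θ

lemma Adm.nx {Θ b : ℝ} {i : ℕ} {θ : E n → ℝ} (h : Adm Θ (i + 1) θ) (g : E n) :
    Adm Θ i (nx b θ g) := fun v => by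
  obtain ⟨h1, h2⟩ := h v
  have h3 := abs_le.1 (abs_cos_le_one (b * ⟪g, v⟫))
  refine ⟨mul_nonneg h1 (by linarith), le_trans ?_ h2⟩
  rw [pow_succ', ← mul_assoc, Bu.nx]
  gcongr
  linarith

lemma Adm.le {Θ : ℝ} {i : ℕ} {θ : E n → ℝ} (h : Adm Θ i θ) (v : E n) : 0 ≤ θ v ∧ θ v ≤ Θ :=
  ⟨(h v).1, (le_mul_of_one_le_right (h v).1 (one_le_pow₀ (by norm_num))).trans (h v).2⟩

lemma hyp_Z {Θ v v' : ℝ} {θ G : E n → ℝ} (hn : 1 ≤ n) (hΘ : 1 ≤ Θ) (hΘn : 2 * Θ ^ 2 ≤ n)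
    (hθ : ∀ u, 0 ≤ θ u ∧ θ u ≤ Θ) (hG : ∀ u, 0 ≤ G u ∧ G u ≤ Θ) (hv : v ∈ Icc (0 : ℝ) 1)
    (hv' : v' ∈ Icc (0 : ℝ) 1) {t : ℝ} (ht : t ∈ Icc (0 : ℝ) 1) :
    Hyp (fun u => θ u * G u / (8 * n)) (fun u => θ u / (2 * n))
      (fun u C C' => θ u * (1 + C / 2) * G u * (1 + t * C' / 2))
      fun u C C' => θ u * (1 + v * C / 2) + θ u * (G u - 1) / 4 + v' * (θ u * G u / 8 * C') := by
  have h0 : (0 : ℝ) < n := by exact_mod_cast hn
  refine ⟨fun u => by unfold uncurry; fun_prop, fun u => by unfold uncurry; fun_prop,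
    fun u C C' hC hC' => ?_⟩
  obtain ⟨t0, t1⟩ := hθ u
  obtain ⟨g0, g1⟩ := hG u
  have p0 := mul_nonneg t0 g0
  have p1 : θ u * G u ≤ Θ ^ 2 := by rw [sq]; gcongr
  have a1 : ∀ {v C : ℝ}, v ∈ Icc (0 : ℝ) 1 → |C| ≤ 1 → -1 ≤ v * C ∧ v * C ≤ 1 := fun hv hC =>
    abs_le.1 (by rw [abs_mul, abs_of_nonneg hv.1]; exact mul_le_one₀ hv.2 (abs_nonneg _) hC)
  obtain ⟨a2, a3⟩ := a1 hv hC
  obtain ⟨a4, a5⟩ := a1 hv' hC'
  obtain ⟨a6, a7⟩ := a1 ht hC'
  obtain ⟨a8, a9⟩ := abs_le.1 hC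
  have e1 : (n : ℝ) * |θ u * G u / (8 * n)| = θ u * G u / 8 := by
    rw [abs_of_nonneg (by positivity)]; field_simp
  have e2 : (n : ℝ) * |θ u / (2 * n)| = θ u / 2 := by
    rw [abs_of_nonneg (by positivity)]; field_simp
  have e3 : |θ u * (1 + C / 2) * G u * (1 + t * C' / 2)| ≤ θ u * (3 / 2) * G u * (3 / 2) := by
    rw [abs_of_nonneg (mul_nonneg (mul_nonneg (mul_nonneg t0 (by linarith)) g0) (by linarith))]
    gcongr <;> linarith
  simp only [e1, e2]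
  constructor <;> nlinarith [mul_le_mul_of_nonneg_left a2 t0, mul_le_mul_of_nonneg_left a3 t0,
    mul_le_mul_of_nonneg_left a4 p0, mul_le_mul_of_nonneg_left a5 p0]

lemma bc_AA (b : ℝ) (θ : E n → ℝ) (x : ℝ) : BC fun g => AA w U (nx b θ g) x := by
  have h : ∀ v, BC fun g => nx b θ g v := fun v =>
    (BC.const _).mul ((BC.const _).add ((BC_cos continuous_id _ _).div_const 2))
  exact BC.sum _ fun i _ => (BC.const _).mul
    (BC_KK _ _ (fun l => h _) (fun l => (BC.const _).sub ((h _).div_const _)) _)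

lemma bc_YY (b v β : ℝ) (θ G : E n → ℝ) (x : ℝ) : BC fun g => YY w U b v θ (nx β G g) x := by
  have h : ∀ v, BC fun p : E n × E n => nx β G p.1 v := fun v =>
    (BC.const _).mul ((BC.const _).add ((BC_cos continuous_fst _ _).div_const 2))
  have c := BC_cos (continuous_snd (X := E n) (Y := E n)) b
  exact BC.integral (BC.sum _ fun p _ => ((BC.const _).mul ((BC.const _).mul (c _))).mul
    (BC_KK _ _ (fun l => ((BC.const _).mul ((BC.const _).add ((c _).div_const 2))).mul (h _))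
      (fun l => (BC.const _).sub ((((BC.const _).mul ((BC.const _).add
        (((BC.const _).mul (c _)).div_const 2))).add
        (((BC.const _).mul ((h _).sub (BC.const _))).div_const 4)).div_const _)) _))

lemma bc_sAA (b : ℝ) (θ : E n → ℝ) (W : Finset ℕ) (x : ℕ → ℝ) :
    BC fun g => ∑ m ∈ W, AA w U (nx b θ g) (x m) :=
  BC.sum (f := fun m g => AA w U (nx b θ g) (x m)) _ fun _ _ => bc_AA w U b θ _

lemma bc_sYY (b v β : ℝ) (θ G : E n → ℝ) (W : Finset ℕ) (x : ℕ → ℝ) :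
    BC fun g => ∑ m ∈ W, YY w U b v θ (nx β G g) (x m) :=
  BC.sum (f := fun m g => YY w U b v θ (nx β G g) (x m)) _ fun _ _ => bc_YY w U b v β θ G _

lemma le_div_of {c y b x X : ℝ} (hX : 0 < X) (hb : b ^ 2 = X) (hb0 : 0 ≤ b) (hx : X ≤ x)
    (h : b * √x * |y| ≤ c) : |y| ≤ c / X := by
  have h1 : b ≤ √x := le_sqrt_of_sq_le (hb.le.trans hx)
  rw [le_div_iff₀' hX, ← hb, sq]
  refine le_trans ?_ h
  gcongr

variable {w U} (hS : SlabStmt) (hn : 1 ≤ n) (hC : Cal w U) (hU : ∀ i j, ‖U i j‖ = 1)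
include hS hn hC hU

lemma A_bd {θ : E n → ℝ} (hθ : ∀ u, 0 ≤ θ u ∧ θ u ≤ n) {x : ℝ} (hx : 0 ≤ x) :
    √x * |AA w U θ x| ≤ 4 * 240 ^ 4 * n ^ 2 :=
  T2 (ψ' := 0) (ψ := 0) (f := fun u _ _ => θ u) (ϑ := fun u _ _ => θ u) hS hn hC hU
    ⟨fun _ => continuous_const, fun _ => continuous_const, fun u _ _ _ _ => ⟨(hθ u).2, by
      simp only [Pi.zero_apply, abs_zero, abs_of_nonneg (hθ u).1]
      linarith [(hθ u).1]⟩⟩ hx

variable {Θ b β : ℝ} {M : ℕ} (hΘ : 1 ≤ Θ) (hΘn : 2 * Θ ^ 2 ≤ n) (hM : 1 ≤ M) (hβ : 1 ≤ β)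
  (hb : b ^ 2 = M * β ^ 2) (hb0 : 0 ≤ b)
include hΘ hΘn hM hβ hb hb0

section two
variable {θ : E n → ℝ} (hθ : ∀ u, 0 ≤ θ u ∧ θ u ≤ Θ) {v : ℝ} (hv : v ∈ Icc (0 : ℝ) 1)
include hθ hv

lemma Y_bd {G : E n → ℝ} (hG : ∀ u, 0 ≤ G u ∧ G u ≤ Θ) {x : ℝ} (hx : b ^ 2 ≤ x) :
    |YY w U b v θ G x| ≤ 4 * 240 ^ 4 * n ^ 2 / b ^ 2 := by
  have hM' : (1 : ℝ) ≤ M := by exact_mod_cast hM
  have h := T3 hS hn hC hU (hyp_Z hn hΘ hΘn hθ hG hv (left_mem_Icc.2 zero_le_one)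
    (left_mem_Icc.2 zero_le_one)) ((sq_nonneg b).trans hx) hb0
  simp only [zero_mul, zero_div, add_zero, mul_one] at h
  exact le_div_of (by rw [hb]; positivity) rfl hb0 hx h

lemma step2 {G : E n → ℝ} (hG : ∀ u, 0 ≤ G u ∧ G u ≤ Θ) {m₀ : ℕ} (hm : 2 * M ≤ m₀) :
    |∫ g, ∑ m ∈ Finset.range M, YY w U b v θ (nx β G g) ((m₀ + m : ℕ) * β ^ 2) ∂gm n -
      9 / 8 * ∑ m ∈ Finset.range M, YY w U b v θ G ((m₀ + m : ℕ) * β ^ 2)| ≤
    4 * 240 ^ 4 * n ^ 2 / b ^ 2 * (2 * M / β + 1 / 4 + 2 * M * exp (-β ^ 2 / 2)) := by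
  have h0 : (0 : ℝ) < n := by exact_mod_cast hn
  have hM' : (1 : ℝ) ≤ M := by exact_mod_cast hM
  have hm' : (2 * M : ℝ) ≤ m₀ := by exact_mod_cast hm
  have hX : 0 < b ^ 2 := by rw [hb]; positivity
  have hx : ∀ m : ℕ, b ^ 2 + β ^ 2 ≤ (m₀ + m : ℕ) * β ^ 2 := fun m => by
    rw [hb, ← add_one_mul]
    gcongr
    push_cast
    linarith [Nat.cast_nonneg (α := ℝ) m]
  have hx' : ∀ m : ℕ, b ^ 2 ≤ (m₀ + m : ℕ) * β ^ 2 := fun m => by linarith [hx m, sq_nonneg β]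
  set c : ℝ := 4 * 240 ^ 4 * n ^ 2 / b ^ 2 with hc
  have cs := BC_cos (continuous_id (X := E n)) b
  have h1 := step (u := fun p : ι × Fin n => U p.1) (s := fun p => Finset.univ.erase p.2)
    (a := fun p g => w p.1 * D (U p.1) * (θ (U p.1 p.2) / (2 * n) * cos (b * ⟪g, U p.1 p.2⟫)))
    (f := fun p l g => θ (U p.1 l) * (1 + cos (b * ⟪g, U p.1 l⟫) / 2) * G (U p.1 l))
    (χ := fun p l g => 1 - (θ (U p.1 l) * (1 + v * cos (b * ⟪g, U p.1 l⟫) / 2) +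
      θ (U p.1 l) * (G (U p.1 l) - 1) / 4) / n)
    (ψ := fun p l => θ (U p.1 l) * G (U p.1 l) / (8 * n)) (b := β) (fun p l => hU _ _)
    (fun p => (BC.const _).mul ((BC.const _).mul (cs _)))
    (fun p l => ((BC.const _).mul ((BC.const _).add ((cs _).div_const 2))).mul (BC.const _))
    (fun p l => (BC.const _).sub ((((BC.const _).mul ((BC.const _).add
      (((BC.const _).mul (cs _)).div_const 2))).add (BC.const _)).div_const _))
    (Finset.range M) (fun m => (m₀ + m : ℕ) * β ^ 2) (δ := M * (c / β)) fun v' hv' => by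
      refine (Finset.abs_sum_le_sum_abs _ _).trans ((Finset.sum_le_card_nsmul _ _ (c / β)
        fun m _ => ?_).trans_eq (by simp))
      have h := T4 hS hn hC hU (hyp_Z hn hΘ hΘn hθ hG hv hv' (right_mem_Icc.2 zero_le_one))
        (hX.le.trans (hx' m)) hb0 (zero_le_one.trans hβ)
      have e : ∀ A B C : ℝ, 1 - (A + v' * (B / 8 * C)) / n = 1 - A / n - v' * (B / (8 * n) * C) :=
        fun A B C => by field_simp; ring
      simp only [e, one_mul] at h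
      rw [le_div_iff₀' (by linarith), ← abs_of_nonneg (zero_le_one.trans hβ), ← abs_mul]
      refine le_div_of hX rfl hb0 (hx' m) (le_of_eq_of_le ?_ h)
      rw [abs_mul, abs_of_nonneg (zero_le_one.trans hβ), X2]
      ring
  have h2 : ∀ x, X1 (fun p : ι × Fin n => U p.1) (fun p => Finset.univ.erase p.2)
      (fun p g => w p.1 * D (U p.1) * (θ (U p.1 p.2) / (2 * n) * cos (b * ⟪g, U p.1 p.2⟫)))
      (fun p l g => θ (U p.1 l) * (1 + cos (b * ⟪g, U p.1 l⟫) / 2) * G (U p.1 l))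
      (fun p l g => 1 - (θ (U p.1 l) * (1 + v * cos (b * ⟪g, U p.1 l⟫) / 2) +
        θ (U p.1 l) * (G (U p.1 l) - 1) / 4) / n)
      (fun p l => θ (U p.1 l) * G (U p.1 l) / (8 * n)) β 1 x =
      ∫ g, YY w U b v θ (nx β G g) x ∂gm n := fun x => by
    have e : ∀ A t g C : ℝ, 1 - (A + t * (g - 1) / 4) / n - 1 * (t * g / (8 * n) * C) =
        1 - (A + t * (g * (1 + C / 2) - 1) / 4) / n := fun A t g C => by field_simp; ring
    simp only [X1, YY, nx, e, mul_assoc]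
  simp only [h2] at h1
  rw [← integral_finsetSum _ fun m _ => (bc_YY w U b v β θ G _).pg.int] at h1
  change |_ - ∑ m ∈ Finset.range M, SS β (YY w U b v θ G) _| ≤ _ at h1
  have hY := fun x hx => Y_bd hS hn hC hU hΘ hΘn hM hβ hb hb0 hθ hv hG (x := x) hx
  have s1 : |∑ m ∈ Finset.range M, YY w U b v θ G ((m₀ + m : ℕ) * β ^ 2)| ≤ M * c :=
    (Finset.abs_sum_le_sum_abs _ _).trans ((Finset.sum_le_card_nsmul _ _ c
      fun m _ => hY _ (hx' m)).trans_eq (by simp))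
  have s2 : |∑ m ∈ Finset.range M, YY w U b v θ G ((m₀ + m : ℕ) * β ^ 2 - β ^ 2)| ≤ M * c :=
    (Finset.abs_sum_le_sum_abs _ _).trans ((Finset.sum_le_card_nsmul _ _ c
      fun m _ => hY _ (by linarith [hx m])).trans_eq (by simp))
  have s3 : ∑ m ∈ Finset.range M, YY w U b v θ G ((m₀ + m : ℕ) * β ^ 2 + β ^ 2) =
      ∑ m ∈ Finset.range M, YY w U b v θ G ((m₀ + m : ℕ) * β ^ 2) +
        YY w U b v θ G ((m₀ + M : ℕ) * β ^ 2) - YY w U b v θ G ((m₀ + 0 : ℕ) * β ^ 2) := by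
    rw [← Finset.sum_range_succ fun m => YY w U b v θ G ((m₀ + m : ℕ) * β ^ 2),
      Finset.sum_range_succ', add_sub_cancel_right]
    refine Finset.sum_congr rfl fun m _ => ?_
    congr 1
    push_cast
    ring
  simp only [SS, Finset.sum_add_distrib, ← Finset.sum_div, ← Finset.mul_sum, s3] at h1
  have e1 : exp (-2 * β ^ 2) ≤ exp (-β ^ 2 / 2) := exp_le_exp.2 (by nlinarith [sq_nonneg β])
  have s4 := abs_le.1 (hY _ (hx' M))
  have s5 := abs_le.1 (hY _ (hx' 0))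
  have s6 := abs_le.1 ((abs_mul _ _).trans_le (mul_le_mul (abs_of_pos (exp_pos (-β ^ 2 / 2))).le s1
    (abs_nonneg _) (exp_pos _).le))
  have s7 := abs_le.1 ((abs_mul _ _).trans_le (mul_le_mul
    ((abs_of_pos (exp_pos (-2 * β ^ 2))).trans_le e1) s2 (abs_nonneg _) (exp_pos _).le))
  have s8 := abs_le.1 h1
  have s9 : 0 ≤ exp (-β ^ 2 / 2) * (M * c) := by positivity
  have e2 : c * (2 * M / β + 1 / 4 + 2 * M * exp (-β ^ 2 / 2)) =
      2 * (M * (c / β)) + c / 4 + 2 * (exp (-β ^ 2 / 2) * (M * c)) := by ring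
  rw [e2, abs_le]
  constructor <;> linarith [s4.1, s4.2, s5.1, s5.2, s6.1, s6.2, s7.1, s7.2, s8.1, s8.2]

lemma level2 {r : ℕ} (hr : (3 / 2 : ℝ) ^ r ≤ Θ) {m₀ : ℕ} (hm : 2 * M ≤ m₀) :
    |∑ m ∈ Finset.range M, YY w U b v θ 1 ((m₀ + m : ℕ) * β ^ 2)| ≤
      4 * 240 ^ 4 * n ^ 2 / b ^ 2 *
        (M * (8 / 9) ^ r + 8 * (2 * M / β + 1 / 4 + 2 * M * exp (-β ^ 2 / 2))) := by
  have hm' : (2 * M : ℝ) ≤ m₀ := by exact_mod_cast hm
  have hx' : ∀ m : ℕ, b ^ 2 ≤ (m₀ + m : ℕ) * β ^ 2 := fun m => by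
    rw [hb]
    gcongr
    omega
  set c : ℝ := 4 * 240 ^ 4 * n ^ 2 / b ^ 2 with hc
  set δ : ℝ := c * (2 * M / β + 1 / 4 + 2 * M * exp (-β ^ 2 / 2)) with hδ
  have key : ∀ s : ℝ, |s| = 1 → s * ∑ m ∈ Finset.range M, YY w U b v θ 1 ((m₀ + m : ℕ) * β ^ 2) ≤
      M * c * (8 / 9) ^ r + 8 * δ := fun s hs => by
    have hbc : ∀ G : E n → ℝ, BC fun g =>
        s * ∑ m ∈ Finset.range M, YY w U b v θ (nx β G g) ((m₀ + m : ℕ) * β ^ 2) := fun G =>
      (BC.const s).mul (bc_sYY w U b v β θ G _ fun m => (m₀ + m : ℕ) * β ^ 2)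
    have h := grow (n := n) (S := E n → ℝ) (P := Adm Θ) (nx := nx β) (B := M * c) (δ := δ)
      (a := fun G _ => s * ∑ m ∈ Finset.range M, YY w U b v θ G ((m₀ + m : ℕ) * β ^ 2))
      (by positivity) (fun G hG => ?_) (fun i G g hG => hG.nx g)
      (fun G _ => hbc G)
      (fun i G hG _ _ => ?_) r 1 fun u => ⟨zero_le_one, by simpa using hr⟩
    · simp only [← mul_assoc, ← Finset.sum_mul, sum_wt] at h
      have h1 := mul_le_mul_of_nonneg_right h (show (0 : ℝ) ≤ (8 / 9) ^ r by positivity)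
      have h2 : ((9 : ℝ) / 8) ^ r * (8 / 9) ^ r = 1 := by rw [← mul_pow]; norm_num
      linear_combination h1 + (8 * δ - s * ∑ m ∈ Finset.range M,
        YY w U b v θ 1 ((m₀ + m : ℕ) * β ^ 2)) * h2
    · refine (le_abs_self _).trans ?_
      rw [abs_mul, hs, one_mul]
      exact (Finset.abs_sum_le_sum_abs _ _).trans ((Finset.sum_le_card_nsmul _ _ c fun m _ =>
        Y_bd hS hn hC hU hΘ hΘn hM hβ hb hb0 hθ hv hG.le (hx' m)).trans_eq (by simp))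
    · have h1 := step2 hS hn hC hU hΘ hΘn hM hβ hb hb0 hθ hv hG.le hm
      rw [← hc, ← hδ] at h1
      have h2 := (abs_mul s _).trans_le ((mul_le_mul_of_nonneg_left h1 (abs_nonneg s)).trans_eq
        (by rw [hs, one_mul]))
      rw [integral_const_mul]
      linarith [(abs_le.1 h2).1]
  have k1 := key 1 abs_one
  have k2 := key (-1) (by simp)
  rw [abs_le]
  constructor <;> linarith

end two

omit hΘ hb0 hS hC hU hn hΘn in
lemma win {q : ℕ} (hq : 2 ≤ q) (m : ℕ) : 1 ≤ b ^ 2 ∧ 2 * b ^ 2 ≤ (q * M + m : ℕ) * β ^ 2 := by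
  have hM' : (1 : ℝ) ≤ M := by exact_mod_cast hM
  have : (2 : ℝ) ≤ q := by exact_mod_cast hq
  refine ⟨by rw [hb]; nlinarith, ?_⟩
  rw [hb, ← mul_assoc]
  gcongr
  push_cast
  nlinarith [Nat.cast_nonneg (α := ℝ) m]

omit hb0 in
lemma A_le {θ : E n → ℝ} (hθ : ∀ u, 0 ≤ θ u ∧ θ u ≤ Θ) {x : ℝ} (hx : b ^ 2 ≤ x) :
    |AA w U θ x| ≤ 4 * 240 ^ 4 * n ^ 2 := by
  have hX := (win hM hβ hb le_rfl 0).1
  exact (le_mul_of_one_le_left (abs_nonneg _) (one_le_sqrt.2 (hX.trans hx))).trans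
    (A_bd hS hn hC hU (fun u => ⟨(hθ u).1, by nlinarith [(hθ u).2]⟩) (by linarith))

lemma step1 {r : ℕ} (hr : (3 / 2 : ℝ) ^ r ≤ Θ) {θ : E n → ℝ} (hθ : ∀ u, 0 ≤ θ u ∧ θ u ≤ Θ)
    {q : ℕ} (hq : 2 ≤ q) :
    ∑ m ∈ Finset.range M, AA w U θ ((q * M + m : ℕ) * β ^ 2) +
      (∑ m ∈ Finset.range M, AA w U θ (((q + 1) * M + m : ℕ) * β ^ 2)) / 8 ≤
    ∫ g, ∑ m ∈ Finset.range M, AA w U (nx b θ g) ((q * M + m : ℕ) * β ^ 2) ∂gm n +
      (2 * (4 * 240 ^ 4 * n ^ 2 / b ^ 2 *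
        (M * (8 / 9) ^ r + 8 * (2 * M / β + 1 / 4 + 2 * M * exp (-β ^ 2 / 2)))) +
        2 * (exp (-b ^ 2 / 2) * (M * (4 * 240 ^ 4 * n ^ 2)))) := by
  have h0 : (0 : ℝ) < n := by exact_mod_cast hn
  have h1 := step (u := U) (s := fun _ => Finset.univ) (a := fun i _ => w i * D (U i))
    (f := fun i l _ => θ (U i l)) (χ := fun i l _ => 1 - θ (U i l) / n)
    (ψ := fun i l => θ (U i l) / (2 * n)) (b := b) hU (fun _ => BC.const _)
    (fun _ _ => BC.const _) (fun _ _ => BC.const _) (Finset.range M)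
    (fun m => (q * M + m : ℕ) * β ^ 2) fun v hv => by
      refine le_of_eq_of_le ?_ (level2 hS hn hC hU hΘ hΘn hM hβ hb hb0 hθ hv hr
        (m₀ := q * M) (Nat.mul_le_mul_right M hq))
      have e : ∀ t C : ℝ, 1 - t / n - v * (t / (2 * n) * C) =
          1 - (t * (1 + v * C / 2) + t * (1 - 1) / 4) / n := fun t C => by field_simp; ring
      simp only [X2, YY, integral_const, probReal_univ, one_smul, e, Pi.one_apply, mul_one,
        Fintype.sum_prod_type, Finset.mul_sum, mul_assoc]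
  have e : ∀ t C : ℝ, 1 - t / n - 1 * (t / (2 * n) * C) = 1 - t * (1 + C / 2) / n :=
    fun t C => by field_simp; ring
  have h2 : X0 U (fun _ => Finset.univ) (fun i _ => w i * D (U i)) (fun i l _ => θ (U i l))
      (fun i l _ => 1 - θ (U i l) / n) = AA w U θ := by
    funext x
    simp only [X0, AA, integral_const, probReal_univ, one_smul]
  have h3 : ∀ x, X1 U (fun _ => Finset.univ) (fun i _ => w i * D (U i)) (fun i l _ => θ (U i l))
      (fun i l _ => 1 - θ (U i l) / n) (fun i l => θ (U i l) / (2 * n)) b 1 x =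
      ∫ g, AA w U (nx b θ g) x ∂gm n := fun x => by
    simp only [X1, integral_const, probReal_univ, one_smul, e, AA, nx]
  simp only [h2, h3] at h1
  rw [← integral_finsetSum _ fun m _ => (bc_AA w U b θ _).pg.int] at h1
  have hx := win hM hβ hb hq
  have hA := fun x hx => A_le hS hn hC hU hΘ hΘn hM hβ hb hθ (x := x) hx
  set c : ℝ := 4 * 240 ^ 4 * n ^ 2 with hc
  have s1 : |∑ m ∈ Finset.range M, AA w U θ ((q * M + m : ℕ) * β ^ 2)| ≤ M * c :=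
    (Finset.abs_sum_le_sum_abs _ _).trans ((Finset.sum_le_card_nsmul _ _ c
      fun m _ => hA _ (by linarith [(hx m).1, (hx m).2])).trans_eq (by simp))
  have s2 : |∑ m ∈ Finset.range M, AA w U θ ((q * M + m : ℕ) * β ^ 2 - b ^ 2)| ≤ M * c :=
    (Finset.abs_sum_le_sum_abs _ _).trans ((Finset.sum_le_card_nsmul _ _ c
      fun m _ => hA _ (by linarith [(hx m).2])).trans_eq (by simp))
  have s3 : ∀ m : ℕ, ((q * M + m : ℕ) : ℝ) * β ^ 2 + b ^ 2 = ((q + 1) * M + m : ℕ) * β ^ 2 :=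
    fun m => by rw [hb]; push_cast; ring
  simp only [SS, Finset.sum_add_distrib, ← Finset.sum_div, ← Finset.mul_sum, s3] at h1
  have e1 : exp (-2 * b ^ 2) ≤ exp (-b ^ 2 / 2) := exp_le_exp.2 (by nlinarith)
  have s6 := abs_le.1 ((abs_mul _ _).trans_le (mul_le_mul (abs_of_pos (exp_pos (-b ^ 2 / 2))).le
    s1 (abs_nonneg _) (exp_pos _).le))
  have s7 := abs_le.1 ((abs_mul _ _).trans_le (mul_le_mul
    ((abs_of_pos (exp_pos (-2 * b ^ 2))).trans_le e1) s2 (abs_nonneg _) (exp_pos _).le))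
  have s9 : 0 ≤ exp (-b ^ 2 / 2) * (M * c) := by positivity
  linarith [s6.2, s7.2, s6.1, s7.1, (abs_le.1 h1).1]

theorem amp {r : ℕ} (hr : (3 / 2 : ℝ) ^ r ≤ Θ) {μ : ℝ}
    (hμ : ∀ x ∈ Icc (2 * b ^ 2) ((r + 3) * b ^ 2), μ ≤ AA w U 1 x) :
    μ ≤ 4 * 240 ^ 4 * n ^ 2 * ((8 / 9) ^ r + 16 * (((8 / 9) ^ r +
      8 * (2 / β + 1 / (4 * M) + 2 * exp (-β ^ 2 / 2))) / b ^ 2 + exp (-b ^ 2 / 2))) := by
  have hM' : (1 : ℝ) ≤ M := by exact_mod_cast hM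
  have hX := (win hM hβ hb le_rfl 0).1
  have k0 : ∀ θ : E n → ℝ, Adm Θ 0 θ → ∑ m ∈ Finset.range M, AA w U θ ((2 * M + m : ℕ) * β ^ 2) ≤
      M * (4 * 240 ^ 4 * n ^ 2) := fun θ hθ =>
    (Finset.sum_le_card_nsmul _ _ (4 * 240 ^ 4 * n ^ 2 : ℝ) fun m _ => (le_abs_self _).trans
      (A_le hS hn hC hU hΘ hΘn hM hβ hb hθ.le
        (by linarith [(win hM hβ hb le_rfl m).2]))).trans_eq (by simp)
  have k1 : Adm Θ r (1 : E n → ℝ) := fun u => ⟨zero_le_one, by simpa using hr⟩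
  have h := grow (n := n) (S := E n → ℝ) (P := Adm Θ) (nx := nx b)
    (a := fun θ q => ∑ m ∈ Finset.range M, AA w U θ ((q * M + m : ℕ) * β ^ 2))
    (δ := 2 * (4 * 240 ^ 4 * n ^ 2 / b ^ 2 *
        (M * (8 / 9) ^ r + 8 * (2 * M / β + 1 / 4 + 2 * M * exp (-β ^ 2 / 2)))) +
        2 * (exp (-b ^ 2 / 2) * (M * (4 * 240 ^ 4 * n ^ 2)))) (by positivity) k0
    (fun i θ g hθ => hθ.nx g) (fun θ q => bc_sAA w U b θ _ fun m => (q * M + m : ℕ) * β ^ 2)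
    (fun i θ hθ q hq => step1 hS hn hC hU hΘ hΘn hM hβ hb hb0 hr hθ.le hq) r 1 k1
  have h1 : ∑ j ∈ Finset.range (r + 1), (r.choose j : ℝ) * (1 / 8) ^ j * (M * μ) ≤
      ∑ j ∈ Finset.range (r + 1), (r.choose j : ℝ) * ((1 / 8) ^ j *
        ∑ m ∈ Finset.range M, AA w U 1 (((2 + j) * M + m : ℕ) * β ^ 2)) :=
    Finset.sum_le_sum fun j hj => by
      rw [mul_assoc]
      gcongr
      refine le_of_eq_of_le (by simp) (Finset.card_nsmul_le_sum _ _ μ fun m hm =>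
        hμ _ ⟨(win hM hβ hb (by omega) m).2, ?_⟩)
      have h2 : (2 + j) * M + m ≤ (r + 3) * M := by
        have := Finset.mem_range.1 hj
        have := Finset.mem_range.1 hm
        nlinarith
      rw [hb, ← mul_assoc]
      gcongr
      exact_mod_cast h2
  rw [← Finset.sum_mul, sum_wt] at h1
  have h3 := mul_le_mul_of_nonneg_right (h1.trans h) (show (0 : ℝ) ≤ (8 / 9) ^ r by positivity)
  have h2 : ((9 : ℝ) / 8) ^ r * (8 / 9) ^ r = 1 := by rw [← mul_pow]; norm_num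
  rw [mul_right_comm, h2, one_mul, add_mul, mul_assoc _ ((9 / 8 : ℝ) ^ r), h2] at h3
  refine le_of_mul_le_mul_left (h3.trans_eq ?_) (show (0 : ℝ) < M by linarith)
  field_simp
  ring

end Pool.Agent.Lib.MP_8115c2_gt.Bu
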