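import Mathlib

/-!
Formal real chains on an abelian group: cone, translation, boundary and prism operators.
-/

open Finsupp

noncomputable section

namespace Pool.Agent.Lib.MP_8115c2_gt.Bu

/-- Formal real combinations of lists of points. -/
abbrev Ch (V : Type) := List V →₀ ℝ

variable {V : Type}

/-- The cone operator. -/
def cn (x : V) : Module.End ℝ (Ch V) := lmapDomain ℝ ℝ (List.cons x)

lemma cn_single (x : V) (l : List V) (c : ℝ) : cn x (single l c) = single (x :: l) c :=
  mapDomain_single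

/-- The map of chains induced by a map of points. -/
def mq (f : V → V) : Module.End ℝ (Ch V) := lmapDomain ℝ ℝ (List.map f)

lemma mp_single (f : V → V) (l : List V) (c : ℝ) : mq f (single l c) = single (l.map f) c :=
  mapDomain_single

lemma op_ext {W : Type} [AddCommGroup W] [Module ℝ W] {F G : Ch V →ₗ[ℝ] W}
    (h : ∀ l, F (single l 1) = G (single l 1)) : F = G :=
  lhom_ext' fun l => LinearMap.ext_ring (h l)

lemma op_ind {W : Type} [AddCommGroup W] [Module ℝ W] {F G : Ch V →ₗ[ℝ] W}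
    (h0 : F (single [] 1) = G (single [] 1))
    (h : ∀ x β, F β = G β → F (cn x β) = G (cn x β)) : F = G :=
  op_ext fun l => by
    induction l with
    | nil => exact h0
    | cons x l ih => rw [← cn_single]; exact h x _ ih

lemma mp_cn (f : V → V) (x : V) (β : Ch V) : mq f (cn x β) = cn (f x) (mq f β) :=
  LinearMap.congr_fun (op_ext (F := mq f * cn x) (G := cn (f x) * mq f) fun l => by
    simp [cn_single, mp_single]) β

lemma mp_mp (f g : V → V) (β : Ch V) : mq f (mq g β) = mq (f ∘ g) β :=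
  LinearMap.congr_fun (op_ext (F := mq f * mq g) (G := mq (f ∘ g)) fun l => by
    simp [mp_single]) β

/-- The recursion that defines the operators below, on lists. -/
def rc0 (U : V → Module.End ℝ (Ch V)) (s : ℝ) : List V → Ch V
  | [] => 0
  | x :: l => U x (single l 1) + s • cn x (rc0 U s l)

/-- The recursion that defines the operators below. -/
def rc (U : V → Module.End ℝ (Ch V)) (s : ℝ) : Module.End ℝ (Ch V) :=
  linearCombination ℝ (rc0 U s)

lemma rc_nil (U : V → Module.End ℝ (Ch V)) (s c : ℝ) : rc U s (single [] c) = 0 := by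
  simp [rc, rc0]

lemma rc_cn (U : V → Module.End ℝ (Ch V)) (s : ℝ) (x : V) (β : Ch V) :
    rc U s (cn x β) = U x β + s • cn x (rc U s β) :=
  LinearMap.congr_fun (op_ext (F := rc U s * cn x) (G := U x + s • cn x * rc U s) fun l => by
    simp [rc, rc0, cn_single]) β

lemma rc_comm {U U' : V → Module.End ℝ (Ch V)} (s : ℝ) (f : V → V)
    (h : ∀ x β, mq f (U x β) = U' (f x) (mq f β)) (β : Ch V) :
    mq f (rc U s β) = rc U' s (mq f β) :=
  LinearMap.congr_fun (op_ind (F := mq f * rc U s) (G := rc U' s * mq f)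
    (by simp [rc_nil, mp_single]) fun x β ih => by
      simp only [Module.End.mul_apply] at ih ⊢
      simp [rc_cn, mp_cn, h, ih]) β

/-- The boundary operator. -/
def bd : Module.End ℝ (Ch V) := rc (fun _ => 1) (-1)

lemma bd_nil (c : ℝ) : bd (single ([] : List V) c) = 0 := rc_nil _ _ _

lemma bd_cn (x : V) (β : Ch V) : bd (cn x β) = β - cn x (bd β) := by
  simp [bd, rc_cn, sub_eq_add_neg]

lemma mp_bd (f : V → V) (β : Ch V) : mq f (bd β) = bd (mq f β) :=
  rc_comm _ f (fun _ _ => rfl) β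

lemma bd_bd (β : Ch V) : bd (bd β) = 0 :=
  LinearMap.congr_fun (op_ind (F := bd * bd) (G := 0) (by simp [bd_nil]) fun x β ih => by
    simp only [Module.End.mul_apply, LinearMap.zero_apply] at ih ⊢
    simp [bd_cn, ih]) β

lemma bd_single (l : List V) (c : ℝ) : bd (single l c) =
    ∑ i ∈ Finset.range l.length, single (l.eraseIdx i) ((-1) ^ i * c) := by
  induction l with
  | nil => simp [bd_nil]
  | cons x l ih =>
    rw [← cn_single, bd_cn, ih, List.length_cons, Finset.sum_range_succ', map_sum,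
      sub_eq_neg_add, ← Finset.sum_neg_distrib]
    simp [cn_single, pow_succ, -single_mul]

/-- The chains whose points all lie in `s`. -/
def Sup (s : Set V) : Submodule ℝ (Ch V) := supported ℝ ℝ {l | ∀ x ∈ l, x ∈ s}

lemma sup_ind {s : Set V} {F : Module.End ℝ (Ch V)} {T : Submodule ℝ (Ch V)}
    (h : ∀ l : List V, (∀ x ∈ l, x ∈ s) → F (single l 1) ∈ T) {β : Ch V} (hβ : β ∈ Sup s) :
    F β ∈ T := by
  rw [Sup, supported_eq_span_single] at hβ
  exact (Submodule.span_le (p := T.comap F)).2 (by rintro _ ⟨l, hl, rfl⟩; exact h l hl) hβ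

lemma single_sup {s : Set V} {l : List V} (h : ∀ x ∈ l, x ∈ s) (c : ℝ) : single l c ∈ Sup s :=
  single_mem_supported ℝ c h

lemma cn_sup {s : Set V} {x : V} (hx : x ∈ s) {β : Ch V} (hβ : β ∈ Sup s) : cn x β ∈ Sup s :=
  sup_ind (fun l hl => by rw [cn_single]; exact single_sup (by simpa [hx] using hl) 1) hβ

lemma mp_sup {s t : Set V} {f : V → V} (hf : Set.MapsTo f s t) {β : Ch V} (hβ : β ∈ Sup s) :
    mq f β ∈ Sup t :=
  sup_ind (fun l hl => by
    rw [mp_single]
    exact single_sup (by simpa using fun x hx => hf (hl x hx)) 1) hβ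

lemma rc_sup {s : Set V} {U : V → Module.End ℝ (Ch V)} (c : ℝ)
    (h : ∀ x ∈ s, ∀ β ∈ Sup s, U x β ∈ Sup s) {β : Ch V} (hβ : β ∈ Sup s) : rc U c β ∈ Sup s :=
  sup_ind (fun l hl => by
    induction l with
    | nil => rw [rc_nil]; exact zero_mem _
    | cons x l ih =>
      have h1 := List.forall_mem_cons.1 hl
      rw [← cn_single, rc_cn]
      exact add_mem (h x h1.1 _ (single_sup h1.2 1))
        (Submodule.smul_mem _ _ (cn_sup h1.1 (ih h1.2)))) hβ

variable [AddCommGroup V]

/-- Translation. -/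
def tr (h : V) : Module.End ℝ (Ch V) := mq (· + h)

lemma tr_cn (h x : V) (β : Ch V) : tr h (cn x β) = cn (x + h) (tr h β) := mp_cn _ _ _

lemma tr_tr (a b : V) (β : Ch V) : tr a (tr b β) = tr (a + b) β := by
  rw [tr, tr, mp_mp, tr]
  congr 2
  funext x
  simp only [Function.comp_apply]
  abel

lemma tr_zero (β : Ch V) : tr 0 β = β :=
  LinearMap.congr_fun (op_ext (F := tr 0) (G := 1) fun l => by simp [tr, mp_single]) β

lemma tr_nil (h : V) (c : ℝ) : tr h (single ([] : List V) c) = single [] c := mp_single _ _ _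

lemma tr_bd (h : V) (β : Ch V) : tr h (bd β) = bd (tr h β) := mp_bd _ _

/-- The prism operator. -/
def Pr (h : V) : Module.End ℝ (Ch V) := rc (fun x => cn x * cn (x + h) * tr h) (-1)

lemma Pr_nil (h : V) (c : ℝ) : Pr h (single ([] : List V) c) = 0 := rc_nil _ _ _

lemma Pr_cn (h x : V) (β : Ch V) :
    Pr h (cn x β) = cn x (cn (x + h) (tr h β)) - cn x (Pr h β) := by
  simp [Pr, rc_cn, sub_eq_add_neg]

lemma tr_Pr (k h : V) (β : Ch V) : tr k (Pr h β) = Pr h (tr k β) :=
  rc_comm _ _ (fun x β => by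
    change tr k (cn x (cn (x + h) (tr h β))) = cn (x + k) (cn (x + k + h) (tr h (tr k β)))
    rw [tr_cn, tr_cn, tr_tr, tr_tr, add_comm k h, add_right_comm]) β

lemma bd_Pr (h : V) (β : Ch V) : bd (Pr h β) = tr h β - β - Pr h (bd β) :=
  LinearMap.congr_fun (op_ind (F := bd * Pr h) (G := tr h - 1 - Pr h * bd)
    (by simp [bd_nil, Pr_nil, tr_nil]) fun x β ih => by
      simp only [Module.End.mul_apply, LinearMap.sub_apply, Module.End.one_apply] at ih ⊢
      simp only [bd_cn, Pr_cn, map_sub, ih, tr_cn, tr_bd]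
      abel) β

/-- The homotopy that compares the prism along `a + b` with the prisms along `a` and `b`. -/
def Ho (a b : V) : Module.End ℝ (Ch V) := rc (fun x => -(cn x * tr a * Pr b * cn x)) 1

lemma Ho_nil (a b : V) (c : ℝ) : Ho a b (single ([] : List V) c) = 0 := rc_nil _ _ _

lemma Ho_cn (a b x : V) (β : Ch V) :
    Ho a b (cn x β) = cn x (Ho a b β) - cn x (tr a (Pr b (cn x β))) := by
  simp [Ho, rc_cn, sub_eq_neg_add]

lemma tr_Ho (k a b : V) (β : Ch V) : tr k (Ho a b β) = Ho a b (tr k β) :=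
  rc_comm _ _ (fun x β => by
    change tr k (-cn x (tr a (Pr b (cn x β)))) = -cn (x + k) (tr a (Pr b (cn (x + k) (tr k β))))
    rw [map_neg, tr_cn, tr_tr, ← tr_cn k x, ← tr_Pr, tr_tr, add_comm k a]) β

lemma bd_Ho (a b : V) (β : Ch V) :
    bd (Ho a b β) = Pr (a + b) β - Pr a β - tr a (Pr b β) + Ho a b (bd β) :=
  LinearMap.congr_fun (op_ind (F := bd * Ho a b)
    (G := Pr (a + b) - Pr a - tr a * Pr b + Ho a b * bd)
    (by simp [bd_nil, Pr_nil, Ho_nil]) fun x β ih => by
      simp only [Module.End.mul_apply, LinearMap.sub_apply, LinearMap.add_apply] at ih ⊢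
      have h1 : bd (tr a (Pr b (cn x β))) = cn (x + (a + b)) (tr (a + b) β) -
          cn (x + a) (tr a β) - tr a (Pr b β) + tr a (Pr b (cn x (bd β))) := by
        rw [← tr_bd, bd_Pr, bd_cn, map_sub, map_sub, map_sub, map_sub, tr_tr, tr_cn, tr_cn]
        abel
      rw [Ho_cn, map_sub, bd_cn, bd_cn, bd_cn, ih, h1, map_sub (Ho a b), Ho_cn, Pr_cn (a + b),
        Pr_cn a]
      simp only [map_sub, map_add]
      abel) β

/-- The standard triangulation of the parallelepiped spanned by `v`. -/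
def Ku {n : ℕ} (v : Fin n → V) : Ch V :=
  ∑ σ : Equiv.Perm (Fin n), single (List.ofFn (Fin.partialSum (v ∘ σ)))
    ((Equiv.Perm.sign σ : ℤ) : ℝ)

lemma Ku_zero (v : Fin 0 → V) : Ku v = cn 0 (single [] 1) := by
  simp [Ku, cn_single]

lemma Ku_succ {n : ℕ} (v : Fin (n + 1) → V) :
    Ku v = ∑ i : Fin (n + 1), (-1 : ℝ) ^ (i : ℕ) • cn 0 (tr (v i) (Ku (v ∘ i.succAbove))) := by
  let e : Fin (n + 1) × Equiv.Perm (Fin n) → Equiv.Perm (Fin (n + 1)) := fun p =>
    p.1.cycleRange⁻¹ * Equiv.Perm.decomposeFin.symm (0, p.2)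
  have h0 : ∀ p, e p 0 = p.1 := fun p => by simp [e, Equiv.Perm.inv_def]
  have h1 : ∀ p j, e p j.succ = p.1.succAbove (p.2 j) := fun p j => by
    simp [e, Equiv.Perm.inv_def]
  have he : Function.Bijective e := (Fintype.bijective_iff_injective_and_card e).2
    ⟨fun p q h => by
      have h2 : p.1 = q.1 := by rw [← h0, ← h0, h]
      refine Prod.ext h2 (Equiv.ext fun j => p.1.succAbove_right_injective ?_)
      rw [← h1, h, h1, h2], by simp [Fintype.card_perm, Nat.factorial_succ]⟩
  rw [Ku, ← he.sum_comp, Fintype.sum_prod_type]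
  refine Finset.sum_congr rfl fun i _ => ?_
  rw [Ku, map_sum, map_sum, Finset.smul_sum]
  refine Finset.sum_congr rfl fun τ _ => ?_
  rw [tr, mp_single, cn_single, smul_single, List.ofFn_succ, List.map_ofFn]
  congr 2
  · congr 1
    funext k
    have : Fin.tail (v ∘ e (i, τ)) = (v ∘ i.succAbove) ∘ τ := funext fun j => by
      simp [Fin.tail, h1]
    simp [Fin.partialSum_succ', this, h0, add_comm]
  · simp [e]

lemma Pr_Ku {n : ℕ} (h : V) (v : Fin n → V) :
    Pr h (Ku v) = Ku (Fin.cons h v : Fin (n + 1) → V) := by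
  induction n with
  | zero => simp [Ku_succ, Ku_zero, Pr_cn, Pr_nil, tr_cn]
  | succ n ih =>
    have h1 : ∀ i : Fin (n + 1), (Fin.cons h v : Fin (n + 2) → V) ∘ i.succ.succAbove =
        Fin.cons h (v ∘ i.succAbove) := fun i => funext fun j => by
      refine Fin.cases ?_ (fun j => ?_) j <;> simp
    have h2 : (Fin.cons h v : Fin (n + 2) → V) ∘ (0 : Fin (n + 2)).succAbove = v :=
      funext fun j => by simp
    rw [Ku_succ (Fin.cons h v : Fin (n + 2) → V), Fin.sum_univ_succ, h2]
    simp only [h1, ← ih]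
    rw [Ku_succ v]
    simp only [map_sum, map_smul, Pr_cn, tr_cn, Fin.cons_zero, Fin.cons_succ, Fin.val_zero,
      pow_zero, one_smul, Fin.val_succ, pow_succ, ← Finset.sum_add_distrib, tr_Pr, smul_add,
      mul_neg_one, neg_smul, sub_eq_add_neg, smul_neg]

end Pool.Agent.Lib.MP_8115c2_gt.Bu
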