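import Pool.Agent.Lib.MP_8115c2_gt.Bu.C1

/-!
Chains modulo translations, averaging and subdivision of the parallelepiped.
-/

open Finsupp

noncomputable section

namespace Pool.Agent.Lib.MP_8115c2_gt.Bu

variable {V : Type} [AddCommGroup V] {n : ℕ}

/-- The operator commutes with translations. -/
def Cm (F : Module.End ℝ (Ch V)) : Prop := ∀ h β, tr h (F β) = F (tr h β)

lemma cm_tr (k : V) : Cm (tr k) := fun h β => by rw [tr_tr, tr_tr, add_comm]

lemma Cm.mul {F G : Module.End ℝ (Ch V)} (hF : Cm F) (hG : Cm G) : Cm (F * G) := fun h β => by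
  rw [Module.End.mul_apply, hF, hG, Module.End.mul_apply]

/-- The span of the differences of a chain and its translate by a vector of `s`. -/
def NT (s : Set V) : Submodule ℝ (Ch V) := Submodule.span ℝ {β | ∃ h ∈ s, ∃ γ, β = tr h γ - γ}

lemma mem_nt {s : Set V} {h : V} (hh : h ∈ s) (γ : Ch V) : tr h γ - γ ∈ NT s :=
  Submodule.subset_span ⟨h, hh, γ, rfl⟩

lemma Cm.nt {F : Module.End ℝ (Ch V)} (hF : Cm F) {s t : Set V} (hs : s ⊆ t) {β : Ch V}
    (hβ : β ∈ NT s) : F β ∈ NT t :=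
  (Submodule.span_le (p := (NT t).comap F)).2 (by
    rintro _ ⟨h, hh, γ, rfl⟩
    change F _ ∈ NT t
    rw [map_sub, ← hF]
    exact mem_nt (hs hh) _) hβ

lemma Ku_cons (v : Fin (n + 1) → V) : Ku v = Pr (v 0) (Ku (Fin.tail v)) := by
  rw [Pr_Ku, Fin.cons_self_tail]

lemma bd_Ku_zero (v : Fin 0 → V) : bd (Ku v) = single [] 1 := by simp [Ku_zero, bd_cn, bd_nil]

lemma bd_Ku_nt (v : Fin n → V) {F : Module.End ℝ (Ch V)} (hF : Cm F) (h0 : F (single [] 1) = 0) :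
    F (bd (Ku v)) ∈ NT (Set.range v) := by
  induction n generalizing F with
  | zero => rw [bd_Ku_zero, h0]; exact zero_mem _
  | succ n ih =>
    rw [Ku_cons, bd_Pr, map_sub]
    exact sub_mem (hF.nt le_rfl (mem_nt (Set.mem_range_self 0) _))
      (hF.nt (by rintro _ ⟨i, rfl⟩; exact ⟨_, rfl⟩)
      (ih (Fin.tail v) (fun k => tr_Pr k _) (Pr_nil _ _)))

/-- Boundaries and translation differences. -/
def NB (V : Type) [AddCommGroup V] : Submodule ℝ (Ch V) := LinearMap.range bd ⊔ NT Set.univ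

lemma Ku_add (v : Fin n → V) (i : Fin n) (a b : V) : Ku (Function.update v i (a + b)) -
    Ku (Function.update v i a) - Ku (Function.update v i b) ∈ NB V := by
  induction n with
  | zero => exact i.elim0
  | succ n ih =>
    rw [Ku_cons, Ku_cons (Function.update v i a), Ku_cons (Function.update v i b)]
    refine Fin.cases ?_ (fun i => ?_) i
    · simp only [Function.update_self, Fin.tail_update_zero]
      have h := bd_Ho a b (Ku (Fin.tail v))
      have h1 : Ho a b (bd (Ku (Fin.tail v))) ∈ NT Set.univ := Cm.nt (F := 1) (fun _ _ => rfl)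
        (Set.subset_univ _) (bd_Ku_nt _ (fun k => tr_Ho k a b) (Ho_nil _ _ _))
      have h2 : bd (Ho a b (Ku (Fin.tail v))) + (tr a (Pr b (Ku (Fin.tail v))) -
          Pr b (Ku (Fin.tail v)) - Ho a b (bd (Ku (Fin.tail v)))) ∈ NB V :=
        add_mem (Submodule.mem_sup_left ⟨_, rfl⟩)
          (Submodule.mem_sup_right (sub_mem (mem_nt (Set.mem_univ a) _) h1))
      convert h2 using 1
      rw [h]
      abel
    · simp only [Fin.tail_update_succ, Function.update_of_ne (Fin.succ_ne_zero i).symm]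
      obtain ⟨_, ⟨γ, rfl⟩, ν, hν, h⟩ := Submodule.mem_sup.1 (ih (Fin.tail v) i)
      rw [← map_sub, ← map_sub, ← h, map_add, eq_sub_iff_add_eq.2
        (eq_sub_iff_add_eq'.1 (bd_Pr (v 0) γ))]
      exact add_mem (sub_mem (Submodule.mem_sup_right (mem_nt (Set.mem_univ _) _))
        (Submodule.mem_sup_left ⟨_, rfl⟩))
        (Submodule.mem_sup_right (Cm.nt (fun k => tr_Pr k _) le_rfl hν))

variable [Module ℝ V]

/-- The sum of the translations by `0, h, …, (L - 1) h`. -/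
def SL (L : ℕ) (h : V) : Module.End ℝ (Ch V) := ∑ t ∈ Finset.range L, tr ((t : ℝ) • h)

/-- The sum of the translations by the points of a box. -/
def BB (L : ℕ) (v : Fin n → V) : Module.End ℝ (Ch V) := (List.ofFn fun i => SL L (v i)).prod

lemma BB_zero (L : ℕ) (v : Fin 0 → V) (β : Ch V) : BB L v β = β := by simp [BB]

lemma BB_succ (L : ℕ) (v : Fin (n + 1) → V) (β : Ch V) :
    BB L v β = SL L (v 0) (BB L (Fin.tail v) β) := by
  rw [BB, List.ofFn_succ, List.prod_cons]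
  rfl

lemma Cm.ss {F : Module.End ℝ (Ch V)} (hF : Cm F) (L : ℕ) (h : V) (β : Ch V) :
    SL L h (F β) = F (SL L h β) := by
  simp only [SL, LinearMap.sum_apply, map_sum, hF _ β]

lemma Cm.bb {F : Module.End ℝ (Ch V)} (hF : Cm F) (L : ℕ) (v : Fin n → V) (β : Ch V) :
    BB L v (F β) = F (BB L v β) := by
  induction n with
  | zero => rw [BB_zero, BB_zero]
  | succ n ih => rw [BB_succ, BB_succ, ih, hF.ss]

lemma cm_ss (L : ℕ) (h : V) : Cm (SL L h) := fun k β => ((cm_tr k).ss L h β).symm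

lemma ss_tel (L : ℕ) (h : V) (γ : Ch V) : SL L h (tr h γ - γ) = tr ((L : ℝ) • h) γ - γ := by
  have := Finset.sum_range_sub (fun t : ℕ => tr ((t : ℝ) • h) γ) L
  simp only [Nat.cast_zero, zero_smul, tr_zero] at this
  simp only [SL, LinearMap.sum_apply, map_sub, tr_tr, ← this, Nat.cast_succ, add_smul, one_smul,
    Finset.sum_sub_distrib]

lemma bb_mem {T : Submodule ℝ (Ch V)} (hT : ∀ h, ∀ β ∈ T, tr h β ∈ T) (L : ℕ) (v : Fin n → V)
    {β : Ch V} (hβ : β ∈ T) : BB L v β ∈ T := by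
  induction n with
  | zero => rwa [BB_zero]
  | succ n ih =>
    rw [BB_succ, SL, LinearMap.sum_apply]
    exact sum_mem fun _ _ => hT _ _ (ih _)

/-- The span of the chains that lie in an affine subspace of dimension less than `k`. -/
def Th (V : Type) [AddCommGroup V] [Module ℝ V] (k : ℕ) : Submodule ℝ (Ch V) :=
  Submodule.span ℝ {β | ∃ (t : Finset V) (x : V), t.card < k ∧
    β ∈ Sup {y | y - x ∈ Submodule.span ℝ (t : Set V)}}

lemma th_tr {k : ℕ} (h : V) : ∀ β ∈ Th V k, tr h β ∈ Th V k := fun _ hβ =>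
  (Submodule.span_le (p := (Th V k).comap (tr h))).2 (by
    rintro β ⟨t, x, ht, hβ⟩
    exact Submodule.subset_span ⟨t, x + h, ht, mp_sup (fun y hy => by simpa using hy) hβ⟩) hβ

/-- The operator raises the dimension by at most one. -/
def Rs (F : Module.End ℝ (Ch V)) : Prop :=
  (∀ k, ∀ β ∈ Th V k, F β ∈ Th V (k + 1)) ∧ F (single [] 1) = 0

lemma rs_of (a : V) {F : Module.End ℝ (Ch V)} (h0 : F (single [] 1) = 0)
    (h : ∀ s : Set V, (∀ c : ℝ, Set.MapsTo (· + c • a) s s) → ∀ β ∈ Sup s, F β ∈ Sup s) :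
    Rs F := by
  classical
  refine ⟨fun k _ hβ => (Submodule.span_le (p := (Th V (k + 1)).comap F)).2 ?_ hβ, h0⟩
  rintro β ⟨t, x, ht, hβ⟩
  refine Submodule.subset_span ⟨insert a t, x, (Finset.card_insert_le _ _).trans_lt (by omega),
    h _ (fun c y hy => ?_) _ (supported_mono (fun l hl y hy => ?_) hβ)⟩
  · rw [Set.mem_ofPred_eq, add_sub_right_comm]
    exact add_mem hy (Submodule.smul_mem _ _ (Submodule.subset_span (by simp)))
  · exact Submodule.span_mono (by simp) (hl y hy)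

omit [Module ℝ V] in
lemma Pr_sup {s : Set V} {h : V} (hs : Set.MapsTo (· + h) s s) {β : Ch V} (hβ : β ∈ Sup s) :
    Pr h β ∈ Sup s :=
  rc_sup _ (fun x hx β hβ => show cn x (cn (x + h) (tr h β)) ∈ _ from
    cn_sup hx (cn_sup (hs hx) (mp_sup hs hβ))) hβ

lemma rs_Pr (a : V) : Rs (Pr a) :=
  rs_of a (Pr_nil _ _) fun _ hs _ hβ => Pr_sup (by simpa using hs 1) hβ

lemma rs_Ho (c : ℝ) (a : V) : Rs (Ho (c • a) a) :=
  rs_of a (Ho_nil _ _ _) fun _ hs _ hβ => rc_sup _ (fun x hx β hβ =>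
    show -cn x (tr (c • a) (Pr a (cn x β))) ∈ _ from neg_mem (cn_sup hx
      (mp_sup (hs c) (Pr_sup (by simpa using hs 1) (cn_sup hx hβ))))) hβ

lemma Ku_th (v : Fin n → V) : Ku v ∈ Th V (n + 1) := by
  induction n with
  | zero =>
    rw [Ku_zero, cn_single]
    exact Submodule.subset_span ⟨∅, 0, by simp, single_sup (by simp) 1⟩
  | succ n ih => rw [Ku_cons]; exact (rs_Pr _).1 _ _ (ih _)

lemma bd_Ku_th (v : Fin n → V) {F : Module.End ℝ (Ch V)} (hF : Rs F) :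
    F (bd (Ku v)) ∈ Th V (n + 1) := by
  induction n generalizing F with
  | zero => rw [bd_Ku_zero, hF.2]; exact zero_mem _
  | succ n ih =>
    rw [Ku_cons, bd_Pr]
    exact hF.1 _ _ (sub_mem (sub_mem (th_tr _ _ (Ku_th _)) (Ku_th _)) (ih _ (rs_Pr _)))

lemma Pr_mul (L : ℕ) (a : V) : ∃ Y : Module.End ℝ (Ch V), Rs Y ∧ ∀ β,
    Pr (((L + 1 : ℕ) : ℝ) • a) β = SL (L + 1) a (Pr a β) + bd (Y β) - Y (bd β) := by
  induction L with
  | zero => exact ⟨0, ⟨fun _ _ _ => zero_mem _, rfl⟩, fun β => by simp [SL, tr_zero]⟩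
  | succ L ih =>
    obtain ⟨Y, hY, h⟩ := ih
    have h1 := rs_Ho ((L + 1 : ℕ) : ℝ) a
    refine ⟨Y + Ho (((L + 1 : ℕ) : ℝ) • a) a, ⟨fun k β hβ => add_mem (hY.1 k β hβ) (h1.1 k β hβ),
      by rw [LinearMap.add_apply, hY.2, h1.2, add_zero]⟩, fun β => ?_⟩
    rw [SL, Finset.sum_range_succ, ← SL, LinearMap.add_apply, LinearMap.add_apply,
      LinearMap.add_apply, map_add, bd_Ho, h, Nat.cast_succ (L + 1), add_smul, one_smul]
    abel

lemma Ku_sub (L : ℕ) (v : Fin n → V) : ∃ γ ∈ Th V (n + 1), ∃ θ ∈ Th V n,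
    Ku (((L + 1 : ℕ) : ℝ) • v) = BB (L + 1) v (Ku v) + bd γ + θ := by
  induction n with
  | zero => exact ⟨0, zero_mem _, 0, zero_mem _, by simp [Ku_zero, BB_zero]⟩
  | succ n ih =>
    obtain ⟨γ, hγ, θ, hθ, h⟩ := ih (Fin.tail v)
    obtain ⟨Y, hY, h1⟩ := Pr_mul L (v 0)
    set a := ((L + 1 : ℕ) : ℝ) • v 0
    have h2 : Ku (((L + 1 : ℕ) : ℝ) • v) = Pr a (Ku (((L + 1 : ℕ) : ℝ) • Fin.tail v)) := Ku_cons _
    refine ⟨BB (L + 1) (Fin.tail v) (Y (Ku (Fin.tail v))) - Pr a γ,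
      sub_mem (bb_mem th_tr _ _ (hY.1 _ _ (Ku_th _))) ((rs_Pr a).1 _ _ hγ),
      tr a γ - γ + Pr a θ - BB (L + 1) (Fin.tail v) (Y (bd (Ku (Fin.tail v)))),
      sub_mem (add_mem (sub_mem (th_tr _ _ hγ) hγ) ((rs_Pr a).1 _ _ hθ))
        (bb_mem th_tr _ _ (bd_Ku_th _ hY)), ?_⟩
    rw [h2, h, map_add, map_add, ← Cm.bb (fun k => tr_Pr k a), h1, map_sub, map_add,
      (cm_ss _ _).bb, Cm.bb tr_bd, ← Ku_cons, ← BB_succ, map_sub, bd_Pr]
    abel

variable {M : Seminorm ℝ (Ch V)}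

lemma ss_le (hM : ∀ h β, M (tr h β) ≤ M β) (L : ℕ) (h : V) (β : Ch V) :
    M (SL L h β) ≤ L * M β := by
  rw [SL, LinearMap.sum_apply]
  refine (Finset.le_sum_of_subadditive M (map_zero M).le (map_add_le_add M) _ _).trans ?_
  simpa using Finset.sum_le_card_nsmul (Finset.range L) _ _ fun t _ => hM ((t : ℝ) • h) β

lemma bb_le (hM : ∀ h β, M (tr h β) ≤ M β) (L : ℕ) (v : Fin n → V) (β : Ch V) :
    M (BB L v β) ≤ L ^ n * M β := by
  induction n with
  | zero => simp [BB_zero]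
  | succ n ih =>
    rw [BB_succ, pow_succ', mul_assoc]
    exact (ss_le hM _ _ _).trans (mul_le_mul_of_nonneg_left (ih _) L.cast_nonneg)

omit [Module ℝ V] in
lemma tel_le (hM : ∀ h β, M (tr h β) ≤ M β) (h : V) (γ : Ch V) : M (tr h γ - γ) ≤ 2 * M γ := by
  linarith [map_sub_le_add M (tr h γ) γ, hM h γ]

lemma bb_gen (hM : ∀ h β, M (tr h β) ≤ M β) (L : ℕ) (v : Fin n → V) (i : Fin n) (γ : Ch V) :
    L * M (BB L v (tr (v i) γ - γ)) ≤ 2 * M γ * L ^ n := by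
  induction n with
  | zero => exact i.elim0
  | succ n ih =>
    have hL : (0 : ℝ) ≤ L := L.cast_nonneg
    rw [BB_succ, pow_succ]
    refine Fin.cases ?_ (fun i => ?_) i
    · rw [map_sub (BB L _), (cm_tr _).bb, ss_tel]
      nlinarith [mul_le_mul_of_nonneg_left ((tel_le hM ((L : ℝ) • v 0) _).trans
        (mul_le_mul_of_nonneg_left (bb_le hM L (Fin.tail v) γ) zero_le_two)) hL]
    · have h : _ ≤ 2 * M γ * L ^ n := (ss_le hM L (v 0) _).trans (ih (Fin.tail v) i)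
      exact (mul_le_mul_of_nonneg_left h hL).trans_eq (by ring)

lemma bb_nt (hM : ∀ h β, M (tr h β) ≤ M β) (v : Fin n → V) {ν : Ch V}
    (hν : ν ∈ NT (Set.range v)) : ∃ C : ℝ, ∀ L : ℕ, L * M (BB L v ν) ≤ C * L ^ n := by
  induction hν using Submodule.span_induction with
  | mem _ h =>
    obtain ⟨_, ⟨i, rfl⟩, γ, rfl⟩ := h
    exact ⟨_, fun L => bb_gen hM L v i γ⟩
  | zero => exact ⟨0, fun L => by simp⟩
  | add a b _ _ ha hb =>
    obtain ⟨C, ha⟩ := ha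
    obtain ⟨C', hb⟩ := hb
    refine ⟨C + C', fun L => ?_⟩
    rw [map_add]
    linarith [mul_le_mul_of_nonneg_left (map_add_le_add M (BB L v a) (BB L v b)) L.cast_nonneg,
      ha L, hb L]
  | smul c a _ ha =>
    obtain ⟨C, ha⟩ := ha
    refine ⟨‖c‖ * C, fun L => ?_⟩
    rw [map_smul, map_smul_eq_mul]
    linarith [mul_le_mul_of_nonneg_left (ha L) (norm_nonneg c)]

/-- Averaging operators. -/
def Av (M : Seminorm ℝ (Ch V)) (F : Module.End ℝ (Ch V)) : Prop :=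
  (∀ β, M (F β) ≤ M β) ∧ Cm F ∧ ∃ Q : Module.End ℝ (Ch V), Cm Q ∧ Q (single [] 1) = 0 ∧
    ∀ β, bd (Q β) = F β - β - Q (bd β)

omit [Module ℝ V] in
lemma Av.bd {F : Module.End ℝ (Ch V)} (hF : Av M F) (β : Ch V) : bd (F β) = F (bd β) := by
  obtain ⟨-, -, Q, -, -, h⟩ := hF
  have h1 := congrArg Bu.bd (h β)
  rw [bd_bd, map_sub, map_sub, h (Bu.bd β), bd_bd, map_zero] at h1
  rw [← sub_eq_zero, h1]
  abel

omit [Module ℝ V] in
lemma Av.mul {F G : Module.End ℝ (Ch V)} (hF : Av M F) (hG : Av M G) : Av M (F * G) := by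
  have h0 := hF.bd
  obtain ⟨h1, h2, Q, h3, h4, h5⟩ := hF
  obtain ⟨g1, g2, R, g3, g4, g5⟩ := hG
  refine ⟨fun β => (h1 _).trans (g1 β), h2.mul g2, F * R + Q, fun h β => ?_, by simp [h4, g4],
    fun β => ?_⟩
  · rw [LinearMap.add_apply, map_add, h2.mul g3, h3, LinearMap.add_apply]
  · simp only [LinearMap.add_apply, Module.End.mul_apply, map_add, h0, g5, h5, map_sub]
    abel

omit [Module ℝ V] in
lemma av_one : Av M 1 := ⟨fun _ => le_rfl, fun _ _ => rfl, 0, fun _ _ => by simp, rfl, by simp⟩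

lemma av_ss (hM : ∀ h β, M (tr h β) ≤ M β) {L : ℕ} (hL : 0 < L) (h : V) :
    Av M ((L : ℝ)⁻¹ • SL L h) := by
  have h0 : (0 : ℝ) < L := Nat.cast_pos.2 hL
  refine ⟨fun β => ?_, fun k β => by simp [cm_ss L h k β],
    (L : ℝ)⁻¹ • ∑ t ∈ Finset.range L, Pr ((t : ℝ) • h), fun k β => by simp [tr_Pr],
    by simp [Pr_nil], fun β => ?_⟩
  · rw [LinearMap.smul_apply, map_smul_eq_mul, Real.norm_of_nonneg (inv_pos.2 h0).le,
      inv_mul_le_iff₀ h0]
    exact ss_le hM L h β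
  · simp [bd_Pr, SL, smul_sub, ← Nat.cast_smul_eq_nsmul ℝ, smul_smul, h0.ne']

lemma av_nt (hM : ∀ h β, M (tr h β) ≤ M β) {ν : Ch V} (hν : ν ∈ NT Set.univ) :
    ∀ F, Av M F → ∀ ε > 0, ∃ G, Av M G ∧ M (G (F ν)) ≤ ε := by
  induction hν using Submodule.span_induction with
  | mem _ h =>
    obtain ⟨h, -, γ, rfl⟩ := h
    intro F hF ε hε
    obtain ⟨L, hL⟩ := exists_nat_gt (2 * M (F γ) / ε)
    have h0 : (0 : ℝ) < L := lt_of_le_of_lt (by positivity) hL
    refine ⟨_, av_ss hM (Nat.cast_pos.1 h0) h, ?_⟩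
    rw [map_sub F, ← hF.2.1, LinearMap.smul_apply, ss_tel, map_smul_eq_mul,
      Real.norm_of_nonneg (inv_pos.2 h0).le, inv_mul_le_iff₀ h0]
    exact (tel_le hM _ _).trans ((div_lt_iff₀ hε).1 hL).le
  | zero => exact fun F _ ε hε => ⟨1, av_one, by simpa using hε.le⟩
  | add a b _ _ ha hb =>
    intro F hF ε hε
    obtain ⟨G, hG, h1⟩ := ha F hF _ (half_pos hε)
    obtain ⟨G', hG', h2⟩ := hb _ (hG.mul hF) _ (half_pos hε)
    refine ⟨_, hG'.mul hG, ?_⟩
    simp only [map_add, Module.End.mul_apply] at h2 ⊢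
    linarith [map_add_le_add M (G' (G (F a))) (G' (G (F b))), hG'.1 (G (F a))]
  | smul c a _ ha =>
    intro F hF ε hε
    obtain ⟨G, hG, h1⟩ := ha F hF (ε / (‖c‖ + 1)) (by positivity)
    refine ⟨G, hG, ?_⟩
    rw [map_smul, map_smul, map_smul_eq_mul]
    rw [le_div_iff₀ (by positivity)] at h1
    nlinarith [apply_nonneg M (G (F a))]

theorem fill_big (hM : ∀ h β, M (tr h β) ≤ M β) (hT : ∀ β ∈ Th V n, M β = 0) (v : Fin n → V)
    {α : Ch V} (hα : α - Ku v ∈ NB V) (h1 : M α < 1) :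
    ∃ L : ℕ, 0 < L ∧ ∃ β, bd β = bd (Ku ((L : ℝ) • v)) ∧ M β < L ^ n := by
  obtain ⟨_, ⟨γ₀, rfl⟩, ν, hν, h⟩ := Submodule.mem_sup.1 hα
  obtain ⟨G, hG, h2⟩ := av_nt hM hν 1 av_one ((1 - M α) / 2) (by linarith)
  have hb := hG.bd
  obtain ⟨g1, -, Q, g3, g4, g5⟩ := hG
  obtain ⟨C, hC⟩ := bb_nt hM v (bd_Ku_nt v g3 g4)
  obtain ⟨L, hL⟩ := exists_nat_gt (C / ((1 - M α) / 2))
  obtain ⟨γ, -, θ, hθ, h3⟩ := Ku_sub L v
  refine ⟨L + 1, L.succ_pos, BB (L + 1) v (G (α - ν)) - BB (L + 1) v (Q (bd (Ku v))) + θ, ?_, ?_⟩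
  · have h4 : α - ν = Ku v + bd γ₀ := by rw [sub_eq_iff_eq_add, add_assoc, h, add_sub_cancel]
    rw [h3, ← map_sub, map_add, map_add, map_add, bd_bd, add_zero, ← Cm.bb tr_bd, ← Cm.bb tr_bd,
      map_sub, g5, hb, h4, map_add, bd_bd, bd_bd, map_zero, add_zero, sub_zero, sub_sub_cancel]
  · have h4 : M (G (α - ν)) ≤ M α + (1 - M α) / 2 := by
      rw [map_sub]
      exact (map_sub_le_add M _ _).trans (add_le_add (g1 α) h2)
    have h5 := (bb_le hM (L + 1) v _).trans (mul_le_mul_of_nonneg_left h4 (by positivity))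
    have h6 := hC (L + 1)
    have h7 : (0 : ℝ) < (L + 1 : ℕ) := by positivity
    have h8 : C < (L + 1 : ℕ) * ((1 - M α) / 2) :=
      (div_lt_iff₀ (by linarith)).1 (hL.trans (Nat.cast_lt.2 L.lt_succ_self))
    have h9 : M (BB (L + 1) v (Q (bd (Ku v)))) < (1 - M α) / 2 * ((L + 1 : ℕ) : ℝ) ^ n :=
      lt_of_mul_lt_mul_left (by nlinarith [mul_lt_mul_of_pos_right h8 (pow_pos h7 n)]) h7.le
    linarith [map_add_le_add M (BB (L + 1) v (G (α - ν)) - BB (L + 1) v (Q (bd (Ku v)))) θ,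
      map_sub_le_add M (BB (L + 1) v (G (α - ν))) (BB (L + 1) v (Q (bd (Ku v)))), hT θ hθ]

end Pool.Agent.Lib.MP_8115c2_gt.Bu
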