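import Pool.Agent.Lib.MP_8115c2_gt.Bu.C2

/-!
The mass seminorm, the separating alternating form, and rational and integral chains.
-/

open Finsupp

noncomputable section

namespace Pool.Agent.Lib.MP_8115c2_gt.Bu

variable {V : Type} {n : ℕ}

/-- The mass of a chain for the weight `w`. -/
def Ms (w : List V → NNReal) : Seminorm ℝ (Ch V) :=
  Seminorm.of (fun β => β.sum fun l c => |c| * w l)
    (fun β γ => by
      classical
      have h : ∀ δ : Ch V, δ.support ⊆ β.support ∪ γ.support → (δ.sum fun l c => |c| * (w l : ℝ)) =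
          ∑ l ∈ β.support ∪ γ.support, |δ l| * w l := fun δ hδ =>
        sum_of_support_subset _ hδ _ (by simp)
      rw [h _ support_add, h _ Finset.subset_union_left, h _ Finset.subset_union_right,
        ← Finset.sum_add_distrib]
      exact Finset.sum_le_sum fun l _ => by
        rw [← add_mul]
        exact mul_le_mul_of_nonneg_right (abs_add_le _ _) (w l).2)
    fun c β => by
      rw [sum_smul_index' (by simp), mul_sum]
      simp [abs_mul, mul_assoc]

lemma Ms_apply (w : List V → NNReal) (β : Ch V) : Ms w β = β.sum fun l c => |c| * w l := rfl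

lemma Ms_single (w : List V → NNReal) (l : List V) (c : ℝ) : Ms w (single l c) = |c| * w l := by
  rw [Ms_apply, sum_single_index (by simp)]

lemma Ms_le {w : List V → NNReal} {F : Module.End ℝ (Ch V)} {K : ℝ}
    (h : ∀ l, Ms w (F (single l 1)) ≤ K * w l) (β : Ch V) : Ms w (F β) ≤ K * Ms w β := by
  conv_lhs => rw [← β.sum_single, Finsupp.sum, map_sum]
  refine (Finset.le_sum_of_subadditive _ (map_zero _).le (map_add_le_add _) _ _).trans ?_
  rw [Ms_apply w β, Finsupp.sum, Finset.mul_sum]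
  refine Finset.sum_le_sum fun l _ => ?_
  rw [← smul_single_one, map_smul, map_smul_eq_mul, mul_left_comm]
  exact mul_le_mul_of_nonneg_left (h l) (abs_nonneg _)

/-- The part of a chain carried by lists of length `k`. -/
def pj (k : ℕ) : Module.End ℝ (Ch V) :=
  linearCombination ℝ fun l => if l.length = k then single l 1 else 0

lemma pj_single (k : ℕ) (l : List V) (c : ℝ) :
    pj k (single l c) = if l.length = k then single l c else 0 := by
  simp [pj]

lemma bd_pj (k : ℕ) (β : Ch V) : bd (pj (k + 1) β) = pj k (bd β) :=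
  LinearMap.congr_fun (op_ext (F := bd * pj (k + 1)) (G := pj k * bd) fun l => by
    simp only [Module.End.mul_apply, bd_single, map_sum, pj_single]
    split_ifs with h
    · rw [bd_single]
      exact Finset.sum_congr rfl fun i hi => (if_pos (by
        rw [List.length_eraseIdx_of_lt (Finset.mem_range.1 hi), h]; rfl)).symm
    · rw [map_zero]
      exact (Finset.sum_eq_zero fun i hi => if_neg (by
        have := Finset.mem_range.1 hi
        rw [List.length_eraseIdx_of_lt this]
        omega)).symm) β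

lemma pj_supp (k : ℕ) (β : Ch V) : ∀ l ∈ (pj k β).support, l.length = k := by
  have h : pj k β ∈ supported ℝ ℝ {l : List V | l.length = k} := by
    rw [pj, linearCombination_apply]
    refine Submodule.finsuppSum_mem _ _ _ _ fun l _ => Submodule.smul_mem _ _ ?_
    split_ifs with h
    exacts [single_mem_supported ℝ 1 h, zero_mem _]
  exact fun l hl => (mem_supported ℝ _).1 h hl

lemma Ms_pj (w : List V → NNReal) (k : ℕ) (β : Ch V) : Ms w (pj k β) ≤ Ms w β := by
  simpa using Ms_le (w := w) (F := pj k) (K := 1) (fun l => by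
    rw [pj_single]
    split_ifs
    · simp [Ms_single]
    · simp) β

lemma exists_rat (S : Finset ℝ) {ε : ℝ} (hε : 0 < ε) :
    ∃ φ : ℝ →ₗ[ℚ] ℚ, φ 1 = 1 ∧ ∀ s ∈ S, |(φ s : ℝ) - s| ≤ ε := by
  classical
  have h1 : LinearIndepOn ℚ id ({1} : Set ℝ) := LinearIndepOn.singleton one_ne_zero
  let b := Module.Basis.extend h1
  let C : ℝ → ℝ := fun s => ∑ i ∈ (b.repr s).support, |((b.repr s i : ℚ) : ℝ)|
  have hC : ∀ s, 0 ≤ C s := fun s => Finset.sum_nonneg fun _ _ => abs_nonneg _
  have h0 : 0 < ∑ s ∈ S, C s + 1 := by linarith [Finset.sum_nonneg fun s (_ : s ∈ S) => hC s]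
  have h2 : ∀ x : ℝ, ∃ q : ℚ, |(q : ℝ) - x| ≤ ε / (∑ s ∈ S, C s + 1) ∧ (x = 1 → q = 1) := fun x => by
    by_cases hx : x = 1
    · exact ⟨1, by simp [hx, (div_pos hε h0).le], fun _ => rfl⟩
    · obtain ⟨q, hq⟩ := exists_rat_near x (div_pos hε h0)
      exact ⟨q, by rw [abs_sub_comm]; exact hq.le, fun h => absurd h hx⟩
  choose q hq hq1 using h2
  have hb : ∀ i, b i = i := Module.Basis.extend_apply_self h1
  refine ⟨b.constr ℚ fun i => q i, ?_, fun s hs => ?_⟩
  · have := b.constr_basis ℚ (fun i => q i) ⟨1, h1.subset_extend _ rfl⟩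
    rwa [hb, hq1 _ rfl] at this
  · have h3 : ((b.constr ℚ (fun i => q i) s : ℚ) : ℝ) - s =
        ∑ i ∈ (b.repr s).support, (b.repr s i : ℝ) * (q i - i) := by
      have h4 := b.linearCombination_repr s
      rw [linearCombination_apply, Finsupp.sum] at h4
      simp only [hb, Rat.smul_def] at h4
      simp only [mul_sub, Finset.sum_sub_distrib, h4]
      simp [b.constr_apply, Finsupp.sum]
    rw [h3]
    refine (Finset.abs_sum_le_sum_abs _ _).trans ((Finset.sum_le_sum fun i _ =>
      (abs_mul _ _).trans_le (mul_le_mul_of_nonneg_left (hq i.1) (abs_nonneg _))).trans ?_)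
    rw [← Finset.sum_mul, ← mul_div_assoc, div_le_iff₀ h0, mul_comm]
    exact mul_le_mul_of_nonneg_left (by
      linarith [Finset.single_le_sum (fun s (_ : s ∈ S) => hC s) hs]) hε.le

/-- An integral chain seen as a real chain. -/
def io : (List V →₀ ℤ) →+ Ch V := mapRange.addMonoidHom (Int.castAddHom ℝ)

lemma io_apply (α : List V →₀ ℤ) (l : List V) : io α l = α l := rfl

lemma io_single (l : List V) (c : ℤ) : io (single l c) = single l (c : ℝ) :=
  mapRange_single (hf := map_zero _)

lemma io_inj : Function.Injective (io : (List V →₀ ℤ) → Ch V) := fun α β h =>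
  Finsupp.ext fun l => Int.cast_injective (α := ℝ) (by rw [← io_apply, h, io_apply])

lemma exists_int (w : List V → NNReal) {β : Ch V} {z : List V →₀ ℤ} (h : bd β = io z)
    (h1 : Ms w β < 1) : ∃ (k : ℕ) (α : List V →₀ ℤ), α.support ⊆ β.support ∧
      bd (io α) = k • io z ∧ Ms w (io α) < k := by
  classical
  have h0 : 0 < ∑ l ∈ β.support, (w l : ℝ) + 1 := by positivity
  obtain ⟨φ, h2, h3⟩ := exists_rat (β.support.image β) (div_pos (sub_pos.2 h1) h0)
  let ψ : ℝ →+ ℝ := (Rat.castHom ℝ).toAddMonoidHom.comp φ.toAddMonoidHom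
  have hψ : ∀ (m : ℤ) (c : ℝ), ψ (m * c) = m * ψ c := fun m c => by
    simpa using map_zsmul ψ m c
  let Φ : Ch V →+ Ch V := mapRange.addMonoidHom ψ
  have h4 : ∀ l c, Φ (single l c) = single l (ψ c) := fun l c =>
    mapRange_single (hf := map_zero _)
  have h5 : Φ.comp bd.toAddMonoidHom = bd.toAddMonoidHom.comp Φ := addHom_ext fun l c => by
    change Φ (bd _) = bd (Φ _)
    rw [h4, bd_single, bd_single, map_sum]
    refine Finset.sum_congr rfl fun i _ => ?_
    rw [h4]
    simpa [-single_mul] using congrArg (single (l.eraseIdx i)) (hψ ((-1) ^ i) c)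
  have h6 : bd (Φ β) = io z := by
    rw [← show Φ (bd β) = bd (Φ β) from DFunLike.congr_fun h5 β, h]
    ext l
    change ψ (z l) = z l
    simpa [ψ, h2] using hψ (z l) 1
  have h7 : Ms w (Φ β) < 1 := by
    have : Ms w (Φ β) ≤ Ms w β + (1 - Ms w β) / (∑ l ∈ β.support, (w l : ℝ) + 1) *
        ∑ l ∈ β.support, (w l : ℝ) := by
      rw [Ms_apply, sum_of_support_subset (Φ β) (s := β.support)
        (support_mapRange (hf := map_zero ψ)) _ (by simp), Finset.mul_sum]
      nth_rw 1 [Ms_apply]
      rw [Finsupp.sum, ← Finset.sum_add_distrib]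
      refine Finset.sum_le_sum fun l hl => ?_
      rw [← add_mul]
      refine mul_le_mul_of_nonneg_right ?_ (w l).2
      have := h3 _ (Finset.mem_image_of_mem β hl)
      linarith [abs_sub_abs_le_abs_sub (φ (β l) : ℝ) (β l),
        show |(Φ β) l| = |(φ (β l) : ℝ)| from rfl]
    rw [div_mul_eq_mul_div, ← sub_le_iff_le_add', le_div_iff₀ h0] at this
    nlinarith
  let k : ℕ := ∏ l ∈ β.support, (φ (β l)).den
  have hk : 0 < k := Finset.prod_pos fun _ _ => Rat.pos _
  let α : List V →₀ ℤ := β.mapRange (fun c => (k * φ c).num) (by simp)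
  have h8 : io α = k • Φ β := by
    ext l
    change ((((k : ℚ) * φ (β l)).num : ℤ) : ℝ) = k • (φ (β l) : ℝ)
    by_cases hl : l ∈ β.support
    · obtain ⟨m, hm⟩ : (φ (β l)).den ∣ k := Finset.dvd_prod_of_mem _ hl
      have : (k : ℚ) * φ (β l) = ((m * (φ (β l)).num : ℤ) : ℚ) := by
        rw [hm]
        push_cast
        rw [← Rat.mul_den_eq_num]
        ring
      rw [this, Rat.num_intCast, ← Rat.cast_intCast (α := ℝ), ← this]
      simp
    · simp [notMem_support_iff.1 hl]
  refine ⟨k, α, support_mapRange, by rw [h8, map_nsmul, h6], ?_⟩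
  rw [h8, ← Nat.cast_smul_eq_nsmul ℝ, map_smul_eq_mul, Real.norm_natCast]
  exact mul_lt_of_lt_one_right (Nat.cast_pos.2 hk) h7

variable [AddCommGroup V]

lemma pj_Ku (v : Fin n → V) : pj (n + 1) (Ku v) = Ku v := by
  simp [Ku, pj_single]

lemma mp_Ku (f : V →+ V) (v : Fin n → V) : mq f (Ku v) = Ku (f ∘ v) := by
  rw [Ku, map_sum]
  refine Finset.sum_congr rfl fun σ _ => ?_
  rw [mp_single, List.map_ofFn]
  congr 2
  funext k
  simp only [Function.comp_apply, Fin.partialSum, map_list_sum, List.map_take, List.map_ofFn]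
  rfl

variable [Module ℝ V]

lemma Ku_sup (W : Submodule ℝ V) (v : Fin n → V) (h : ∀ i, v i ∈ W) : Ku v ∈ Sup (W : Set V) := by
  induction n with
  | zero => rw [Ku_zero, cn_single]; exact single_sup (by simp) 1
  | succ n ih =>
    rw [Ku_cons]
    exact Pr_sup (fun _ hx => add_mem hx (h 0)) (ih _ fun i => h _)

lemma Ku_th_eq (v : Fin n → V) {i j : Fin n} (h : v i = v j) (hij : i ≠ j) : Ku v ∈ Th V n := by
  classical
  refine Submodule.subset_span ⟨(Finset.univ.erase i).image v, 0, Finset.card_image_le.trans_lt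
    (by simpa using Finset.card_erase_lt_of_mem (Finset.mem_univ i)), ?_⟩
  simp only [sub_zero]
  refine Ku_sup _ v fun k => Submodule.subset_span ?_
  by_cases hk : k = i
  · exact Finset.mem_image.2 ⟨j, by simp [hij.symm], by rw [hk, h]⟩
  · exact Finset.mem_image.2 ⟨k, by simp [hk], rfl⟩

theorem exists_alt {M : Seminorm ℝ (Ch V)} (hT : ∀ β ∈ Th V n, M β = 0)
    (hb : ∀ (a : Fin n → V) i x, ∃ C : ℝ, ∀ t : ℝ, t ≠ 0 →
      M (Ku (Function.update a i (t • x))) ≤ C * |t|)
    (v : Fin n → V) (h : ∀ α, α - Ku v ∈ NB V → 1 ≤ M α) :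
    ∃ f : V [⋀^Fin n]→ₗ[ℝ] ℝ, f v = 1 ∧ ∀ a, f a ≤ M (Ku a) := by
  have h0 : Ku v ∉ NB V := fun h0 => by
    have := h 0 (by simpa using h0)
    norm_num at this
  let f₀ : Ch V →ₗ.[ℝ] ℝ := ⟨NB V, 0⟩
  obtain ⟨g, h1, h2⟩ := exists_extension_of_le_sublinear (f₀.supSpanSingleton (Ku v) 1 h0) M
    (fun c hc x => by rw [map_smul_eq_mul, Real.norm_of_nonneg hc.le]) (map_add_le_add M) (by
      rintro ⟨_, hx⟩
      obtain ⟨ν, hν, _, hy, rfl⟩ := Submodule.mem_sup.1 hx
      obtain ⟨t, rfl⟩ := Submodule.mem_span_singleton.1 hy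
      refine (f₀.supSpanSingleton_apply_mk (Ku v) 1 h0 ν hν t).trans_le ?_
      change 0 + t • (1 : ℝ) ≤ M (ν + t • Ku v)
      rw [zero_add, smul_eq_mul, mul_one]
      rcases le_or_gt t 0 with ht | ht
      · exact ht.trans (apply_nonneg _ _)
      · have := h (t⁻¹ • (ν + t • Ku v)) (by
          rw [smul_add, smul_smul, inv_mul_cancel₀ ht.ne', one_smul, add_sub_cancel_right]
          exact Submodule.smul_mem _ _ hν)
        rwa [map_smul_eq_mul, Real.norm_of_nonneg (inv_pos.2 ht).le, le_inv_mul_iff₀ ht,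
          mul_one] at this)
  have h3 : ∀ ν ∈ NB V, g ν = 0 := fun ν hν =>
    (h1 ⟨ν, Submodule.mem_sup_left hν⟩).trans (f₀.supSpanSingleton_apply_mk_of_mem 1 h0 hν)
  have h4 : ∀ β, |g β| ≤ M β := fun β =>
    abs_le.2 ⟨by have := h2 (-β); rw [map_neg, map_neg_eq_map] at this; linarith, h2 β⟩
  have h5 : ∀ (a : Fin n → V) i x y, g (Ku (Function.update a i (x + y))) =
      g (Ku (Function.update a i x)) + g (Ku (Function.update a i y)) := fun a i x y => by
    have := h3 _ (Ku_add a i x y)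
    rw [map_sub, map_sub] at this
    linarith
  refine ⟨⟨MultilinearMap.mk' (fun a => g (Ku a)) h5 fun a i c x => ?_, fun a i j h hij =>
    abs_nonpos_iff.1 ((h4 _).trans_eq (hT _ (Ku_th_eq a h hij)))⟩,
    (h1 ⟨_, Submodule.mem_sup_right (Submodule.mem_span_singleton_self _)⟩).trans
      (f₀.supSpanSingleton_apply_self 1 h0), fun a => h2 _⟩
  obtain ⟨C, hC⟩ := hb a i x
  let ψ : ℝ →+ ℝ := AddMonoidHom.mk' (fun t => g (Ku (Function.update a i (t • x))))
    fun s t => by rw [add_smul, h5]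
  have h6 : Continuous ψ := AddMonoidHomClass.continuous_of_bound ψ C fun t => by
    by_cases ht : t = 0
    · simp [ht]
    · exact (h4 _).trans (hC t ht)
  simpa [ψ] using map_real_smul ψ h6 c 1

end Pool.Agent.Lib.MP_8115c2_gt.Bu
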