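import Pool.Agent.Lib.MP_8115c2_gt.Bu.A

/-!
From minors to alternating maps, and the Hausdorff measure form of the statement.
-/

open MeasureTheory Set Metric

noncomputable section

namespace Pool.Agent.Lib.MP_8115c2_gt.Bu

variable {n N : ℕ}

lemma alt_minors {W : Type} [AddCommGroup W] [Module ℝ W]
    (α : (Fin N → ℝ) [⋀^Fin n]→ₗ[ℝ] W) (A : Matrix (Fin N) (Fin n) ℝ) :
    (n.factorial : ℝ) • α A.transpose =
      ∑ I : Fin n → Fin N, (A.submatrix I id).det • α fun j => Pi.single (I j) 1 := by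
  have h1 : α A.transpose =
      ∑ I : Fin n → Fin N, (∏ j, A (I j) j) • α fun j => Pi.single (I j) 1 := by
    have h : A.transpose = fun j => ∑ k, A k j • (Pi.single k 1 : Fin N → ℝ) := by
      funext j k
      simp [Finset.sum_apply, Pi.single_apply]
    rw [h]
    exact (α.toMultilinearMap.map_sum _).trans
      (Finset.sum_congr rfl fun I _ => α.toMultilinearMap.map_smul_univ _ _)
  have h2 : ∀ σ : Equiv.Perm (Fin n), α A.transpose = ∑ I : Fin n → Fin N,
      (((Equiv.Perm.sign σ : ℤ) : ℝ) * ∏ j, A (I (σ j)) j) • α fun j => Pi.single (I j) 1 :=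
    fun σ => by
    rw [h1, ← (Equiv.arrowCongr σ.symm (Equiv.refl _)).sum_comp]
    refine Finset.sum_congr rfl fun I _ => ?_
    have := α.map_perm (fun j => (Pi.single (I j) 1 : Fin N → ℝ)) σ
    simp only [Equiv.arrowCongr_apply, Equiv.symm_symm, Equiv.coe_refl, Function.comp_def,
      id] at this ⊢
    rw [this, Units.smul_def, ← Int.cast_smul_eq_zsmul ℝ, smul_smul, mul_comm]
  simp only [Matrix.det_apply', Finset.sum_smul, Matrix.submatrix_apply, id]
  rw [Finset.sum_comm, ← Finset.sum_congr rfl fun σ _ => h2 σ]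
  simp [Fintype.card_perm, Nat.cast_smul_eq_nsmul]

lemma alt_sum {W : Type} [AddCommGroup W] [Module ℝ W] (α : (Fin N → ℝ) [⋀^Fin n]→ₗ[ℝ] W) {m : ℕ}
    {A₀ : Matrix (Fin N) (Fin n) ℝ} {A : Fin m → Matrix (Fin N) (Fin n) ℝ}
    (h : ∀ I : Fin n → Fin N, ∑ i, ((A i).submatrix I id).det = (A₀.submatrix I id).det) :
    ∑ i, α (A i).transpose = α A₀.transpose := by
  refine smul_right_injective W (Nat.cast_ne_zero.2 n.factorial_ne_zero : (n.factorial : ℝ) ≠ 0) ?_
  simp only [Finset.smul_sum, alt_minors, ← h, Finset.sum_smul]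
  exact Finset.sum_comm

lemma dom_le (A : Matrix (Fin N) (Fin n) ℝ) (h : ∀ x : E n, ‖x‖ ≤ ‖A.mulVec x‖) (s : Set (E n)) :
    volume s ≤ Measure.euclideanHausdorffMeasure n ((fun x : E n => A.mulVec x) '' s) := by
  have h1 : AntilipschitzWith 1 fun x : E n => A.mulVec x := AntilipschitzWith.of_le_mul_dist
    fun x y => by
      rw [dist_eq_norm, dist_eq_norm, ← Matrix.mulVec_sub, NNReal.coe_one, one_mul]
      exact h (x - y)
  have h2 := h1.le_hausdorffMeasure_image (d := n) (by positivity) s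
  rw [← EuclideanSpace.euclideanHausdorffMeasure_eq_volume,
    Measure.euclideanHausdorffMeasure_def, Measure.euclideanHausdorffMeasure_def,
    Measure.smul_apply, Measure.smul_apply, ENNReal.smul_def, ENNReal.smul_def]
  exact mul_le_mul_right (by simpa using h2) _

lemma sum_lt (hn : 2 ≤ n) {m : ℕ} {A : Fin m → Matrix (Fin N) (Fin n) ℝ} (h : ∑ i, JJ (A i) < 1) :
    ∑ i, Measure.euclideanHausdorffMeasure n ((fun x : E n => (A i).mulVec x) '' ball 0 1) <
      volume (ball (0 : E n) 1) := by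
  have h0 : 0 < om n := ENNReal.toReal_pos (measure_ball_pos _ _ one_pos).ne' measure_ball_lt_top.ne
  refine (Finset.sum_le_sum fun i _ => haS n N (A i) hn).trans_lt ?_
  rw [← ENNReal.ofReal_sum_of_nonneg (f := fun i => om n * JJ (A i)) fun i _ =>
    mul_nonneg h0.le (div_nonneg h0.le measureReal_nonneg), ← Finset.mul_sum,
    ← ofReal_measureReal measure_ball_lt_top.ne]
  exact (ENNReal.ofReal_lt_ofReal_iff h0).2 (mul_lt_of_lt_one_right h0 h)

end Pool.Agent.Lib.MP_8115c2_gt.Bu
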