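import Pool.Agent.Lib.MP_8115c2_gt.Bu.C3
import Pool.Agent.Lib.MP_8115c2_gt.Bu.Ext

/-!
The Hausdorff mass of chains in the space with the sup norm, and a cheap real filling.
-/

open MeasureTheory Set Metric Module Finsupp Pointwise
open scoped ENNReal

noncomputable section

namespace Pool.Agent.Lib.MP_8115c2_gt.Bu

variable {n N : ℕ}

lemma thin_zero (W : Submodule ℝ (Fin N → ℝ)) (h : finrank ℝ W < n) (x : Fin N → ℝ)
    {s : Set (Fin N → ℝ)} (hs : ∀ y ∈ s, y - x ∈ W) :
    Measure.euclideanHausdorffMeasure n s = 0 := by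
  have hW : Isometry fun w : W => x + w.1 := (isometry_add_left x).comp isometry_subtype_coe
  have h1 : dimH s < ((n : NNReal) : ℝ≥0∞) := by
    refine (dimH_mono (t := (fun w : W => x + w.1) '' univ)
      fun y hy => ⟨⟨y - x, hs y hy⟩, trivial, by simp⟩).trans_lt ?_
    rw [hW.dimH_image]
    refine (Real.dimH_univ_eq_finrank W).trans_lt ?_
    exact_mod_cast h
  have h2 := hausdorffMeasure_of_dimH_lt h1
  rw [NNReal.coe_natCast] at h2
  rw [Measure.euclideanHausdorffMeasure_def, Measure.smul_apply, h2, smul_zero]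

lemma haG (hn : 2 ≤ n) (A : Matrix (Fin N) (Fin n) ℝ) (s : Set (E n)) :
    Measure.euclideanHausdorffMeasure n ((fun x : E n => A.mulVec x) '' s) ≤
      ENNReal.ofReal (JJ A) * volume s := by
  let T : E n →ₗ[ℝ] (Fin N → ℝ) :=
    A.mulVecLin ∘ₗ (WithLp.linearEquiv 2 ℝ (Fin n → ℝ)).toLinearMap
  have hS := haS n N A hn
  rw [show (fun x : E n => A.mulVec x) = T from rfl] at hS ⊢
  let W := LinearMap.range T
  by_cases hi : Function.Injective T
  · have hW : Isometry ((↑) : W → Fin N → ℝ) := isometry_subtype_coe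
    let e : E n ≃L[ℝ] W := (LinearEquiv.ofInjective T hi).toContinuousLinearEquiv
    have hr : finrank ℝ W = n := by rw [← e.toLinearEquiv.finrank_eq, finrank_euclideanSpace_fin]
    obtain ⟨a, ha⟩ : ∃ a : ℝ≥0∞,
        (Measure.euclideanHausdorffMeasure n : Measure W) = a • volume.map e := by
      obtain ⟨a, h⟩ : ∃ a : NNReal, (Measure.euclideanHausdorffMeasure (finrank ℝ W) : Measure W) =
        a • volume.map e := ⟨_, Measure.isAddLeftInvariant_eq_smul _ _⟩
      rw [hr] at h
      exact ⟨a, h⟩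
    have h1 : ∀ s, Measure.euclideanHausdorffMeasure n (T '' s) = a * volume s := fun s => by
      have h2 : T '' s = ((↑) : W → Fin N → ℝ) '' (e '' s) := by rw [image_image]; rfl
      rw [h2, hW.euclideanHausdorffMeasure_image]
      refine (congr($ha (e '' s))).trans ?_
      rw [Measure.smul_apply, show volume.map e (e '' s) = _ from
        e.toHomeomorph.measurableEmbedding.map_apply _ _, smul_eq_mul]
      exact congrArg (a * volume ·) (preimage_image_eq _ e.injective)
    rw [h1, ENNReal.ofReal_mul h_om, om, ofReal_measureReal measure_ball_lt_top.ne,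
      mul_comm] at hS
    rw [h1]
    exact mul_le_mul_left ((ENNReal.mul_le_mul_iff_right (measure_ball_pos _ _ one_pos).ne'
      measure_ball_lt_top.ne).1 hS) _
  · have hr : finrank ℝ W < n := by
      have h1 := T.finrank_range_add_finrank_ker
      have h2 : finrank ℝ (LinearMap.ker T) ≠ 0 := fun h =>
        hi (LinearMap.ker_eq_bot.1 (Submodule.finrank_eq_zero.1 h))
      rw [finrank_euclideanSpace_fin] at h1
      simp only [W]
      omega
    rw [thin_zero W hr 0 (by rintro _ ⟨x, -, rfl⟩; exact ⟨x, (sub_zero _).symm⟩)]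
    exact zero_le

/-- The measure of the simplex with vertex list `l`. -/
def hv (n : ℕ) (l : List (Fin N → ℝ)) : ℝ≥0∞ :=
  Measure.euclideanHausdorffMeasure n (convexHull ℝ {x | x ∈ l})

lemma hv_fin (hn : 2 ≤ n) {l : List (Fin N → ℝ)} (hl : l.length = n + 1) : hv n l ≠ ⊤ := by
  obtain ⟨x, l, rfl⟩ := List.exists_cons_of_length_eq_add_one hl
  obtain rfl : l.length = n := by simpa using hl
  let A : Matrix (Fin N) (Fin l.length) ℝ := Matrix.of fun k j => (l.get j - x) k
  let T : E l.length →ₗ[ℝ] (Fin N → ℝ) :=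
    A.mulVecLin ∘ₗ (WithLp.linearEquiv 2 ℝ (Fin l.length → ℝ)).toLinearMap
  have h : convexHull ℝ {y | y ∈ x :: l} ⊆ (x + ·) '' (T '' closedBall 0 1) := by
    refine convexHull_min (fun y hy => ?_) (((convex_closedBall 0 1).linear_image T).translate x)
    rcases List.mem_cons.1 hy with rfl | hy
    · exact ⟨_, ⟨0, by simp, rfl⟩, by simp⟩
    · obtain ⟨j, rfl⟩ := List.get_of_mem hy
      exact ⟨_, ⟨EuclideanSpace.single j 1, by simp, rfl⟩, by ext k; simp [T, A]⟩
  refine ((measure_mono h).trans_lt ?_).ne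
  rw [(isometry_add_left x).euclideanHausdorffMeasure_image]
  exact (haG hn A _).trans_lt (ENNReal.mul_lt_top ENNReal.ofReal_lt_top measure_closedBall_lt_top)

/-- The weight of a list. -/
def wt (n : ℕ) (l : List (Fin N → ℝ)) : NNReal := (hv n l).toNNReal

lemma mem_map_eq (f : (Fin N → ℝ) → Fin N → ℝ) (l : List (Fin N → ℝ)) :
    {x | x ∈ l.map f} = f '' {x | x ∈ l} := by
  ext x
  simp

lemma Ms_tr (h : Fin N → ℝ) (β : Ch (Fin N → ℝ)) : Ms (wt n) (tr h β) ≤ Ms (wt n) β := by
  simpa using Ms_le (w := wt n) (F := tr h) (K := 1) (fun l => by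
    have : (· + h) = (h +ᵥ · : (Fin N → ℝ) → Fin N → ℝ) := funext fun x => add_comm x h
    rw [tr, mp_single, Ms_single, abs_one, wt, wt, hv, hv, mem_map_eq, this, image_vadd,
      convexHull_vadd, measure_vadd]) β

lemma Ms_smul {c : ℝ} (hc : 0 < c) (β : Ch (Fin N → ℝ)) :
    Ms (wt n) (mq (c • ·) β) ≤ c ^ n * Ms (wt n) β :=
  Ms_le (fun l => by
    rw [mp_single, Ms_single, abs_one, wt, wt, hv, hv, mem_map_eq, image_smul, convexHull_smul,
      Measure.euclideanHausdorffMeasure_smul₀ _ hc.ne', ENNReal.smul_def, smul_eq_mul,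
      ENNReal.toNNReal_mul, one_mul]
    simp [hc.le, abs_of_nonneg]) β

lemma Ms_th : ∀ β ∈ Th (Fin N → ℝ) n, Ms (wt n) β = 0 := fun β hβ => by
  induction hβ using Submodule.span_induction with
  | mem β h =>
    obtain ⟨t, x, ht, h⟩ := h
    refine Finset.sum_eq_zero fun l hl => ?_
    beta_reduce
    rw [wt, hv, thin_zero (Submodule.span ℝ (t : Set (Fin N → ℝ)))
      ((finrank_span_finset_le_card t).trans_lt ht) x]
    · simp
    · exact convexHull_min ((mem_supported ℝ β).1 h hl)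
        ((Submodule.convex _).affine_preimage (AffineEquiv.vaddConst ℝ x).symm.toAffineMap)
  | zero => exact map_zero _
  | add a b _ _ ha hb => linarith [map_add_le_add (Ms (wt n)) a b, apply_nonneg (Ms (wt n)) (a + b)]
  | smul c a _ ha => rw [map_smul_eq_mul, ha, mul_zero]

/-- The part of the unit cube where the coordinates decrease in the order `σ`. -/
def Rg (σ : Equiv.Perm (Fin n)) : Set (E n) :=
  {x | (∀ i, x i ∈ Icc (0 : ℝ) 1) ∧ ∀ i j, i ≤ j → x (σ j) ≤ x (σ i)}

lemma vol_cube : volume {x : E n | ∀ i, x i ∈ Icc (0 : ℝ) 1} = 1 := by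
  have h : {x : E n | ∀ i, x i ∈ Icc (0 : ℝ) 1} = WithLp.ofLp ⁻¹' Icc 0 1 := by
    ext x
    simp [Pi.le_def, forall_and]
  rw [h, (PiLp.volume_preserving_ofLp _).measure_preimage measurableSet_Icc.nullMeasurableSet]
  simp [Real.volume_Icc_pi]

lemma sum_Rg : ∑ σ : Equiv.Perm (Fin n), volume (Rg σ) ≤ 1 := by
  rw [← measure_biUnion_finset₀ (fun σ _ τ _ h => ?_) fun σ _ => ?_, ← vol_cube (n := n)]
  · exact measure_mono (iUnion₂_subset fun σ _ x hx => hx.1)
  · refine measure_mono_null (t := ⋃ p : {p : Fin n × Fin n // p.1 ≠ p.2},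
      (LinearMap.ker (EuclideanSpace.projₗ p.1.1 - EuclideanSpace.projₗ p.1.2 : E n →ₗ[ℝ] ℝ) :
        Set (E n))) (fun x hx => ?_)
      (measure_iUnion_null fun p => Measure.addHaar_submodule _ _ fun h => ?_)
    · by_contra hc
      have h1 : Function.Injective x.ofLp := fun i j hij => by_contra fun h2 =>
        hc (mem_iUnion.2 ⟨⟨(i, j), h2⟩, by simpa [sub_eq_zero] using hij⟩)
      exact h (Equiv.ext fun i => h1 (congrFun (Tuple.unique_antitone hx.1.2 hx.2.2) i))
    · have := (h ▸ Submodule.mem_top : EuclideanSpace.single p.1.1 (1 : ℝ) ∈ _)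
      simp [p.2.symm] at this
  · refine (IsClosed.measurableSet ?_).nullMeasurableSet
    simp only [Rg, ofPred_and, ofPred_forall]
    exact (isClosed_iInter fun i => isClosed_Icc.preimage (by fun_prop)).inter
      (isClosed_iInter fun i => isClosed_iInter fun j => isClosed_iInter fun _ =>
        isClosed_le (by fun_prop) (by fun_prop))

lemma Ms_Ku (hn : 2 ≤ n) (A : Matrix (Fin N) (Fin n) ℝ) : Ms (wt n) (Ku A.transpose) ≤ JJ A := by
  let T : E n →ₗ[ℝ] (Fin N → ℝ) :=
    A.mulVecLin ∘ₗ (WithLp.linearEquiv 2 ℝ (Fin n → ℝ)).toLinearMap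
  have h : ∀ σ : Equiv.Perm (Fin n), hv n (List.ofFn (Fin.partialSum (A.transpose ∘ σ))) ≤
      ENNReal.ofReal (JJ A) * volume (Rg σ) := fun σ => by
    refine (measure_mono (convexHull_min (t := T '' Rg σ) (fun y hy => ?_)
      (Convex.linear_image ?_ T))).trans (haG hn A _)
    · obtain ⟨k, rfl⟩ := List.mem_ofFn.1 hy
      refine ⟨WithLp.toLp 2 fun i => if (σ.symm i : ℕ) < k then 1 else 0,
        ⟨fun i => by dsimp only; split_ifs <;> simp, fun i j hij => ?_⟩, ?_⟩
      · simp only [Equiv.symm_apply_apply]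
        have : (i : ℕ) ≤ j := hij
        split_ifs <;> first | omega | simp
      · clear hy
        induction k using Fin.induction with
        | zero => exact ((congrArg T (by ext; simp)).trans (map_zero T)).trans (by simp)
        | succ k ih =>
          rw [Fin.partialSum_succ, ← ih]
          change A.mulVec _ = A.mulVec _ + A.col (σ k)
          rw [← Matrix.mulVec_single_one, ← Matrix.mulVec_add]
          congr 1
          funext i
          obtain ⟨i, rfl⟩ := σ.surjective i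
          change (if (σ.symm (σ i) : ℕ) < k + 1 then (1 : ℝ) else 0) =
            (if (σ.symm (σ i) : ℕ) < k then 1 else 0) + Pi.single (M := fun _ => ℝ) (σ k) 1 (σ i)
          rw [Equiv.symm_apply_apply, Pi.single_apply]
          simp only [EmbeddingLike.apply_eq_iff_eq]
          simp only [Fin.ext_iff]
          split_ifs <;> first | omega | simp
    · intro x hx y hy a b ha hb hab
      exact ⟨fun i => convex_Icc 0 1 (hx.1 i) (hy.1 i) ha hb hab, fun i j hij => add_le_add
        (mul_le_mul_of_nonneg_left (hx.2 i j hij) ha) (mul_le_mul_of_nonneg_left (hy.2 i j hij) hb)⟩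
  refine (Finset.le_sum_of_subadditive _ (map_zero _).le (map_add_le_add _) _ _).trans ?_
  have h1 := (Finset.sum_le_sum fun σ (_ : σ ∈ Finset.univ) => h σ).trans
    ((Finset.mul_sum _ _ _).ge.trans (mul_le_of_le_one_right' sum_Rg))
  have h2 : ∀ σ : Equiv.Perm (Fin n), |((Equiv.Perm.sign σ : ℤ) : ℝ)| = 1 := fun σ => by
    rcases Int.units_eq_one_or (Equiv.Perm.sign σ) with h | h <;> simp [h]
  simp only [Ms_single, h2, one_mul]
  refine le_trans (le_of_eq ?_) (ENNReal.toReal_le_of_le_ofReal (h_JJ A) h1)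
  rw [ENNReal.toReal_sum fun σ _ => hv_fin hn (by simp)]
  rfl

theorem fill_real (hn : 2 ≤ n) {m : ℕ} {A₀ : Matrix (Fin N) (Fin n) ℝ}
    {A : Fin m → Matrix (Fin N) (Fin n) ℝ}
    (h : ∀ I : Fin n → Fin N, ∑ i, ((A i).submatrix I id).det = (A₀.submatrix I id).det)
    (h1 : ∑ i, JJ (A i) < 1) : ∃ β : Ch (Fin N → ℝ), (∀ l ∈ β.support, l.length = n + 1) ∧
      bd β = bd (Ku A₀.transpose) ∧ Ms (wt n) β < 1 := by
  obtain ⟨α, h2, h3⟩ : ∃ α, α - Ku A₀.transpose ∈ NB (Fin N → ℝ) ∧ Ms (wt n) α < 1 := by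
    by_contra! hc
    obtain ⟨f, h2, h3⟩ := exists_alt (M := Ms (wt n)) Ms_th (fun a i x =>
      ⟨JJ (Matrix.of (Function.update a i x)).transpose, fun t ht => by
        have h4 : (Matrix.diagonal (Function.update (1 : Fin n → ℝ) i t)).det = t := by
          simp [Finset.prod_update_of_mem]
        have h5 := Ms_Ku hn ((Matrix.of (Function.update a i x)).transpose *
          Matrix.diagonal (Function.update (1 : Fin n → ℝ) i t))
        rw [h_JJ_mul _ _ (by rwa [h4]), h4, mul_comm] at h5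
        convert h5
        ext j k
        by_cases hj : j = i <;> simp [hj, mul_comm]⟩) A₀.transpose hc
    have h4 := alt_sum f h
    linarith [Finset.sum_le_sum fun i (_ : i ∈ Finset.univ) => (h3 _).trans (Ms_Ku hn (A i))]
  obtain ⟨L, hL, β, h4, h5⟩ := fill_big Ms_tr Ms_th _ h2 h3
  have h0 : (0 : ℝ) < L := Nat.cast_pos.2 hL
  obtain ⟨k, rfl⟩ : ∃ k, n = k + 1 := ⟨n - 1, by omega⟩
  refine ⟨pj _ (mq ((L : ℝ)⁻¹ • ·) β), pj_supp _ _, ?_,
    (Ms_pj _ _ _).trans_lt ((Ms_smul (inv_pos.2 h0) β).trans_lt ?_)⟩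
  · have h6 := mp_Ku (DistribSMul.toAddMonoidHom (Fin N → ℝ) (L : ℝ)⁻¹) ((L : ℝ) • A₀.transpose)
    have h7 : DistribSMul.toAddMonoidHom (Fin N → ℝ) (L : ℝ)⁻¹ ∘ ((L : ℝ) • A₀.transpose) =
        A₀.transpose := by
      ext j i
      simp [h0.ne']
    rw [bd_pj, ← mp_bd, h4, mp_bd, ← bd_pj]
    exact congrArg bd ((congrArg (pj _) (h6.trans (congrArg Ku h7))).trans (pj_Ku _))
  · rwa [inv_pow, inv_mul_lt_iff₀ (pow_pos h0 _), mul_one]

end Pool.Agent.Lib.MP_8115c2_gt.Bu
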