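import Pool.Agent.Lib.MP_8115c2_gt.Bu.C4

/-!
The Euclidean sum of two decompositions, and the exponential form of the failure of convexity.
-/

open MeasureTheory Set Metric Real
open scoped Pointwise

noncomputable section

namespace Pool.Agent.Lib.MP_8115c2_gt.Bu

variable {n n' N N' M : ℕ}

/-- A continuous nonnegative homogeneous function. -/
structure Hg (g : E n → ℝ) : Prop where
  cont : Continuous g
  nn : ∀ x, 0 ≤ g x
  sm : ∀ (t : ℝ) x, 0 < t → g (t • x) = t * g x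

lemma Hg.vol_lt {g : E n → ℝ} (hg : Hg g) {r : ℝ} (hr : 0 < r) :
    volume {x | g x < r} = ENNReal.ofReal (r ^ n) * volume {x | g x < 1} := by
  have h : {x | g x < r} = r • {x | g x < 1} := by
    ext x
    rw [mem_smul_set_iff_inv_smul_mem₀ hr.ne', mem_ofPred_eq, mem_ofPred_eq,
      hg.sm _ _ (inv_pos.2 hr), inv_mul_lt_iff₀ hr, mul_one]
  rw [h, Measure.addHaar_smul_of_nonneg _ hr.le]
  simp

lemma Hg.slice {g : E n → ℝ} (hg : Hg g) (hn : 1 ≤ n) (a : ℝ) :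
    volume {y | a ^ 2 + g y ^ 2 < 1} =
      ENNReal.ofReal (√(1 - a ^ 2) ^ n) * volume {y | g y < 1} := by
  rcases lt_or_ge 0 (1 - a ^ 2) with h | h
  · rw [← hg.vol_lt (Real.sqrt_pos.2 h)]
    congr 1
    ext y
    rw [mem_ofPred_eq, mem_ofPred_eq, Real.lt_sqrt (hg.nn y)]
    constructor <;> intro h <;> linarith
  · have h1 : {y | a ^ 2 + g y ^ 2 < 1} = ∅ :=
      eq_empty_of_forall_notMem fun y hy => by
        have h2 : a ^ 2 + g y ^ 2 < 1 := hy
        nlinarith [sq_nonneg (g y)]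
    rw [h1, Real.sqrt_eq_zero'.2 h, zero_pow (by omega)]
    simp

/-- The Euclidean sum of the two unit balls. -/
def Sm (g : E n → ℝ) (h : E n' → ℝ) : Set (E n × E n') := {p | g p.1 ^ 2 + h p.2 ^ 2 < 1}

lemma Sm_meas {g : E n → ℝ} {h : E n' → ℝ} (hg : Hg g) (hh : Hg h) : MeasurableSet (Sm g h) := by
  have h1 := hg.cont
  have h2 := hh.cont
  exact (isOpen_lt (by fun_prop) continuous_const).measurableSet

lemma Sm_right {g : E n → ℝ} {h : E n' → ℝ} (hg : Hg g) (hh : Hg h) (hn : 1 ≤ n') :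
    (volume.prod volume) (Sm g h) =
      (∫⁻ x, ENNReal.ofReal (√(1 - g x ^ 2) ^ n')) * volume {y | h y < 1} := by
  have h1 := hg.cont
  rw [Measure.prod_apply (Sm_meas hg hh), ← lintegral_mul_const _ (by fun_prop)]
  exact lintegral_congr fun x => hh.slice hn (g x)

lemma Sm_left {g : E n → ℝ} {h : E n' → ℝ} (hg : Hg g) (hh : Hg h) (hn : 1 ≤ n) :
    (volume.prod volume) (Sm g h) =
      (∫⁻ y, ENNReal.ofReal (√(1 - h y ^ 2) ^ n)) * volume {x | g x < 1} := by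
  have h1 := hh.cont
  rw [Measure.prod_apply_symm (Sm_meas hg hh), ← lintegral_mul_const _ (by fun_prop)]
  refine lintegral_congr fun y => Eq.trans ?_ (hg.slice hn (h y))
  congr 1
  ext x
  simp [Sm, add_comm]

lemma hg_norm : Hg fun x : E n => ‖x‖ :=
  ⟨continuous_norm, norm_nonneg, fun t x ht => by rw [norm_smul, Real.norm_of_nonneg ht.le]⟩

lemma hg_mat (A : Matrix (Fin N) (Fin n) ℝ) : Hg fun x : E n => ‖A.mulVec x‖ :=
  ⟨by fun_prop, fun _ => norm_nonneg _, fun t x ht => by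
    rw [WithLp.ofLp_smul, Matrix.mulVec_smul, norm_smul, Real.norm_of_nonneg ht.le]⟩

/-- The splitting of the coordinates. -/
abbrev sp (n n' : ℕ) : E (n + n') ≃L[ℝ] E n × E n' := EuclideanSpace.finAddEquivProd

lemma sp_fst (z : E (n + n')) (j : Fin n) : (sp n n' z).1 j = z (Fin.castAdd n' j) := rfl

lemma sp_snd (z : E (n + n')) (j : Fin n') : (sp n n' z).2 j = z (Fin.natAdd n j) := rfl

lemma sp_norm (z : E (n + n')) : ‖z‖ ^ 2 = ‖(sp n n' z).1‖ ^ 2 + ‖(sp n n' z).2‖ ^ 2 := by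
  simp only [EuclideanSpace.norm_sq_eq, Fin.sum_univ_add, sp_fst, sp_snd]

lemma Sm_vol {g : E n → ℝ} {h : E n' → ℝ} (hg : Hg g) (hh : Hg h) (hn : 1 ≤ n) (hn' : 1 ≤ n') :
    volume (sp n n' ⁻¹' Sm g h) * (volume (ball (0 : E n) 1) * volume (ball (0 : E n') 1)) =
      volume (ball (0 : E (n + n')) 1) * (volume {x | g x < 1} * volume {y | h y < 1}) := by
  have h1 := Measure.isAddLeftInvariant_eq_smul (Measure.map (sp n n') volume)
    ((volume : Measure (E n)).prod (volume : Measure (E n')))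
  set c := Measure.addHaarScalarFactor (Measure.map (sp n n') volume)
    ((volume : Measure (E n)).prod (volume : Measure (E n')))
  have h2 : ∀ S, MeasurableSet S → volume (sp n n' ⁻¹' S) = c * (volume.prod volume) S :=
    fun S hS => by
      rw [← Measure.map_apply (sp n n').continuous.measurable hS, h1, Measure.smul_apply,
        ENNReal.smul_def, smul_eq_mul]
  have h3 : ∀ k, ball (0 : E k) 1 = {x | ‖x‖ < 1} := fun k => by
    ext x
    simp
  have h4 : ball (0 : E (n + n')) 1 = sp n n' ⁻¹' Sm (fun x => ‖x‖) fun y => ‖y‖ := by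
    ext z
    rw [mem_ball_zero_iff, mem_preimage, Sm, mem_ofPred_eq, ← sp_norm,
      sq_lt_one_iff₀ (norm_nonneg _)]
  have h5 := Sm_right hg hh hn'
  have h6 := Sm_right hg (hg_norm (n := n')) hn'
  have h7 := Sm_left hg (hg_norm (n := n')) hn
  have h8 := Sm_left (hg_norm (n := n)) (hg_norm (n := n')) hn
  rw [h4, h2 _ (Sm_meas hg hh), h2 _ (Sm_meas hg_norm hg_norm), h3, h3, h5, h8]
  rw [h6] at h7
  calc _ = c * ((∫⁻ x, ENNReal.ofReal (√(1 - g x ^ 2) ^ n')) * volume {y : E n' | ‖y‖ < 1}) *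
        (volume {y | h y < 1} * volume {x : E n | ‖x‖ < 1}) := by ring
    _ = _ := by rw [h7]; ring

lemma om_pos (n : ℕ) : 0 < om n :=
  ENNReal.toReal_pos (measure_ball_pos _ _ one_pos).ne' measure_ball_lt_top.ne

lemma JJ_nonneg (A : Matrix (Fin N) (Fin n) ℝ) : 0 ≤ JJ A :=
  div_nonneg (om_pos n).le measureReal_nonneg

lemma Hg.pos {g : E n → ℝ} (hg : Hg g) : volume {x | g x < 1} ≠ 0 := by
  refine ((isOpen_lt hg.cont continuous_const).measure_pos volume ⟨0, ?_⟩).ne'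
  have h := hg.sm 2 0 two_pos
  rw [smul_zero] at h
  change g 0 < 1
  linarith

lemma Hg.le_lt {g : E n → ℝ} (hg : Hg g) {l : ℝ} (hl : 1 < l) (h : volume {x | g x < 1} ≠ ⊤) :
    0 < volume.real {x | g x ≤ 1} ∧
      volume.real {x | g x ≤ 1} ≤ l ^ n * volume.real {x | g x < 1} := by
  have h0 : 0 < l := by linarith
  have h1 : volume {x | g x ≤ 1} ≤ ENNReal.ofReal (l ^ n) * volume {x | g x < 1} := by
    rw [← hg.vol_lt h0]
    exact measure_mono fun x hx => lt_of_le_of_lt hx hl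
  have h2 : ENNReal.ofReal (l ^ n) * volume {x | g x < 1} ≠ ⊤ :=
    ENNReal.mul_ne_top ENNReal.ofReal_ne_top h
  refine ⟨ENNReal.toReal_pos (fun h3 => hg.pos (measure_mono_null
    (fun x (hx : g x < 1) => (hx.le : g x ≤ 1)) h3)) (ne_top_of_le_ne_top h2 h1), ?_⟩
  have h3 := ENNReal.toReal_mono h2 h1
  rwa [ENNReal.toReal_mul, ENNReal.toReal_ofReal (by positivity)] at h3

lemma JJ_prod (hn : 1 ≤ n) (hn' : 1 ≤ n') (A : Matrix (Fin N) (Fin n) ℝ)
    (B : Matrix (Fin N') (Fin n') ℝ) (C : Matrix (Fin M) (Fin (n + n')) ℝ)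
    (hC : ∀ z : E (n + n'), ‖C.mulVec z‖ ^ 2 ≤
      ‖A.mulVec (sp n n' z).1‖ ^ 2 + ‖B.mulVec (sp n n' z).2‖ ^ 2) {l : ℝ} (hl : 1 < l) :
    JJ C ≤ l ^ (n + n') * (JJ A * JJ B) := by
  have h0 : 0 < l := by linarith
  by_cases hw : volume {z : E (n + n') | ‖C.mulVec z‖ ≤ 1} = ⊤
  · have h1 : JJ C = 0 := by simp [JJ, measureReal_def, hw]
    rw [h1]
    exact mul_nonneg (by positivity) (mul_nonneg (JJ_nonneg A) (JJ_nonneg B))
  have h1 := Sm_vol (hg_mat A) (hg_mat B) hn hn'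
  have h2 : sp n n' ⁻¹' Sm (fun x : E n => ‖A.mulVec x‖) (fun y : E n' => ‖B.mulVec y‖) ⊆
      {z : E (n + n') | ‖C.mulVec z‖ ≤ 1} := fun z hz =>
    (sq_le_one_iff₀ (norm_nonneg _)).1 ((hC z).trans (le_of_lt hz))
  have h3 := ne_top_of_le_ne_top hw (measure_mono h2)
  have h4 : volume {x : E n | ‖A.mulVec x‖ < 1} * volume {y : E n' | ‖B.mulVec y‖ < 1} ≠ ⊤ := by
    intro h
    rw [h, ENNReal.mul_top (measure_ball_pos _ _ one_pos).ne'] at h1
    exact ENNReal.mul_ne_top h3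
      (ENNReal.mul_ne_top measure_ball_lt_top.ne measure_ball_lt_top.ne) h1
  have h5 : volume {x : E n | ‖A.mulVec x‖ < 1} ≠ ⊤ := fun h =>
    h4 (by rw [h, ENNReal.top_mul (hg_mat B).pos])
  have h6 : volume {y : E n' | ‖B.mulVec y‖ < 1} ≠ ⊤ := fun h =>
    h4 (by rw [h, ENNReal.mul_top (hg_mat A).pos])
  obtain ⟨a0, a1⟩ := (hg_mat A).le_lt hl h5
  obtain ⟨b0, b1⟩ := (hg_mat B).le_lt hl h6
  have h7 := congrArg ENNReal.toReal h1
  simp only [ENNReal.toReal_mul] at h7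
  have h8 := measureReal_mono h2 hw
  have a2 : 0 < volume.real {x : E n | ‖A.mulVec x‖ < 1} := ENNReal.toReal_pos (hg_mat A).pos h5
  have b2 : 0 < volume.real {y : E n' | ‖B.mulVec y‖ < 1} := ENNReal.toReal_pos (hg_mat B).pos h6
  have o1 := om_pos n
  have o2 := om_pos n'
  have o3 := om_pos (n + n')
  unfold JJ
  change volume.real _ * (om n * om n') = om (n + n') * (volume.real _ * volume.real _) at h7
  set a := volume.real {x : E n | ‖A.mulVec x‖ ≤ 1}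
  set b := volume.real {y : E n' | ‖B.mulVec y‖ ≤ 1}
  set a' := volume.real {x : E n | ‖A.mulVec x‖ < 1}
  set b' := volume.real {y : E n' | ‖B.mulVec y‖ < 1}
  set w := volume.real {z : E (n + n') | ‖C.mulVec z‖ ≤ 1}
  set v := volume.real (sp n n' ⁻¹' Sm (fun x : E n => ‖A.mulVec x‖) fun y : E n' => ‖B.mulVec y‖)
  have v0 : 0 < v := by
    have : 0 < v * (om n * om n') := by rw [h7]; positivity
    exact (mul_pos_iff_of_pos_right (mul_pos o1 o2)).1 this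
  calc om (n + n') / w ≤ om (n + n') / v := div_le_div_of_nonneg_left o3.le v0 h8
    _ = l ^ (n + n') * (om n / (l ^ n * a') * (om n' / (l ^ n' * b'))) := by
      rw [pow_add]
      field_simp
      linarith
    _ ≤ _ := by gcongr

lemma net {l : ℝ} (hl : 1 < l) : ∃ F : Finset ℝ, ∀ a b : ℝ, ∃ t ∈ F,
    a ^ 2 + b ^ 2 ≤ (l * (cos t * a + sin t * b)) ^ 2 := by
  have h0 : 0 < l := by linarith
  have h1 : 0 < 2 * (1 - l⁻¹) := by
    have := inv_lt_one_of_one_lt₀ hl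
    linarith
  obtain ⟨F, -, hF, h2⟩ := (isCompact_Icc (a := -π) (b := π)).finite_cover_balls
    (Real.sqrt_pos.2 h1)
  refine ⟨hF.toFinset, fun a b => ?_⟩
  set z : ℂ := ⟨a, b⟩
  obtain ⟨t, ht, h3⟩ := mem_iUnion₂.1 (h2 ⟨(Complex.neg_pi_lt_arg z).le, Complex.arg_le_pi z⟩)
  refine ⟨t, hF.mem_toFinset.2 ht, ?_⟩
  have ha : ‖z‖ * cos z.arg = a := Complex.norm_mul_cos_arg z
  have hb : ‖z‖ * sin z.arg = b := Complex.norm_mul_sin_arg z
  have h4 : (z.arg - t) ^ 2 < 2 * (1 - l⁻¹) := by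
    rw [mem_ball, Real.dist_eq, Real.lt_sqrt (abs_nonneg _), sq_abs] at h3
    exact h3
  have h5 : 1 ≤ l * cos (z.arg - t) := by
    rw [← inv_mul_le_iff₀ h0, mul_one]
    linarith [Real.one_sub_sq_div_two_le_cos (x := z.arg - t)]
  have h6 : cos t * a + sin t * b = ‖z‖ * cos (z.arg - t) := by
    rw [← ha, ← hb, cos_sub]
    ring
  have h7 : a ^ 2 + b ^ 2 = ‖z‖ ^ 2 := by
    rw [← ha, ← hb]
    linear_combination ‖z‖ ^ 2 * cos_sq_add_sin_sq z.arg
  rw [h6, h7]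
  refine pow_le_pow_left₀ (norm_nonneg _) ?_ 2
  nlinarith [norm_nonneg z]

lemma JJ_smul (A : Matrix (Fin N) (Fin n) ℝ) {t : ℝ} (ht : 0 < t) :
    JJ (t • A) = t ^ n * JJ A := by
  have h : (t • (1 : Matrix (Fin n) (Fin n) ℝ)).det = t ^ n := by simp
  have h1 := h_JJ_mul A (t • 1) (by rw [h]; positivity)
  rwa [h, abs_of_pos (by positivity), Matrix.mul_smul, Matrix.mul_one] at h1

/-- The rows of two matrices, put side by side with weights. -/
def CC (c s : Fin M → ℝ) (a : Fin M → Fin N) (b : Fin M → Fin N') (A : Matrix (Fin N) (Fin n) ℝ)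
    (B : Matrix (Fin N') (Fin n') ℝ) : Matrix (Fin M) (Fin (n + n')) ℝ :=
  Matrix.of fun r => Fin.append (fun j => c r * A (a r) j) fun j => s r * B (b r) j

lemma CC_mulVec (c s : Fin M → ℝ) (a : Fin M → Fin N) (b : Fin M → Fin N')
    (A : Matrix (Fin N) (Fin n) ℝ) (B : Matrix (Fin N') (Fin n') ℝ) (z : E (n + n')) (r : Fin M) :
    (CC c s a b A B).mulVec z r =
      c r * A.mulVec (sp n n' z).1 (a r) + s r * B.mulVec (sp n n' z).2 (b r) := by
  simp only [CC, Matrix.mulVec, dotProduct, Fin.sum_univ_add, Matrix.of_apply, Fin.append_left,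
    Fin.append_right, Finset.mul_sum, mul_assoc, sp_fst, sp_snd]

/-- A weighted choice of coordinates. -/
def LL (c : Fin M → ℝ) (a : Fin M → Fin N) : (Fin N → ℝ) →ₗ[ℝ] Fin M → ℝ :=
  LinearMap.pi fun r => c r • LinearMap.proj (a r)

lemma CC_tr (c s : Fin M → ℝ) (a : Fin M → Fin N) (b : Fin M → Fin N')
    (A : Matrix (Fin N) (Fin n) ℝ) (B : Matrix (Fin N') (Fin n') ℝ) :
    (CC c s a b A B).transpose =
      Fin.append (fun j => LL c a (A.transpose j)) fun j => LL s b (B.transpose j) := by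
  funext j r
  refine Fin.addCases (fun j => ?_) (fun j => ?_) j <;> simp [CC, LL]

lemma CC_minors (c s : Fin M → ℝ) (a : Fin M → Fin N) (b : Fin M → Fin N') {m m' : ℕ}
    {A₀ : Matrix (Fin N) (Fin n) ℝ} {A : Fin m → Matrix (Fin N) (Fin n) ℝ}
    {B₀ : Matrix (Fin N') (Fin n') ℝ} {B : Fin m' → Matrix (Fin N') (Fin n') ℝ}
    (hA : ∀ I : Fin n → Fin N, ∑ i, ((A i).submatrix I id).det = (A₀.submatrix I id).det)
    (hB : ∀ I : Fin n' → Fin N', ∑ i, ((B i).submatrix I id).det = (B₀.submatrix I id).det)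
    (I : Fin (n + n') → Fin M) :
    ∑ i, ∑ j, ((CC c s a b (A i) (B j)).submatrix I id).det =
      ((CC c s a b A₀ B₀).submatrix I id).det := by
  have h1 := alt_sum ((ExteriorAlgebra.ιMulti ℝ n).compLinearMap (LL c a)) hA
  have h2 := alt_sum ((ExteriorAlgebra.ιMulti ℝ n').compLinearMap (LL s b)) hB
  simp only [AlternatingMap.compLinearMap_apply] at h1 h2
  let β : (Fin M → ℝ) [⋀^Fin (n + n')]→ₗ[ℝ] ℝ :=
    Matrix.detRowAlternating.compLinearMap (LinearMap.funLeft ℝ ℝ I)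
  let f : ∀ i : ℕ, (Fin M → ℝ) [⋀^Fin i]→ₗ[ℝ] ℝ := Pi.single (n + n') β
  have h3 : ∀ C : Matrix (Fin M) (Fin (n + n')) ℝ, (C.submatrix I id).det =
      ExteriorAlgebra.liftAlternating f (ExteriorAlgebra.ιMulti ℝ (n + n') C.transpose) :=
    fun C => by
      rw [ExteriorAlgebra.liftAlternating_apply_ιMulti, ← Matrix.det_transpose]
      simp only [f, Pi.single_eq_same]
      rfl
  simp only [h3, CC_tr, ← ExteriorAlgebra.ιMulti_mul_ιMulti, ← map_sum, ← Finset.mul_sum,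
    ← Finset.sum_mul, h1, h2]

/-- A plane dominating the Euclidean norm splits with total density less than `s`. -/
def Sq (n : ℕ) (s : ℝ) : Prop := ∃ (N : ℕ) (A₀ : Matrix (Fin N) (Fin n) ℝ) (m : ℕ)
  (A : Fin m → Matrix (Fin N) (Fin n) ℝ), (∀ x : E n, ‖x‖ ≤ ‖A₀.mulVec x‖) ∧
    (∀ I : Fin n → Fin N, ∑ i, ((A i).submatrix I id).det = (A₀.submatrix I id).det) ∧
    ∑ i, JJ (A i) < s

lemma ex_sup (hn : 1 ≤ n) {A : Matrix (Fin N) (Fin n) ℝ} (h : ∀ x : E n, ‖x‖ ≤ ‖A.mulVec x‖)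
    (w : Fin N → ℝ) : ∃ k, w k ^ 2 = ‖w‖ ^ 2 := by
  have h0 : Nonempty (Fin N) := by
    by_contra hc
    rw [not_nonempty_iff] at hc
    have h1 := h (EuclideanSpace.single ⟨0, hn⟩ 1)
    rw [Subsingleton.elim (A.mulVec _) 0] at h1
    norm_num at h1
  obtain ⟨k, hk⟩ := Finite.exists_max fun k => ‖w k‖
  refine ⟨k, ?_⟩
  rw [le_antisymm ((pi_norm_le_iff_of_nonneg (norm_nonneg _)).2 hk) (norm_le_pi_norm w k),
    Real.norm_eq_abs, sq_abs]

lemma Sq.add (hn : 1 ≤ n) (hn' : 1 ≤ n') {s s' : ℝ} (h : Sq n s) (h' : Sq n' s') :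
    Sq (n + n') (s * s') := by
  obtain ⟨N, A₀, m, A, a1, a2, a3⟩ := h
  obtain ⟨N', B₀, m', B, b1, b2, b3⟩ := h'
  have a0 : 0 ≤ ∑ i, JJ (A i) := Finset.sum_nonneg fun i _ => JJ_nonneg _
  have b0 : 0 ≤ ∑ i, JJ (B i) := Finset.sum_nonneg fun i _ => JJ_nonneg _
  obtain ⟨l, hl, h1⟩ : ∃ l : ℝ, 1 < l ∧
      l ^ (n + n') * (l ^ (n + n') * ((∑ i, JJ (A i)) * ∑ i, JJ (B i))) < s * s' := by
    have h1 : ∀ᶠ l : ℝ in nhds 1,
        l ^ (n + n') * (l ^ (n + n') * ((∑ i, JJ (A i)) * ∑ i, JJ (B i))) < s * s' :=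
      ContinuousAt.eventually_lt (by fun_prop) continuousAt_const
        (by simpa using mul_lt_mul'' a3 b3 a0 b0)
    exact ((eventually_mem_nhdsWithin (s := Ioi (1 : ℝ))).and
      (h1.filter_mono nhdsWithin_le_nhds)).exists
  have h0 : 0 < l := by linarith
  obtain ⟨F, hF⟩ := net hl
  let e := (Fintype.equivFin (F × Fin N × Fin N')).symm
  let D : Matrix (Fin N) (Fin n) ℝ → Matrix (Fin N') (Fin n') ℝ → Matrix _ (Fin (n + n')) ℝ :=
    CC (fun r => cos (e r).1) (fun r => sin (e r).1) (fun r => (e r).2.1) fun r => (e r).2.2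
  refine ⟨_, l • D A₀ B₀, m * m',
    fun i => l • D (A (finProdFinEquiv.symm i).1) (B (finProdFinEquiv.symm i).2),
    fun z => ?_, fun I => ?_, ?_⟩
  · obtain ⟨k, hk⟩ := ex_sup hn a1 (A₀.mulVec (sp n n' z).1)
    obtain ⟨k', hk'⟩ := ex_sup hn' b1 (B₀.mulVec (sp n n' z).2)
    obtain ⟨t, ht, h2⟩ := hF (A₀.mulVec (sp n n' z).1 k) (B₀.mulVec (sp n n' z).2 k')
    refine le_trans ?_ (norm_le_pi_norm _ (e.symm (⟨t, ht⟩, k, k')))
    refine (pow_le_pow_iff_left₀ (norm_nonneg _) (norm_nonneg _) two_ne_zero).1 ?_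
    rw [Matrix.smul_mulVec, Pi.smul_apply, CC_mulVec, Real.norm_eq_abs, sq_abs, sp_norm]
    simp only [Equiv.apply_symm_apply, smul_eq_mul]
    refine le_trans ?_ h2
    rw [hk, hk']
    gcongr
    exacts [a1 _, b1 _]
  · have h2 : ∀ C : Matrix (Fin (Fintype.card (F × Fin N × Fin N'))) (Fin (n + n')) ℝ,
        ((l • C).submatrix I id).det = l ^ (n + n') * (C.submatrix I id).det := fun C => by
      rw [Matrix.submatrix_smul, Pi.smul_apply, Pi.smul_apply, Matrix.det_smul, Fintype.card_fin]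
    simp only [h2, ← Finset.mul_sum]
    rw [finProdFinEquiv.symm.sum_comp fun p => ((D (A p.1) (B p.2)).submatrix I id).det,
      Fintype.sum_prod_type, CC_minors _ _ _ _ a2 b2]
  · refine lt_of_le_of_lt ?_ h1
    simp only [JJ_smul _ h0, ← Finset.mul_sum]
    rw [finProdFinEquiv.symm.sum_comp fun p => JJ (D (A p.1) (B p.2)), Fintype.sum_prod_type,
      Finset.sum_mul_sum]
    refine mul_le_mul_of_nonneg_left ?_ (pow_pos h0 _).le
    rw [Finset.mul_sum]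
    refine Finset.sum_le_sum fun i _ => ?_
    rw [Finset.mul_sum]
    refine Finset.sum_le_sum fun j _ => JJ_prod hn hn' _ _ _ (fun z => ?_) hl
    rw [← Real.le_sqrt (norm_nonneg _) (by positivity)]
    refine (pi_norm_le_iff_of_nonneg (Real.sqrt_nonneg _)).2 fun r => ?_
    rw [Real.le_sqrt (norm_nonneg _) (by positivity), CC_mulVec, Real.norm_eq_abs, sq_abs]
    have h2 := norm_le_pi_norm ((A i).mulVec (sp n n' z).1) (e r).2.1
    have h3 := norm_le_pi_norm ((B j).mulVec (sp n n' z).2) (e r).2.2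
    rw [Real.norm_eq_abs, ← sq_le_sq₀ (abs_nonneg _) (norm_nonneg _), sq_abs] at h2 h3
    refine le_trans ?_ (add_le_add h2 h3)
    generalize (A i).mulVec (sp n n' z).1 (e r).2.1 = p
    generalize (B j).mulVec (sp n n' z).2 (e r).2.2 = q
    have h4 := cos_sq_add_sin_sq ((e r).1 : ℝ)
    have h5 : p ^ 2 + q ^ 2 = (cos ((e r).1 : ℝ) * p + sin ((e r).1 : ℝ) * q) ^ 2 +
        (sin ((e r).1 : ℝ) * p - cos ((e r).1 : ℝ) * q) ^ 2 := by
      linear_combination (-p ^ 2 - q ^ 2) * h4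
    linarith [sq_nonneg (sin ((e r).1 : ℝ) * p - cos ((e r).1 : ℝ) * q)]

theorem Sq_exp : ∃ c : ℝ, 0 < c ∧ c < 1 ∧ ∃ n₀ : ℕ, ∀ n ≥ n₀, Sq n (c ^ n) := by
  obtain ⟨n₀, h⟩ := bS
  have h1 : ∀ n ∈ Finset.Ico (n₀ + 1) (2 * (n₀ + 1)), ∀ᶠ c : ℝ in nhds 1, Sq n (c ^ n) := by
    intro n hn
    obtain ⟨N, A₀, m, A, a1, a2, a3⟩ := h n (by have := (Finset.mem_Ico.1 hn).1; omega)
    have h2 : ∀ᶠ c : ℝ in nhds 1, ∑ i, JJ (A i) < c ^ n :=
      ContinuousAt.eventually_lt continuousAt_const (by fun_prop) (by simpa using a3)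
    exact h2.mono fun c hc => ⟨N, A₀, m, A, a1, a2, hc⟩
  obtain ⟨c, ⟨c1, c0⟩, hc⟩ := (((eventually_mem_nhdsWithin (s := Iio (1 : ℝ))).and
    ((lt_mem_nhds one_pos).filter_mono nhdsWithin_le_nhds)).and
    (((Filter.eventually_all_finset _).2 h1).filter_mono nhdsWithin_le_nhds)).exists
  refine ⟨c, c0, c1, n₀ + 1, fun n => ?_⟩
  induction n using Nat.strong_induction_on with
  | _ n ih =>
    intro hn
    by_cases h2 : n < 2 * (n₀ + 1)
    · exact hc n (Finset.mem_Ico.2 ⟨hn, h2⟩)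
    · obtain ⟨k, rfl⟩ : ∃ k, n = n₀ + 1 + k := ⟨n - (n₀ + 1), by omega⟩
      rw [pow_add]
      exact Sq.add (by omega) (by omega) (hc _ (Finset.mem_Ico.2 ⟨le_rfl, by omega⟩))
        (ih k (by omega) (by omega))

lemma ex_push {A₀ : Matrix (Fin N) (Fin n) ℝ} (h0 : ∀ x : E n, ‖x‖ ≤ ‖A₀.mulVec x‖)
    {B : Matrix (Fin M) (Fin n) ℝ} (h : ∀ x : E n, ‖B.mulVec x‖ ≤ ‖x‖) :
    ∃ R : Matrix (Fin M) (Fin N) ℝ, R * A₀ = B ∧ ∀ y, ‖R.mulVec y‖ ≤ ‖y‖ := by
  obtain ⟨g, hg⟩ := (Matrix.toLin' A₀).exists_leftInverse_of_injective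
    (LinearMap.ker_eq_bot'.2 fun x hx => by
      have h1 := h0 (WithLp.toLp 2 x)
      rw [Matrix.toLin'_apply] at hx
      rw [WithLp.ofLp_toLp, hx, norm_zero, norm_le_zero_iff] at h1
      exact congrArg WithLp.ofLp h1)
  have h1 : ∀ x, g (A₀.mulVec x) = x := fun x => LinearMap.congr_fun hg x
  have h2 : ∀ r : Fin M, ∃ f : (Fin N → ℝ) →ₗ[ℝ] ℝ,
      (∀ x, f (A₀.mulVec x) = B.mulVec x r) ∧ ∀ y, f y ≤ ‖y‖ := fun r => by
    obtain ⟨f, h3, h4⟩ := exists_extension_of_le_sublinear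
      ⟨LinearMap.range (Matrix.toLin' A₀), (LinearMap.proj r ∘ₗ Matrix.toLin' B ∘ₗ g).domRestrict _⟩
      (fun y : Fin N → ℝ => ‖y‖)
      (fun c hc x => by rw [norm_smul, Real.norm_of_nonneg hc.le]) norm_add_le (by
        rintro ⟨_, x, rfl⟩
        change B.mulVec (g (A₀.mulVec x)) r ≤ ‖A₀.mulVec x‖
        rw [h1]
        exact (le_abs_self _).trans ((norm_le_pi_norm (B.mulVec x) r).trans
          ((h (WithLp.toLp 2 x)).trans (h0 (WithLp.toLp 2 x)))))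
    refine ⟨f, fun x => (h3 ⟨_, x, rfl⟩).trans ?_, h4⟩
    change B.mulVec (g (A₀.mulVec x)) r = _
    rw [h1]
  choose f h3 h4 using h2
  have h5 : ∀ y r, (LinearMap.toMatrix' (LinearMap.pi f)).mulVec y r = f r y := fun y r => by
    rw [LinearMap.toMatrix'_mulVec, LinearMap.pi_apply]
  refine ⟨LinearMap.toMatrix' (LinearMap.pi f), Matrix.toLin'.injective (LinearMap.ext fun x => ?_),
    fun y => (pi_norm_le_iff_of_nonneg (norm_nonneg _)).2 fun r => ?_⟩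
  · funext r
    rw [Matrix.toLin'_apply, Matrix.toLin'_apply, ← Matrix.mulVec_mulVec, h5, h3]
  · rw [h5, Real.norm_eq_abs, abs_le]
    have h6 := h4 r (-y)
    rw [map_neg, norm_neg] at h6
    exact ⟨by linarith, h4 r y⟩

lemma JJ_push {R : Matrix (Fin M) (Fin N) ℝ} (hR : ∀ y, ‖R.mulVec y‖ ≤ ‖y‖)
    (A : Matrix (Fin N) (Fin n) ℝ) : JJ (R * A) ≤ JJ A := by
  by_cases hw : volume {x : E n | ‖(R * A).mulVec x‖ ≤ 1} = ⊤
  · have h1 : JJ (R * A) = 0 := by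
      rw [JJ, measureReal_def (s := {x : E n | ‖(R * A).mulVec x‖ ≤ 1}), hw]
      simp
    rw [h1]
    exact JJ_nonneg A
  have h1 : {x : E n | ‖A.mulVec x‖ ≤ 1} ⊆ {x : E n | ‖(R * A).mulVec x‖ ≤ 1} := fun x hx => by
    rw [mem_ofPred_eq, ← Matrix.mulVec_mulVec]
    exact (hR _).trans hx
  have h2 : volume {x : E n | ‖A.mulVec x‖ < 1} ≠ ⊤ := ne_top_of_le_ne_top hw
    (measure_mono fun x (hx : ‖A.mulVec x‖ < 1) => h1 hx.le)
  exact div_le_div_of_nonneg_left (om_pos n).le ((hg_mat A).le_lt one_lt_two h2).1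
    (measureReal_mono h1 hw)

lemma minors_push (R : Matrix (Fin M) (Fin N) ℝ) {m : ℕ} {A₀ : Matrix (Fin N) (Fin n) ℝ}
    {A : Fin m → Matrix (Fin N) (Fin n) ℝ}
    (hA : ∀ I : Fin n → Fin N, ∑ i, ((A i).submatrix I id).det = (A₀.submatrix I id).det)
    (I : Fin n → Fin M) :
    ∑ i, ((R * A i).submatrix I id).det = ((R * A₀).submatrix I id).det := by
  have h1 := alt_sum (Matrix.detRowAlternating.compLinearMap
    (Matrix.toLin' (R.submatrix I id))) hA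
  have h2 : ∀ B : Matrix (Fin N) (Fin n) ℝ, ((R * B).submatrix I id).det =
      Matrix.detRowAlternating.compLinearMap (Matrix.toLin' (R.submatrix I id)) B.transpose :=
    fun B => by
      rw [← Matrix.det_transpose]
      rfl
  simp only [h2, h1]

lemma ex_round (n : ℕ) {l : ℝ} (hl : 1 < l) : ∃ (M : ℕ) (B : Matrix (Fin M) (Fin n) ℝ),
    ∀ x : E n, ‖x‖ ≤ l * ‖B.mulVec x‖ ∧ ‖B.mulVec x‖ ≤ ‖x‖ := by
  have h0 : 0 < l := by linarith
  obtain ⟨F, hF1, hF, h2⟩ := (isCompact_closedBall (0 : E n) 1).finite_cover_balls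
    (sub_pos.2 (inv_lt_one_of_one_lt₀ hl))
  let e := hF.toFinset.equivFin.symm
  have h3 : ∀ (x : E n) r, (Matrix.of fun r j => (e r : E n) j).mulVec x r = inner ℝ (e r : E n) x :=
    fun x r => by simp [Matrix.mulVec, dotProduct, PiLp.inner_apply, mul_comm]
  refine ⟨_, Matrix.of fun r j => (e r : E n) j, fun x => ⟨?_,
    (pi_norm_le_iff_of_nonneg (norm_nonneg _)).2 fun r => ?_⟩⟩
  · by_cases hx : x = 0
    · rw [hx, norm_zero]
      positivity
    have h4 := norm_pos_iff.2 hx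
    have h5 : ‖‖x‖⁻¹ • x‖ = 1 := norm_smul_inv_norm hx
    obtain ⟨f, hf, h6⟩ := mem_iUnion₂.1 (h2 (mem_closedBall_zero_iff.2 h5.le))
    have h7 := (le_abs_self _).trans (norm_le_pi_norm
      ((Matrix.of fun r j => (e r : E n) j).mulVec x) (e.symm ⟨f, hF.mem_toFinset.2 hf⟩))
    rw [h3, Equiv.apply_symm_apply] at h7
    have h8 := real_inner_le_norm (‖x‖⁻¹ • x - f) x
    rw [inner_sub_left, real_inner_smul_left, real_inner_self_eq_norm_sq, sq,
      inv_mul_cancel_left₀ h4.ne'] at h8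
    rw [mem_ball, dist_eq_norm] at h6
    rw [← inv_mul_le_iff₀ h0]
    have h9 := mul_le_mul_of_nonneg_right h6.le h4.le
    change inner ℝ f x ≤ _ at h7
    linarith
  · rw [h3]
    refine (norm_inner_le_norm _ _).trans (mul_le_of_le_one_left (norm_nonneg _) ?_)
    exact mem_closedBall_zero_iff.1 (hF1 (hF.mem_toFinset.1 (e r).2))

lemma fill_pow (hn : 2 ≤ n) {m : ℕ} {A₀ : Matrix (Fin N) (Fin n) ℝ}
    {A : Fin m → Matrix (Fin N) (Fin n) ℝ}
    (h : ∀ I : Fin n → Fin N, ∑ i, ((A i).submatrix I id).det = (A₀.submatrix I id).det)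
    {c : ℝ} (hc : 0 < c) (h1 : ∑ i, JJ (A i) < c ^ n) {z : List (Fin N → ℝ) →₀ ℤ}
    (hz : bd (Ku A₀.transpose) = io z) : ∃ (k : ℕ) (α : List (Fin N → ℝ) →₀ ℤ),
      (∀ l ∈ α.support, l.length = n + 1) ∧ bd (io α) = k • io z ∧
        Ms (wt n) (io α) < k * c ^ n := by
  have h0 := inv_pos.2 hc
  have h2 := pow_pos hc n
  obtain ⟨β, -, h4, h5⟩ := fill_real hn (A₀ := c⁻¹ • A₀) (A := fun i => c⁻¹ • A i)
    (fun I => by
      simp only [Matrix.submatrix_smul, Pi.smul_apply, Matrix.det_smul, ← Finset.mul_sum, h])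
    (by
      simp only [JJ_smul _ h0, ← Finset.mul_sum]
      rwa [inv_pow, inv_mul_lt_iff₀ h2, mul_one])
  have h3 : ∀ γ : Ch (Fin N → ℝ),
      Ms (fun l => wt n l / ⟨c ^ n, h2.le⟩) γ = Ms (wt n) γ / c ^ n := fun γ => by
    simp only [Ms_apply, Finsupp.sum, Finset.sum_div, NNReal.coe_div, mul_div_assoc]
    rfl
  obtain ⟨p, rfl⟩ : ∃ p, n = p + 1 := ⟨n - 1, by omega⟩
  have h6 := mp_Ku (DistribSMul.toAddMonoidHom (Fin N → ℝ) c) (c⁻¹ • A₀).transpose
  have h7 : DistribSMul.toAddMonoidHom (Fin N → ℝ) c ∘ (c⁻¹ • A₀).transpose = A₀.transpose := by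
    ext j i
    simp [hc.ne']
  obtain ⟨k, α, h8, h9, h10⟩ := exists_int (fun l => wt (p + 1) l / ⟨c ^ (p + 1), h2.le⟩)
    (β := pj (p + 1 + 1) (mq (c • ·) β)) (z := z)
    (by
      rw [bd_pj, ← mp_bd, h4, mp_bd, ← bd_pj, ← hz]
      exact congrArg bd ((congrArg (pj _) (h6.trans (congrArg Ku h7))).trans (pj_Ku _)))
    (by
      rw [h3, div_lt_one h2]
      exact (Ms_pj _ _ _).trans_lt ((Ms_smul hc β).trans_lt (mul_lt_of_lt_one_right h2 h5)))
  exact ⟨k, α, fun l hl => pj_supp _ _ l (h8 hl), h9, by rwa [h3, div_lt_iff₀ h2] at h10⟩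

theorem bS_round : ∃ c : ℝ, 0 < c ∧ c < 1 ∧ ∃ n₀ : ℕ, ∀ n ≥ n₀, ∀ l : ℝ, 1 < l →
    ∃ (N : ℕ) (A₀ : Matrix (Fin N) (Fin n) ℝ) (m : ℕ) (A : Fin m → Matrix (Fin N) (Fin n) ℝ),
      (∀ x : E n, ‖x‖ ≤ ‖A₀.mulVec x‖ ∧ ‖A₀.mulVec x‖ ≤ l * ‖x‖) ∧
      (∀ I : Fin n → Fin N, ∑ i, ((A i).submatrix I id).det = (A₀.submatrix I id).det) ∧
      ∑ i, JJ (A i) < c ^ n := by
  obtain ⟨c, c0, c1, n₀, h⟩ := Sq_exp
  refine ⟨(1 + c) / 2, by linarith, by linarith, n₀, fun n hn l hl => ?_⟩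
  obtain ⟨N, A₀, m, A, a1, a2, a3⟩ := h n hn
  have h1 : 1 < min l ((1 + c) / 2 / c) := lt_min hl (by rw [one_lt_div c0]; linarith)
  set t := min l ((1 + c) / 2 / c)
  have h0 : 0 < t := by linarith
  obtain ⟨M, B, hB⟩ := ex_round n h1
  obtain ⟨R, h2, h3⟩ := ex_push a1 fun x => (hB x).2
  refine ⟨M, t • (R * A₀), m, fun i => t • (R * A i), fun x => ?_, fun I => ?_, ?_⟩
  · rw [h2, Matrix.smul_mulVec, norm_smul, Real.norm_of_nonneg h0.le]
    exact ⟨(hB x).1, mul_le_mul (min_le_left _ _) (hB x).2 (norm_nonneg _) (by linarith)⟩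
  · simp only [Matrix.submatrix_smul, Pi.smul_apply, Matrix.det_smul, ← Finset.mul_sum,
      minors_push R a2]
  · simp only [JJ_smul _ h0, ← Finset.mul_sum]
    refine (mul_lt_mul_of_pos_left ((Finset.sum_le_sum fun i _ => JJ_push h3 (A i)).trans_lt a3)
      (pow_pos h0 n)).trans_le ?_
    rw [← mul_pow]
    exact pow_le_pow_left₀ (by positivity) ((le_div_iff₀ c0).1 (min_le_right _ _)) n

end Pool.Agent.Lib.MP_8115c2_gt.Bu
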