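import Mathlib

/-!
The standard Gaussian measure as a density, functions of polynomial growth, Stein's identity.
-/

open MeasureTheory Set Metric Filter Topology Real
open scoped RealInnerProductSpace

noncomputable section

namespace Pool.Agent.Lib.MP_8115c2_gt.Bu

abbrev E (n : ℕ) := EuclideanSpace ℝ (Fin n)

variable {n : ℕ}

/-- The Gaussian density. -/
def rho (n : ℕ) (g : E n) : ℝ :=
  (∫ v : E n, exp (-(1 / 2) * ‖v‖ ^ 2))⁻¹ * exp (-(1 / 2) * ‖g‖ ^ 2)

/-- The standard Gaussian measure. -/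
def gm (n : ℕ) : Measure (E n) := volume.withDensity fun g => ENNReal.ofReal (rho n g)

lemma int_exp {b : ℝ} (hb : 0 < b) : Integrable fun v : E n => exp (-b * ‖v‖ ^ 2) := by
  have h := (GaussianFourier.integrable_cexp_neg_mul_sq_norm_add (V := E n) (b := b)
    (by simpa using hb) 0 0).norm
  refine h.congr (.of_forall fun v => ?_)
  simp only [zero_mul, add_zero]
  rw [Complex.norm_exp]
  congr 1
  rw [← Complex.ofReal_pow, ← Complex.ofReal_neg, ← Complex.ofReal_mul, Complex.ofReal_re]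

lemma Z_pos (n : ℕ) : 0 < ∫ v : E n, exp (-(1 / 2) * ‖v‖ ^ 2) := by
  rw [GaussianFourier.integral_rexp_neg_mul_sq_norm (by norm_num)]
  positivity

lemma rho_pos (g : E n) : 0 < rho n g := mul_pos (inv_pos.2 (Z_pos n)) (exp_pos _)

lemma rho_cont : Continuous (rho n) := by unfold rho; fun_prop

lemma integral_gm {F : Type} [NormedAddCommGroup F] [NormedSpace ℝ F] (f : E n → F) :
    ∫ g, f g ∂gm n = ∫ g, rho n g • f g := by
  unfold gm
  rw [integral_withDensity_eq_integral_toReal_smul rho_cont.measurable.ennreal_ofReal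
    (.of_forall fun _ => ENNReal.ofReal_lt_top)]
  simp only [ENNReal.toReal_ofReal (rho_pos _).le]

lemma integrable_gm {f : E n → ℝ} : Integrable f (gm n) ↔ Integrable fun g => rho n g * f g := by
  unfold gm
  rw [integrable_withDensity_iff_integrable_smul' rho_cont.measurable.ennreal_ofReal
    (.of_forall fun _ => ENNReal.ofReal_lt_top)]
  simp only [ENNReal.toReal_ofReal (rho_pos _).le, smul_eq_mul]

instance : IsProbabilityMeasure (gm n) := by
  constructor
  unfold gm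
  rw [withDensity_apply _ MeasurableSet.univ, Measure.restrict_univ,
    ← ofReal_integral_eq_lintegral_ofReal (f := rho n) ((int_exp (by norm_num)).const_mul _)
      (.of_forall fun g => (rho_pos g).le)]
  unfold rho
  rw [integral_const_mul, inv_mul_cancel₀ (Z_pos n).ne', ENNReal.ofReal_one]

/-- Continuous functions of polynomial growth. -/
def PG (f : E n → ℝ) : Prop := Continuous f ∧ ∃ (C : ℝ) (k : ℕ), ∀ g, |f g| ≤ C * (1 + ‖g‖) ^ k

lemma pow_le_exp (k : ℕ) : ∃ C : ℝ, ∀ t : ℝ, 0 ≤ t → (1 + t) ^ k ≤ C * exp (t ^ 2 / 4) := by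
  refine ⟨exp (k ^ 2), fun t ht => ?_⟩
  rw [← exp_add]
  calc (1 + t) ^ k ≤ exp t ^ k := by
        gcongr
        linarith [add_one_le_exp t]
    _ = exp (k * t) := by rw [← exp_nat_mul]
    _ ≤ _ := exp_le_exp.2 (by nlinarith [sq_nonneg (t / 2 - k)])

lemma PG.int {f : E n → ℝ} (h : PG f) : Integrable f (gm n) := by
  obtain ⟨hc, C, k, hb⟩ := h
  obtain ⟨C', hC'⟩ := pow_le_exp k
  rw [integrable_gm]
  refine ((int_exp (n := n) (b := 1 / 4) (by norm_num)).const_mul
    ((∫ v : E n, exp (-(1 / 2) * ‖v‖ ^ 2))⁻¹ * (|C| * C'))).mono'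
    (rho_cont.mul hc).aestronglyMeasurable (.of_forall fun g => ?_)
  have h1 : |f g| ≤ |C| * (C' * exp (‖g‖ ^ 2 / 4)) :=
    (hb g).trans ((mul_le_mul_of_nonneg_right (le_abs_self C) (by positivity)).trans
      (mul_le_mul_of_nonneg_left (hC' _ (norm_nonneg g)) (abs_nonneg C)))
  have h2 : exp (-(1 / 4) * ‖g‖ ^ 2) = exp (-(1 / 2) * ‖g‖ ^ 2) * exp (‖g‖ ^ 2 / 4) := by
    rw [← exp_add]; congr 1; ring
  rw [Real.norm_eq_abs, abs_mul, abs_of_pos (rho_pos g), h2, rho]
  have h3 := mul_le_mul_of_nonneg_left h1 (rho_pos g).le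
  rw [rho] at h3
  linarith

lemma PG.nonneg {f : E n → ℝ} {C : ℝ} {k : ℕ} (hb : ∀ g, |f g| ≤ C * (1 + ‖g‖) ^ k) : 0 ≤ C := by
  simpa using (abs_nonneg _).trans (hb 0)

lemma PG.const (c : ℝ) : PG fun _ : E n => c := ⟨continuous_const, |c|, 0, fun _ => by simp⟩

lemma PG.add {f h : E n → ℝ} (hf : PG f) (hh : PG h) : PG fun g => f g + h g := by
  obtain ⟨c1, C, k, h1⟩ := hf
  obtain ⟨c2, C', k', h2⟩ := hh
  refine ⟨c1.add c2, C + C', k + k', fun g => (abs_add_le _ _).trans ?_⟩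
  have p : 1 ≤ 1 + ‖g‖ := by linarith [norm_nonneg g]
  have a1 := mul_le_mul_of_nonneg_left (pow_le_pow_right₀ p (Nat.le_add_right k k')) (PG.nonneg h1)
  have a2 := mul_le_mul_of_nonneg_left (pow_le_pow_right₀ p (Nat.le_add_left k' k)) (PG.nonneg h2)
  linarith [h1 g, h2 g]

lemma PG.mul {f h : E n → ℝ} (hf : PG f) (hh : PG h) : PG fun g => f g * h g := by
  obtain ⟨c1, C, k, h1⟩ := hf
  obtain ⟨c2, C', k', h2⟩ := hh
  refine ⟨c1.mul c2, C * C', k + k', fun g => ?_⟩
  rw [abs_mul, pow_add, mul_mul_mul_comm]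
  exact mul_le_mul (h1 g) (h2 g) (abs_nonneg _) ((abs_nonneg _).trans (h1 g))

lemma PG.neg {f : E n → ℝ} (hf : PG f) : PG fun g => -f g := by
  simpa using (PG.const (-1)).mul hf

lemma PG.sub {f h : E n → ℝ} (hf : PG f) (hh : PG h) : PG fun g => f g - h g := by
  simpa [sub_eq_add_neg] using hf.add hh.neg

lemma PG.pow {f : E n → ℝ} (hf : PG f) (k : ℕ) : PG fun g => f g ^ k := by
  induction k with
  | zero => simpa using PG.const 1
  | succ k ih => simpa [pow_succ] using ih.mul hf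

lemma PG.sum {ι : Type} (s : Finset ι) {f : ι → E n → ℝ} (h : ∀ i ∈ s, PG (f i)) :
    PG fun g => ∑ i ∈ s, f i g := by
  classical
  induction s using Finset.induction_on with
  | empty => simpa using PG.const 0
  | insert a s ha ih =>
    simp only [Finset.sum_insert ha]
    exact (h a (by simp)).add (ih fun i hi => h i (by simp [hi]))

lemma PG.inner (v : E n) : PG fun g => ⟪g, v⟫ := by
  refine ⟨by fun_prop, ‖v‖, 1, fun g => (abs_real_inner_le_norm g v).trans ?_⟩
  nlinarith [norm_nonneg v, norm_nonneg g]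

lemma PG.norm : PG fun g : E n => ‖g‖ :=
  ⟨continuous_norm, 1, 1, fun g => by simp⟩

lemma PG.cos {f : E n → ℝ} (hf : Continuous f) : PG fun g => cos (f g) :=
  ⟨by fun_prop, 1, 0, fun g => by simpa using abs_cos_le_one _⟩

lemma PG.sin {f : E n → ℝ} (hf : Continuous f) : PG fun g => sin (f g) :=
  ⟨by fun_prop, 1, 0, fun g => by simpa using abs_sin_le_one _⟩

lemma line_rho (g N : E n) : HasLineDerivAt ℝ (rho n) (-(⟪g, N⟫ * rho n g)) g N := by
  have h1 : HasDerivAt (fun t : ℝ => -(1 / 2) * ‖g + t • N‖ ^ 2) (-⟪g, N⟫) 0 := by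
    have h : (fun t : ℝ => -(1 / 2) * ‖g + t • N‖ ^ 2) =
        fun t => -(1 / 2) * (‖g‖ ^ 2 + 2 * (t * ⟪g, N⟫) + t ^ 2 * ‖N‖ ^ 2) := by
      funext t
      rw [norm_add_sq_real, inner_smul_right, norm_smul, mul_pow, Real.norm_eq_abs, sq_abs]
    rw [h]
    have := ((((hasDerivAt_id (0 : ℝ)).mul_const ⟪g, N⟫).const_mul 2).const_add (‖g‖ ^ 2)).add
      (((hasDerivAt_id (0 : ℝ)).pow 2).mul_const (‖N‖ ^ 2)) |>.const_mul (-(1 / 2))
    exact this.congr_deriv (by simp)
  have h2 := h1.exp.const_mul (∫ v : E n, exp (-(1 / 2) * ‖v‖ ^ 2))⁻¹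
  unfold HasLineDerivAt rho
  refine h2.congr_deriv ?_
  simp only [zero_smul, add_zero]
  ring

/-- Stein's identity in the direction `N`. -/
theorem stein (N : E n) {f f' : E n → ℝ} (hf : PG f) (hf' : PG f')
    (hd : ∀ g, HasLineDerivAt ℝ f (f' g) g N) :
    ∫ g, ⟪g, N⟫ * f g ∂gm n = ∫ g, f' g ∂gm n := by
  have h := integral_bilinear_hasLineDerivAt_right_eq_neg_left_of_integrable
    (μ := (volume : Measure (E n))) (B := ContinuousLinearMap.mul ℝ ℝ) (v := N) (f := rho n)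
    (f' := fun g => -(⟪g, N⟫ * rho n g)) (g := f) (g' := f') ?_ (integrable_gm.1 hf'.int)
    (integrable_gm.1 hf.int) (fun g _ => line_rho g N) fun g _ => hd g
  · rw [integral_gm, integral_gm]
    simp only [ContinuousLinearMap.mul_apply', smul_eq_mul] at h ⊢
    rw [h, ← integral_neg]
    congr 1
    funext g
    ring
  · refine (integrable_gm.1 ((PG.inner N).mul hf).neg.int).congr (.of_forall fun g => ?_)
    simp only [ContinuousLinearMap.mul_apply']
    ring

lemma int_cexp (ζ : E n) :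
    ∫ g, Complex.exp (Complex.I * (⟪g, ζ⟫ : ℝ)) ∂gm n = (exp (-‖ζ‖ ^ 2 / 2) : ℝ) := by
  have h1 := GaussianFourier.integral_cexp_neg_mul_sq_norm_add (V := E n) (b := 1 / 2)
    (by norm_num) Complex.I ζ
  have h2 := GaussianFourier.integral_cexp_neg_mul_sq_norm (V := E n) (b := 1 / 2) (by norm_num)
  have h3 : ((∫ v : E n, exp (-(1 / 2) * ‖v‖ ^ 2) : ℝ) : ℂ) =
      ∫ v : E n, Complex.exp (-(1 / 2) * (‖v‖ : ℂ) ^ 2) := by
    rw [← integral_complex_ofReal]
    congr 1
    funext v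
    push_cast
    rfl
  have h4 : ((∫ v : E n, exp (-(1 / 2) * ‖v‖ ^ 2) : ℝ) : ℂ) ≠ 0 :=
    Complex.ofReal_ne_zero.2 (Z_pos n).ne'
  have h5 : ∀ g : E n, rho n g • Complex.exp (Complex.I * (⟪g, ζ⟫ : ℝ)) =
      ((∫ v : E n, exp (-(1 / 2) * ‖v‖ ^ 2) : ℝ) : ℂ)⁻¹ *
        Complex.exp (-(1 / 2) * (‖g‖ : ℂ) ^ 2 + Complex.I * (⟪ζ, g⟫ : ℝ)) := fun g => by
    rw [rho, Complex.real_smul, Complex.exp_add, real_inner_comm]
    push_cast
    ring
  rw [integral_gm]
  simp only [h5]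
  rw [integral_const_mul, h1, ← h2, ← h3, ← mul_assoc, inv_mul_cancel₀ h4, one_mul]
  push_cast
  congr 1
  rw [Complex.I_sq]
  ring

lemma int_cexp_int (ζ : E n) :
    Integrable (fun g => Complex.exp (Complex.I * (⟪g, ζ⟫ : ℝ))) (gm n) :=
  (integrable_const (1 : ℝ)).mono' (Continuous.aestronglyMeasurable (by fun_prop))
    (.of_forall fun g => by rw [mul_comm, Complex.norm_exp_ofReal_mul_I])

lemma int_cos (ζ : E n) : ∫ g, cos ⟪g, ζ⟫ ∂gm n = exp (-‖ζ‖ ^ 2 / 2) := by
  have h := integral_re (int_cexp_int ζ)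
  rw [int_cexp] at h
  simp only [RCLike.re_to_complex, Complex.ofReal_re] at h
  rw [← h]
  congr 1
  funext g
  rw [mul_comm, Complex.exp_ofReal_mul_I_re]

lemma int_norm_sq : ∫ g, ‖g‖ ^ 2 ∂gm n = n := by
  have h : ∀ i : Fin n, ∫ g, ⟪g, EuclideanSpace.single i (1 : ℝ)⟫ *
      ⟪g, EuclideanSpace.single i (1 : ℝ)⟫ ∂gm n = 1 := fun i => by
    rw [stein (EuclideanSpace.single i 1) (PG.inner _) (PG.const 1)]
    · simp
    · intro g
      unfold HasLineDerivAt
      simp only [inner_add_left, real_inner_smul_left]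
      exact (((hasDerivAt_id (0 : ℝ)).mul_const _).const_add _).congr_deriv (by simp)
  have h2 : ∀ g : E n, ‖g‖ ^ 2 = ∑ i, ⟪g, EuclideanSpace.single i (1 : ℝ)⟫ *
      ⟪g, EuclideanSpace.single i (1 : ℝ)⟫ := fun g => by
    rw [EuclideanSpace.real_norm_sq_eq]
    simp [EuclideanSpace.inner_single_right, sq]
  simp only [h2]
  rw [integral_finsetSum _ fun i _ => ((PG.inner _).mul (PG.inner _)).int]
  simp [h]

lemma int_one_add_norm (hn : 1 ≤ n) : ∫ g, (1 + ‖g‖) ∂gm n ≤ 2 * √n := by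
  have h0 : (1 : ℝ) ≤ n := by exact_mod_cast hn
  have hs : 1 ≤ √(n : ℝ) := Real.one_le_sqrt.2 h0
  have h1 : ∀ g : E n, 1 + ‖g‖ ≤ (1 + √n / 2) + ‖g‖ ^ 2 * (1 / (2 * √n)) := fun g => by
    have : ‖g‖ ≤ √n / 2 + ‖g‖ ^ 2 * (1 / (2 * √n)) := by
      rw [mul_one_div, ← sub_le_iff_le_add', le_div_iff₀ (by positivity)]
      nlinarith [sq_nonneg (‖g‖ - √n)]
    linarith
  refine (integral_mono ((PG.const 1).add PG.norm).int
    ((PG.const _).add ((PG.norm.pow 2).mul (PG.const _))).int h1).trans ?_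
  rw [integral_add (PG.const _).int ((PG.norm.pow 2).mul (PG.const _)).int, integral_mul_const,
    int_norm_sq]
  have h2 : (n : ℝ) * (1 / (2 * √n)) = √n / 2 := by
    field_simp
    rw [Real.sq_sqrt (by positivity)]
  rw [h2]
  simp
  linarith

/-- Bounded continuous functions. -/
def BC {X : Type} [TopologicalSpace X] (f : X → ℝ) : Prop := Continuous f ∧ ∃ C, ∀ x, |f x| ≤ C

section bc
variable {X Y : Type} [TopologicalSpace X] [TopologicalSpace Y]

lemma BC.pg {f : E n → ℝ} (h : BC f) : PG f :=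
  let ⟨c, C, hb⟩ := h
  ⟨c, C, 0, fun g => by simpa using hb g⟩

lemma BC.const (c : ℝ) : BC fun _ : X => c := ⟨continuous_const, |c|, fun _ => le_rfl⟩

lemma BC.add {f h : X → ℝ} (hf : BC f) (hh : BC h) : BC fun g => f g + h g :=
  let ⟨c1, C, h1⟩ := hf
  let ⟨c2, C', h2⟩ := hh
  ⟨c1.add c2, C + C', fun g => (abs_add_le _ _).trans (add_le_add (h1 g) (h2 g))⟩

lemma BC.mul {f h : X → ℝ} (hf : BC f) (hh : BC h) : BC fun g => f g * h g :=
  let ⟨c1, C, h1⟩ := hf
  let ⟨c2, C', h2⟩ := hh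
  ⟨c1.mul c2, C * C', fun g => by
    rw [abs_mul]
    exact mul_le_mul (h1 g) (h2 g) (abs_nonneg _) ((abs_nonneg _).trans (h1 g))⟩

lemma BC.sub {f h : X → ℝ} (hf : BC f) (hh : BC h) : BC fun g => f g - h g := by
  simpa [sub_eq_add_neg] using hf.add ((BC.const (-1)).mul hh)

lemma BC.div_const {f : X → ℝ} (hf : BC f) (c : ℝ) : BC fun g => f g / c := by
  simpa [div_eq_mul_inv] using hf.mul (BC.const c⁻¹)

lemma BC.sum {ι : Type} (s : Finset ι) {f : ι → X → ℝ} (h : ∀ i ∈ s, BC (f i)) :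
    BC fun g => ∑ i ∈ s, f i g := by
  classical
  induction s using Finset.induction_on with
  | empty => simpa using BC.const 0
  | insert a s ha ih =>
    simp only [Finset.sum_insert ha]
    exact (h a (by simp)).add (ih fun i hi => h i (by simp [hi]))

lemma BC.prod {ι : Type} (s : Finset ι) {f : ι → X → ℝ} (h : ∀ i ∈ s, BC (f i)) :
    BC fun g => ∏ i ∈ s, f i g := by
  classical
  induction s using Finset.induction_on with
  | empty => simpa using BC.const 1
  | insert a s ha ih =>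
    simp only [Finset.prod_insert ha]
    exact (h a (by simp)).mul (ih fun i hi => h i (by simp [hi]))

lemma BC.cos {f : X → ℝ} (hf : Continuous f) : BC fun g => cos (f g) :=
  ⟨by fun_prop, 1, fun g => abs_cos_le_one _⟩

lemma BC.sin {f : X → ℝ} (hf : Continuous f) : BC fun g => sin (f g) :=
  ⟨by fun_prop, 1, fun g => abs_sin_le_one _⟩

lemma BC.comp {f : Y → ℝ} (hf : BC f) {φ : X → Y} (hφ : Continuous φ) : BC fun x => f (φ x) :=
  let ⟨c, C, h⟩ := hf
  ⟨c.comp hφ, C, fun _ => h _⟩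

lemma BC.int [MeasurableSpace X] [OpensMeasurableSpace X] [SecondCountableTopology X]
    {f : X → ℝ} (hf : BC f) (μ : Measure X) [IsFiniteMeasure μ] : Integrable f μ :=
  let ⟨c, C, h⟩ := hf
  (integrable_const C).mono' c.aestronglyMeasurable (.of_forall h)

lemma BC.integral [FirstCountableTopology X] {F : X → E n → ℝ}
    (hF : BC fun p : X × E n => F p.1 p.2) : BC fun x => ∫ g, F x g ∂gm n := by
  obtain ⟨c, C, h⟩ := hF
  refine ⟨continuous_of_dominated (bound := fun _ => C)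
    (fun x => (c.comp (Continuous.prodMk_right x)).aestronglyMeasurable)
    (fun x => .of_forall fun g => h (x, g)) (integrable_const C)
    (.of_forall fun g => c.comp (Continuous.prodMk_left g)), C, fun x => ?_⟩
  have := norm_integral_le_of_norm_le_const (μ := gm n) (f := F x) (C := C)
    (.of_forall fun g => h (x, g))
  simpa using this

end bc

end Pool.Agent.Lib.MP_8115c2_gt.Bu
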