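import Pool.Agent.Lib.MP_8115c2_gt.Bu.S

/-!
The three instances of the determinant test.
-/

open MeasureTheory Set Metric Real Function
open scoped RealInnerProductSpace

noncomputable section

namespace Pool.Agent.Lib.MP_8115c2_gt.Bu

variable {n : ℕ}

/-- A function of two cosines of the coordinates. -/
def cc (b β : ℝ) (F : ℝ → ℝ → ℝ) (σ : ℕ → ℝ) : ℝ := F (cos (b * σ 2)) (cos (β * σ 3))

lemma bc_two {X : Type} [TopologicalSpace X] {F : ℝ → ℝ → ℝ} (hF : Continuous (uncurry F))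
    {p q : X → ℝ} (hp : Continuous p) (hq : Continuous q) :
    BC fun x => F (cos (p x)) (cos (q x)) := by
  obtain ⟨C, hC⟩ := ((isCompact_Icc (a := (-1 : ℝ)) (b := 1)).prod
    (isCompact_Icc (a := (-1 : ℝ)) (b := 1))).exists_bound_of_continuousOn hF.continuousOn
  exact ⟨hF.comp (f := fun x => (cos (p x), cos (q x))) (by fun_prop), C, fun x =>
    hC (cos (p x), cos (q x)) ⟨cos_mem_Icc _, cos_mem_Icc _⟩⟩

lemma bc_cc {b β : ℝ} {F : ℝ → ℝ → ℝ} (hF : Continuous (uncurry F)) : BC (cc b β F) :=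
  bc_two hF (by fun_prop) (by fun_prop)

/-- The last two rows. -/
def tl (x r b β : ℝ) (f : E n → ℝ → ℝ → ℝ) : List (Stp n) :=
  [⟨0, √x, r, fun v => cc b β (f v)⟩, ⟨1, 1, r, fun v σ => cc b β (f v) σ * cos (√x * σ 0)⟩]

lemma PP_tl {u : Fin n → E n} (hu : ∀ l, ‖u l‖ = 1) {x : ℝ} (hx : 0 ≤ x) (r b β : ℝ)
    (f χ : E n → ℝ → ℝ → ℝ) (σ : E n → ℕ → ℝ) (s : Finset (Fin n)) :
    PP u (fun v => cc b β (χ v)) (tl x r b β f) σ s = exp (-1 / 2) *
      KK u x (fun l => cc b β (f (u l)) (σ (u l))) (fun l => cc b β (χ (u l)) (σ (u l))) s := by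
  have e : ∀ (F : ℝ → ℝ → ℝ) (σ : E n → ℕ → ℝ) (g v : E n),
      cc b β F (upd σ 0 g v) = cc b β F (σ v) ∧ cc b β F (upd σ 1 g v) = cc b β F (σ v) :=
    fun F σ g v => by simp [cc, upd]
  have e0 : ∀ g v : E n, upd σ 0 g v 0 = ⟪g, v⟫ := fun g v => by simp [upd]
  have c1 := fun b j => BC_cos (continuous_id (X := E n)) b (u j)
  simp only [id] at c1
  simp only [tl, PP, e, e0]
  have h1 : ∀ (g : E n) (j : Fin n), ∫ g', ∑ j' ∈ s.erase j,
      cc b β (f (u j')) (σ (u j')) * cos (√x * ⟪g, u j'⟫) * (cos (1 * ⟪g', u j'⟫) *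
        ∏ l ∈ (s.erase j).erase j', cc b β (χ (u l)) (σ (u l))) ∂gm n =
      ∑ j' ∈ s.erase j, cos (√x * ⟪g, u j'⟫) * (cc b β (f (u j')) (σ (u j')) * exp (-1 / 2) *
        ∏ l ∈ (s.erase j).erase j', cc b β (χ (u l)) (σ (u l))) := fun g j => by
    rw [integral_finsetSum _ fun j' _ => ((BC.const _).mul ((c1 _ _).mul (BC.const _))).pg.int]
    refine Finset.sum_congr rfl fun j' _ => ?_
    rw [integral_const_mul, integral_mul_const, int_cos1 (hu _), one_pow]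
    ring
  simp only [h1, KK, Finset.mul_sum]
  rw [integral_finsetSum _ fun j _ => (BC.sum _ fun j' _ =>
    (BC.const _).mul ((c1 _ _).mul ((c1 _ _).mul (BC.const _)))).pg.int]
  refine Finset.sum_congr rfl fun j _ => ?_
  rw [integral_finsetSum _ fun j' _ =>
    ((BC.const _).mul ((c1 _ _).mul ((c1 _ _).mul (BC.const _)))).pg.int]
  refine Finset.sum_congr rfl fun j' _ => ?_
  simp only [← mul_assoc (cos _)]
  rw [integral_const_mul, integral_mul_const, integral_mul_const, integral_mul_const,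
    int_cos2 (hu _) (hu _), sq_sqrt hx]
  ring

lemma dom_tl {x r b β : ℝ} (hr : 0 ≤ r) {f χ : E n → ℝ → ℝ → ℝ} {v : E n} {σ : ℕ → ℝ} {y : ℝ}
    (h : y + 2 * r * |cc b β (f v) σ| + |cc b β (χ v) σ| ≤ 1) :
    Dom (fun v => cc b β (χ v)) v (tl x r b β f) σ y := by
  intro c c'
  have e : ∀ (F : ℝ → ℝ → ℝ) (σ : ℕ → ℝ) (c : ℝ),
      cc b β F (update σ 0 c) = cc b β F σ ∧ cc b β F (update σ 1 c) = cc b β F σ :=
    fun F σ c => by simp [cc]
  simp only [Dom, e, abs_mul]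
  have := mul_le_mul_of_nonneg_left (mul_le_of_le_one_right (abs_nonneg (cc b β (f v) σ))
    (abs_cos_le_one (√x * update σ 0 c 0))) hr
  linarith

lemma good_tl {x r b β : ℝ} (hr : 0 < r) {f : E n → ℝ → ℝ → ℝ}
    (hf : ∀ v, Continuous (uncurry (f v))) : ∀ t ∈ tl x r b β f, 0 < t.r ∧ ∀ v, BC (t.e v) := by
  intro t ht
  simp only [tl, List.mem_cons, List.not_mem_nil, or_false] at ht
  rcases ht with rfl | rfl
  · exact ⟨hr, fun v => bc_cc (hf v)⟩
  · exact ⟨hr, fun v => (bc_cc (hf v)).mul (BC.cos (by fun_prop))⟩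

/-- The envelopes are dominated by the base function. -/
def Hyp (ψ' ψ : E n → ℝ) (f ϑ : E n → ℝ → ℝ → ℝ) : Prop :=
  (∀ v, Continuous (uncurry (f v))) ∧ (∀ v, Continuous (uncurry (ϑ v))) ∧
    ∀ v C C', |C| ≤ 1 → |C'| ≤ 1 →
      ϑ v C C' ≤ n ∧ n * |ψ' v| + n * |ψ v| + 2 * |f v C C'| ≤ 40 * ϑ v C C'

variable {ψ' ψ : E n → ℝ} {f ϑ : E n → ℝ → ℝ → ℝ}

lemma Hyp.dom (h : Hyp ψ' ψ f ϑ) (hn : 1 ≤ n) (x b β : ℝ) (v : E n) (σ : ℕ → ℝ) {y : ℝ}
    (hy : y ≤ 1 / 40 * |ψ' v| + 1 / 40 * |ψ v|) :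
    Dom (fun v => cc b β fun C C' => 1 - ϑ v C C' / n) v (tl x (1 / (40 * n)) b β f) σ y := by
  have h0 : (0 : ℝ) < n := by exact_mod_cast hn
  refine dom_tl (by positivity) ?_
  obtain ⟨h1, h2⟩ := h.2.2 v _ _ (abs_cos_le_one (b * σ 2)) (abs_cos_le_one (β * σ 3))
  unfold cc
  rw [abs_of_nonneg (sub_nonneg.2 ((div_le_one h0).2 h1))]
  have h3 := div_le_div_of_nonneg_right h2 (show (0 : ℝ) ≤ 40 * n by positivity)
  have h4 : ∀ a a' z : ℝ, (n * a' + n * a + 2 * z) / (40 * n) =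
      1 / 40 * a' + 1 / 40 * a + 2 * (1 / (40 * n)) * z := fun a a' z => by field_simp
  have h5 : ∀ z : ℝ, 40 * z / (40 * n) = z / n := fun z => by field_simp
  rw [h4, h5] at h3
  linarith

lemma Hyp.chi (h : Hyp ψ' ψ f ϑ) (v : E n) :
    Continuous (uncurry fun C C' => 1 - ϑ v C C' / n) :=
  continuous_const.sub ((h.2.1 v).div_const _)

lemma fin_bound {c y B : ℝ} (hc : 0 ≤ c) (h : |c * (exp (-1 / 2) * y)| ≤ 2 * B) :
    c * |y| ≤ 4 * B := by
  have h1 : 1 / 2 ≤ exp (-1 / 2 : ℝ) := by linarith [add_one_le_exp (-1 / 2 : ℝ)]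
  rw [abs_mul, abs_mul, abs_of_nonneg hc, abs_of_pos (exp_pos _)] at h
  nlinarith [mul_nonneg hc (abs_nonneg y)]

variable {ι : Type} [Fintype ι] {w : ι → ℝ} {U : ι → Fin n → E n}
  (hS : SlabStmt) (hn : 1 ≤ n) (hC : Cal w U) (hU : ∀ i j, ‖U i j‖ = 1) (h : Hyp ψ' ψ f ϑ)
  {x b β : ℝ} (hx : 0 ≤ x)
include hS hn hC hU h hx

theorem T2 : √x * |∑ i, w i * D (U i) * KK (U i) x (fun l => f (U i l) 1 1)
    (fun l => 1 - ϑ (U i l) 1 1 / n) Finset.univ| ≤ 4 * 240 ^ 4 * n ^ 2 := by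
  have h0 : (0 : ℝ) < n := by exact_mod_cast hn
  have h1 := triang hS hn hC (fun v => bc_cc (b := 0) (β := 0) (h.chi v))
    (tl x (1 / (40 * n)) 0 0 f) (good_tl (by positivity) h.1) (by simp [tl])
    fun v _ => h.dom hn x 0 0 v 0 (by positivity)
  simp only [PP_tl (hU _) hx] at h1
  simp only [tl, cc, List.map_cons, List.map_nil, List.prod_cons, List.prod_nil, mul_one, zero_mul,
    cos_zero, mul_left_comm _ (exp _), ← Finset.mul_sum] at h1
  rw [mul_left_comm] at h1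
  refine (fin_bound (sqrt_nonneg x) h1).trans ?_
  field_simp
  norm_num

theorem T3 (hb : 0 ≤ b) : b * √x * |∫ g, ∑ p : ι × Fin n,
    w p.1 * D (U p.1) * (ψ (U p.1 p.2) * cos (b * ⟪g, U p.1 p.2⟫)) *
      KK (U p.1) x (fun l => f (U p.1 l) (cos (b * ⟪g, U p.1 l⟫)) 1)
        (fun l => 1 - ϑ (U p.1 l) (cos (b * ⟪g, U p.1 l⟫)) 1 / n) (Finset.univ.erase p.2) ∂gm n| ≤
    4 * 240 ^ 4 * n ^ 2 := by
  have h0 : (0 : ℝ) < n := by exact_mod_cast hn
  have h1 := triang hS hn hC (fun v => bc_cc (b := b) (β := 0) (h.chi v))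
    (⟨2, b, 1 / 40, fun v _ => ψ v⟩ :: tl x (1 / (40 * n)) b 0 f)
    (List.forall_mem_cons.2 ⟨⟨by norm_num, fun _ => BC.const _⟩, good_tl (by positivity) h.1⟩)
    (by simp [tl]) fun v _ c => h.dom hn x b 0 v _ (by
      have := abs_nonneg (ψ' v)
      linarith)
  simp only [PP, PP_tl (hU _) hx] at h1
  simp only [tl, cc, upd, update_self, List.map_cons, List.map_nil, List.prod_cons, List.prod_nil,
    mul_one, zero_mul, cos_zero] at h1
  have hB : ∀ {F : ℝ → ℝ → ℝ}, Continuous (uncurry F) → ∀ v : E n,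
      BC fun g => F (cos (b * ⟪g, v⟫)) 1 := fun hF v => by
    simpa using bc_two hF (p := fun g => b * ⟪g, v⟫) (q := fun _ => 0) (by fun_prop) (by fun_prop)
  have hK : ∀ i j, BC fun g => ψ (U i j) * (cos (b * ⟪g, U i j⟫) * (exp (-1 / 2) *
      KK (U i) x (fun l => f (U i l) (cos (b * ⟪g, U i l⟫)) 1)
        (fun l => 1 - ϑ (U i l) (cos (b * ⟪g, U i l⟫)) 1 / n) (Finset.univ.erase j))) := fun i j =>
    (BC.const _).mul ((BC_cos continuous_id _ _).mul ((BC.const _).mul (BC_KK _ _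
      (fun l => hB (h.1 (U i l)) (U i l)) (fun l => hB (h.chi (U i l)) (U i l)) _)))
  simp only [← integral_const_mul] at h1
  rw [← integral_finsetSum _ fun i _ => ((BC.const _).mul (BC.sum _ fun j _ => hK i j)).pg.int]
    at h1
  refine (fin_bound (by positivity) (le_of_eq_of_le ?_ h1)).trans ?_
  · congr 2
    rw [← integral_const_mul]
    congr 1
    funext g
    simp only [Fintype.sum_prod_type, Finset.mul_sum]
    exact Finset.sum_congr rfl fun i _ => Finset.sum_congr rfl fun j _ => by ring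
  · field_simp
    norm_num

theorem T4 (hb : 0 ≤ b) (hβ : 0 ≤ β) : β * (b * √x) * |∫ g', ∫ g, ∑ p : ι × Fin n,
    w p.1 * D (U p.1) * (ψ (U p.1 p.2) * cos (b * ⟪g, U p.1 p.2⟫)) *
      ∑ j ∈ Finset.univ.erase p.2, ψ' (U p.1 j) * cos (β * ⟪g', U p.1 j⟫) *
      KK (U p.1) x (fun l => f (U p.1 l) (cos (b * ⟪g, U p.1 l⟫)) (cos (β * ⟪g', U p.1 l⟫)))
        (fun l => 1 - ϑ (U p.1 l) (cos (b * ⟪g, U p.1 l⟫)) (cos (β * ⟪g', U p.1 l⟫)) / n)
        ((Finset.univ.erase p.2).erase j) ∂gm n ∂gm n| ≤ 4 * 240 ^ 4 * n ^ 2 := by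
  have h0 : (0 : ℝ) < n := by exact_mod_cast hn
  have h1 := triang hS hn hC (fun v => bc_cc (b := b) (β := β) (h.chi v))
    (⟨3, β, 1 / 40, fun v _ => ψ' v⟩ :: ⟨2, b, 1 / 40, fun v _ => ψ v⟩ ::
      tl x (1 / (40 * n)) b β f)
    (List.forall_mem_cons.2 ⟨⟨by norm_num, fun _ => BC.const _⟩, List.forall_mem_cons.2
      ⟨⟨by norm_num, fun _ => BC.const _⟩, good_tl (by positivity) h.1⟩⟩)
    (by simp [tl]) fun v _ c c' => h.dom hn x b β v _ (by simp)
  simp only [PP, PP_tl (hU _) hx] at h1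
  simp only [tl, cc, upd, update_self, List.map_cons, List.map_nil, List.prod_cons, List.prod_nil,
    mul_one, ne_eq, Nat.succ_ne_self, not_false_eq_true, update_of_ne] at h1
  have hK : ∀ i j' j, BC fun p : E n × E n => ψ (U i j) * (cos (b * ⟪p.2, U i j⟫) * (exp (-1 / 2) *
      KK (U i) x (fun l => f (U i l) (cos (b * ⟪p.2, U i l⟫)) (cos (β * ⟪p.1, U i l⟫)))
        (fun l => 1 - ϑ (U i l) (cos (b * ⟪p.2, U i l⟫)) (cos (β * ⟪p.1, U i l⟫)) / n)
        ((Finset.univ.erase j').erase j))) := fun i j' j =>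
    (BC.const _).mul ((BC_cos continuous_snd _ _).mul ((BC.const _).mul (BC_KK _ _
      (fun l => bc_two (h.1 (U i l)) (by fun_prop) (by fun_prop))
      (fun l => bc_two (h.chi (U i l)) (by fun_prop) (by fun_prop)) _)))
  have hK2 := fun i j' => (BC.const (ψ' (U i j'))).mul ((BC_cos continuous_fst β (U i j')).mul
    (BC.sum (Finset.univ.erase j') fun j _ => hK i j' j))
  have hK3 := fun i => (BC.const (w i * D (U i))).mul (BC.sum Finset.univ fun j' _ => hK2 i j')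
  simp only [← integral_const_mul] at h1
  simp only [← integral_finsetSum _ fun j' _ =>
    ((hK2 _ j').comp (Continuous.prodMk_right _)).pg.int, ← integral_const_mul] at h1
  rw [← integral_finsetSum _ fun i _ => (BC.integral (F := fun g' g => _) (hK3 i)).pg.int] at h1
  simp only [← integral_finsetSum _ fun i _ =>
    ((hK3 i).comp (Continuous.prodMk_right _)).pg.int] at h1
  refine (fin_bound (by positivity) (le_of_eq_of_le ?_ h1)).trans ?_
  · congr 2
    simp only [← integral_const_mul]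
    congr 1
    funext g'
    congr 1
    funext g
    simp only [Fintype.sum_prod_type, Finset.mul_sum]
    refine Finset.sum_congr rfl fun i _ => ?_
    rw [sw]
    refine Finset.sum_congr rfl fun j' _ => Finset.sum_congr rfl fun j _ => ?_
    rw [Finset.erase_right_comm]
    ring
  · field_simp
    norm_num

end Pool.Agent.Lib.MP_8115c2_gt.Bu
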