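import Pool.Agent.Lib.MP_8115c2_gt.Bu.Ext

/-!
In every large dimension the Hausdorff density is not convex on `n`-vectors, already at a plane
whose norm dominates the Euclidean norm.
-/

open MeasureTheory Set Metric

namespace Pool.Agent.Lib.MP_8115c2_gt.Bu.NotConvex

/-- The linear map sending the standard basis of Euclidean space to the vectors `v j` of the
space of real functions on `Fin N` with the sup norm. -/
noncomputable def lin {n N : ℕ} (v : Fin n → Fin N → ℝ) (x : EuclideanSpace ℝ (Fin n)) :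
    Fin N → ℝ :=
  ∑ j, x j • v j

/-- The `n`-dimensional Hausdorff measure, for the sup norm, of the image of the unit ball. -/
noncomputable def vol {n N : ℕ} (v : Fin n → Fin N → ℝ) : ENNReal :=
  Measure.euclideanHausdorffMeasure n (lin v '' ball 0 1)

/-- The exterior product of the vectors `v j`. -/
noncomputable def wedge {n N : ℕ} (v : Fin n → Fin N → ℝ) : ExteriorAlgebra ℝ (Fin N → ℝ) :=
  ExteriorAlgebra.ιMulti ℝ n v

/-- The exterior products of the tuples `v i` add up to the exterior product of `v₀`. -/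
def WedgeSum {n N m : ℕ} (v : Fin m → Fin n → Fin N → ℝ) (v₀ : Fin n → Fin N → ℝ) : Prop :=
  ∑ i, wedge (v i) = wedge v₀

/-- The Lebesgue volume of the Euclidean unit ball. -/
noncomputable def omega (n : ℕ) : ENNReal :=
  volume (ball (0 : EuclideanSpace ℝ (Fin n)) 1)

open Pool.Agent.Lib.MP_8115c2_gt.Bu in
theorem result : ∃ n₀ : ℕ, ∀ n ≥ n₀, ∃ (N m : ℕ) (v₀ : Fin n → Fin N → ℝ)
    (v : Fin m → Fin n → Fin N → ℝ),
    (∀ x : EuclideanSpace ℝ (Fin n), ‖x‖ ≤ ‖lin v₀ x‖) ∧
    WedgeSum v v₀ ∧ ∑ i, vol (v i) < omega n ∧ omega n ≤ vol v₀ := by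
  obtain ⟨n₀, h⟩ := bS
  refine ⟨max n₀ 2, fun n hn => ?_⟩
  obtain ⟨N, A₀, m, A, h1, h2, h3⟩ := h n (le_of_max_le_left hn)
  have e : ∀ B : Matrix (Fin N) (Fin n) ℝ,
      lin B.transpose = fun x : E n => B.mulVec x := fun B => by
    funext x k
    simp [lin, Matrix.mulVec, dotProduct, Finset.sum_apply, mul_comm]
  refine ⟨N, m, A₀.transpose, fun i => (A i).transpose, by rw [e]; exact h1,
    alt_sum (ExteriorAlgebra.ιMulti ℝ n) h2, ?_, ?_⟩
  · simp only [vol, e]
    exact sum_lt (le_of_max_le_right hn) h3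
  · rw [vol, e]
    exact dom_le A₀ h1 _

end Pool.Agent.Lib.MP_8115c2_gt.Bu.NotConvex
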