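import Pool.Agent.Lib.MP_8115c2_gt.Bu.T

/-!
Pair sums with a kernel, one step of a Riesz product, and the instances of the determinant test.
-/

open MeasureTheory Set Metric Real Function
open scoped RealInnerProductSpace

noncomputable section

namespace Pool.Agent.Lib.MP_8115c2_gt.Bu

variable {n : ℕ}

/-- Pair sums with the kernel `kk`. -/
def KK (u : Fin n → E n) (x : ℝ) (f χ : Fin n → ℝ) (s : Finset (Fin n)) : ℝ :=
  ∑ j ∈ s, ∑ j' ∈ s.erase j, kk x ⟪u j, u j'⟫ * (f j * f j') * ∏ l ∈ (s.erase j).erase j', χ l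

/-- The free evolution. -/
def SS (b : ℝ) (X : ℝ → ℝ) (x : ℝ) : ℝ :=
  (1 + exp (-b ^ 2 / 2)) * X x + X (x + b ^ 2) / 8 + exp (-2 * b ^ 2) * X (x - b ^ 2) / 8

lemma int_cos1 {u : E n} (hu : ‖u‖ = 1) (b : ℝ) :
    ∫ g, cos (b * ⟪g, u⟫) ∂gm n = exp (-b ^ 2 / 2) := by
  have h := int_cos (b • u)
  simp only [inner_smul_right, norm_smul, hu, mul_one, Real.norm_eq_abs, sq_abs] at h
  exact h

lemma int_cos2 {u v : E n} (hu : ‖u‖ = 1) (hv : ‖v‖ = 1) (b : ℝ) :
    ∫ g, cos (b * ⟪g, u⟫) * cos (b * ⟪g, v⟫) ∂gm n = kk (b ^ 2) ⟪u, v⟫ := by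
  have h1 := int_cos (b • (u - v))
  have h2 := int_cos (b • (u + v))
  simp only [inner_smul_right, norm_smul, mul_pow, Real.norm_eq_abs, sq_abs, norm_sub_sq_real,
    norm_add_sq_real, hu, hv, inner_sub_right, inner_add_right, mul_sub, mul_add] at h1 h2
  have h3 : ∀ g : E n, cos (b * ⟪g, u⟫) * cos (b * ⟪g, v⟫) =
      (cos (b * ⟪g, u⟫ - b * ⟪g, v⟫) + cos (b * ⟪g, u⟫ + b * ⟪g, v⟫)) / 2 := fun g => by
    rw [cos_sub, cos_add]
    ring
  simp only [h3]
  rw [integral_div, integral_add (PG.cos (by fun_prop)).int (PG.cos (by fun_prop)).int, h1, h2, kk,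
    cosh_eq, mul_div_assoc', mul_add, ← exp_add, ← exp_add]
  congr 3 <;> ring

lemma kk_mul (x y R : ℝ) :
    kk x R * kk y R = kk (x + y) R / 2 + exp (-2 * y) * kk (x - y) R / 2 := by
  have h1 : exp (-(x + y)) = exp (-x) * exp (-y) := by rw [← exp_add]; congr 1; ring
  have h2 : exp (-2 * y) * exp (-(x - y)) = exp (-x) * exp (-y) := by
    rw [← exp_add, ← exp_add]; congr 1; ring
  simp only [kk, add_mul, sub_mul, cosh_add, cosh_sub, ← mul_assoc, h1, h2]
  ring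

lemma BC_KK {X : Type} [TopologicalSpace X] (u : Fin n → E n) (x : ℝ) {f χ : Fin n → X → ℝ}
    (hf : ∀ l, BC (f l)) (hχ : ∀ l, BC (χ l)) (s : Finset (Fin n)) :
    BC fun p => KK u x (fun l => f l p) (fun l => χ l p) s :=
  BC.sum _ fun _ _ => BC.sum _ fun _ _ =>
    ((BC.const _).mul ((hf _).mul (hf _))).mul (BC.prod _ fun _ _ => hχ _)

lemma BC_cos {X : Type} [TopologicalSpace X] {γ : X → E n} (hγ : Continuous γ) (b : ℝ) (v : E n) :
    BC fun p => cos (b * ⟪γ p, v⟫) := BC.cos (by fun_prop)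

lemma free {u : Fin n → E n} (hu : ∀ l, ‖u l‖ = 1) (b x : ℝ) (f χ : Fin n → ℝ)
    (s : Finset (Fin n)) :
    ∫ g, KK u x (fun l => f l * (1 + cos (b * ⟪g, u l⟫) / 2)) χ s ∂gm n =
      SS b (fun x => KK u x f χ s) x := by
  have hb : ∀ l, BC fun g => f l * (1 + cos (b * ⟪g, u l⟫) / 2) := fun l =>
    (BC.const _).mul ((BC.const _).add ((BC_cos continuous_id b _).div_const 2))
  unfold KK SS
  rw [integral_finsetSum _ fun j _ => (BC.sum _ fun j' _ =>
    ((BC.const _).mul ((hb j).mul (hb j'))).mul (BC.const _)).pg.int]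
  simp only [Finset.mul_sum, Finset.sum_div, ← Finset.sum_add_distrib]
  refine Finset.sum_congr rfl fun j _ => ?_
  rw [integral_finsetSum _ fun j' _ =>
    (((BC.const _).mul ((hb j).mul (hb j'))).mul (BC.const _)).pg.int]
  refine Finset.sum_congr rfl fun j' _ => ?_
  have h1 : ∀ g : E n, f j * (1 + cos (b * ⟪g, u j⟫) / 2) * (f j' * (1 + cos (b * ⟪g, u j'⟫) / 2)) =
      f j * f j' * (1 + cos (b * ⟪g, u j⟫) / 2 + cos (b * ⟪g, u j'⟫) / 2 +
        cos (b * ⟪g, u j⟫) * cos (b * ⟪g, u j'⟫) / 4) := fun g => by ring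
  have c1 := BC_cos (continuous_id (X := E n)) b (u j)
  have c2 := BC_cos (continuous_id (X := E n)) b (u j')
  simp only [h1, id] at c1 c2 ⊢
  rw [integral_mul_const, integral_const_mul, integral_const_mul,
    integral_add (((BC.const _).add (c1.div_const 2)).add (c2.div_const 2)).pg.int
      ((c1.mul c2).div_const 4).pg.int,
    integral_add ((BC.const _).add (c1.div_const 2)).pg.int (c2.div_const 2).pg.int,
    integral_add (BC.const _).pg.int (c1.div_const 2).pg.int, integral_div, integral_div,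
    integral_div, int_cos1 (hu _), int_cos1 (hu _), int_cos2 (hu _) (hu _)]
  have h2 := kk_mul x (b ^ 2) ⟪u j, u j'⟫
  simp only [integral_const, probReal_univ, smul_eq_mul, mul_one]
  linear_combination (f j * f j' * (∏ l ∈ (s.erase j).erase j', χ l) / 4) * h2

lemma sw (s : Finset (Fin n)) (F : Fin n → Fin n → ℝ) :
    ∑ j ∈ s, ∑ l ∈ s.erase j, F j l = ∑ l ∈ s, ∑ j ∈ s.erase l, F j l :=
  Finset.sum_comm' fun j l => by
    simp only [Finset.mem_erase]
    tauto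

lemma KK_deriv (u : Fin n → E n) (x : ℝ) (f χ ψ : Fin n → ℝ) (s : Finset (Fin n)) (v : ℝ) :
    HasDerivAt (fun v => KK u x f (fun l => χ l - v * ψ l) s)
      (-∑ j ∈ s, ψ j * KK u x f (fun l => χ l - v * ψ l) (s.erase j)) v := by
  have h1 : ∀ t : Finset (Fin n), HasDerivAt (fun v => ∏ l ∈ t, (χ l - v * ψ l))
      (∑ l ∈ t, (∏ i ∈ t.erase l, (χ i - v * ψ i)) • (-ψ l)) v := fun t =>
    HasDerivAt.fun_finsetProd fun l _ =>
      (((hasDerivAt_id v).mul_const (ψ l)).const_sub (χ l)).congr_deriv (by simp)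
  unfold KK
  refine (HasDerivAt.fun_sum fun j _ => HasDerivAt.fun_sum fun j' _ =>
    (h1 _).const_mul _).congr_deriv ?_
  simp only [Finset.mul_sum, ← Finset.sum_neg_distrib, smul_eq_mul]
  rw [Finset.sum_congr rfl fun j _ => sw (s.erase j) _, sw]
  refine Finset.sum_congr rfl fun l _ => Finset.sum_congr rfl fun j _ => ?_
  rw [Finset.erase_right_comm]
  refine Finset.sum_congr rfl fun j' _ => ?_
  rw [Finset.erase_right_comm (a := j'), Finset.erase_right_comm (a := j) (b := l)]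
  ring

lemma deriv_int {Φ Ψ : ℝ → E n → ℝ} (hΦ : BC fun p : ℝ × E n => Φ p.1 p.2)
    (hΨ : BC fun p : ℝ × E n => Ψ p.1 p.2) (hd : ∀ t g, HasDerivAt (Φ · g) (Ψ t g) t) (t : ℝ) :
    HasDerivAt (fun t => ∫ g, Φ t g ∂gm n) (∫ g, Ψ t g ∂gm n) t := by
  obtain ⟨C, hC⟩ := hΨ.2
  exact (hasDerivAt_integral_of_dominated_loc_of_deriv_le (s := univ) (bound := fun _ => C)
    Filter.univ_mem
    (.of_forall fun t => (hΦ.comp (Continuous.prodMk_right t)).1.aestronglyMeasurable)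
    (hΦ.comp (Continuous.prodMk_right t)).pg.int
    (hΨ.comp (Continuous.prodMk_right t)).1.aestronglyMeasurable
    (.of_forall fun g t _ => hC (t, g)) (integrable_const C) (.of_forall fun g t _ => hd t g)).2

lemma deriv_int2 {Φ Ψ : ℝ → E n → E n → ℝ}
    (hΦ : BC fun p : (ℝ × E n) × E n => Φ p.1.1 p.1.2 p.2)
    (hΨ : BC fun p : (ℝ × E n) × E n => Ψ p.1.1 p.1.2 p.2)
    (hd : ∀ t g ω, HasDerivAt (Φ · g ω) (Ψ t g ω) t) (t : ℝ) :
    HasDerivAt (fun t => ∫ g, ∫ ω, Φ t g ω ∂gm n ∂gm n) (∫ g, ∫ ω, Ψ t g ω ∂gm n ∂gm n) t :=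
  deriv_int (Φ := fun t g => ∫ ω, Φ t g ω ∂gm n) (Ψ := fun t g => ∫ ω, Ψ t g ω ∂gm n)
    (BC.integral (F := fun p : ℝ × E n => Φ p.1 p.2) hΦ)
    (BC.integral (F := fun p : ℝ × E n => Ψ p.1 p.2) hΨ)
    (fun t g => deriv_int (Φ := fun t => Φ t g) (Ψ := fun t => Ψ t g)
      (hΦ.comp (φ := fun p : ℝ × E n => ((p.1, g), p.2)) (by fun_prop))
      (hΨ.comp (φ := fun p : ℝ × E n => ((p.1, g), p.2)) (by fun_prop)) (fun t ω => hd t g ω) t) t

section step
variable {τ : Type} [Fintype τ] (u : τ → Fin n → E n) (s : τ → Finset (Fin n))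
  (a : τ → E n → ℝ) (f χ : τ → Fin n → E n → ℝ) (ψ : τ → Fin n → ℝ) (b : ℝ)

/-- The quantity before the step. -/
def X0 (x : ℝ) : ℝ :=
  ∫ ω, ∑ k, a k ω * KK (u k) x (fun l => f k l ω) (fun l => χ k l ω) (s k) ∂gm n

/-- The quantity after the step. -/
def X1 (v x : ℝ) : ℝ :=
  ∫ g, ∫ ω, ∑ k, a k ω * KK (u k) x (fun l => f k l ω * (1 + cos (b * ⟪g, u k l⟫) / 2))
    (fun l => χ k l ω - v * (ψ k l * cos (b * ⟪g, u k l⟫))) (s k) ∂gm n ∂gm n

/-- The error of the step. -/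
def X2 (v x : ℝ) : ℝ :=
  ∫ g, ∫ ω, ∑ k, a k ω * ∑ j ∈ s k, ψ k j * cos (b * ⟪g, u k j⟫) *
    KK (u k) x (fun l => f k l ω * (1 + cos (b * ⟪g, u k l⟫) / 2))
      (fun l => χ k l ω - v * (ψ k l * cos (b * ⟪g, u k l⟫))) ((s k).erase j) ∂gm n ∂gm n

variable {u s a f χ ψ b} (hu : ∀ k l, ‖u k l‖ = 1) (ha : ∀ k, BC (a k)) (hf : ∀ k l, BC (f k l))
  (hχ : ∀ k l, BC (χ k l))
include ha hf hχ

omit [Fintype τ] in
lemma bc_aux {X : Type} [TopologicalSpace X] {v : X → ℝ} (hv : BC v) {g ω : X → E n}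
    (hg : Continuous g) (hω : Continuous ω) (k : τ) (x : ℝ) (t : Finset (Fin n)) :
    BC (fun p => a k (ω p)) ∧ BC fun p =>
      KK (u k) x (fun l => f k l (ω p) * (1 + cos (b * ⟪g p, u k l⟫) / 2))
        (fun l => χ k l (ω p) - v p * (ψ k l * cos (b * ⟪g p, u k l⟫))) t :=
  ⟨(ha k).comp hω, BC_KK _ _
    (fun l => ((hf k l).comp hω).mul ((BC.const _).add ((BC_cos hg _ _).div_const 2)))
    (fun l => ((hχ k l).comp hω).sub (hv.mul ((BC.const _).mul (BC_cos hg _ _)))) _⟩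

lemma X1_deriv (x t : ℝ) : HasDerivAt (fun t => X1 u s a f χ ψ b (sin t) x)
    (-X2 u s a f χ ψ b (sin t) x * cos t) t := by
  have hA := fun k => bc_aux (u := u) (ψ := ψ) (b := b) ha hf hχ (X := (ℝ × E n) × E n)
    (v := fun p => sin p.1.1) (BC.sin (by fun_prop)) (g := fun p => p.1.2) (ω := fun p => p.2)
    (by fun_prop) (by fun_prop) k x
  have hΦ := BC.sum Finset.univ fun k _ => (hA k (s k)).1.mul (hA k (s k)).2
  have hΨ := ((BC.const (-1)).mul (BC.sum Finset.univ fun k _ => (hA k (s k)).1.mul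
    (BC.sum (s k) fun j _ => ((BC.const (ψ k j)).mul (BC_cos (γ := fun p : (ℝ × E n) × E n => p.1.2)
      (by fun_prop) b (u k j))).mul (hA k ((s k).erase j)).2))).mul
    (BC.cos (f := fun p : (ℝ × E n) × E n => p.1.1) (by fun_prop))
  have h := deriv_int2 (Φ := fun t g ω => ∑ k, a k ω *
      KK (u k) x (fun l => f k l ω * (1 + cos (b * ⟪g, u k l⟫) / 2))
        (fun l => χ k l ω - sin t * (ψ k l * cos (b * ⟪g, u k l⟫))) (s k))
    (Ψ := fun t g ω => (-1 * ∑ k, a k ω * ∑ j ∈ s k, ψ k j * cos (b * ⟪g, u k j⟫) *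
      KK (u k) x (fun l => f k l ω * (1 + cos (b * ⟪g, u k l⟫) / 2))
        (fun l => χ k l ω - sin t * (ψ k l * cos (b * ⟪g, u k l⟫))) ((s k).erase j)) * cos t)
    hΦ hΨ (fun t g ω => ?_) t
  · refine h.congr_deriv ?_
    simp only [integral_mul_const, integral_neg, X2, neg_one_mul]
  · refine (HasDerivAt.fun_sum fun k _ => (((KK_deriv (u k) x _ (fun l => χ k l ω)
      (fun l => ψ k l * cos (b * ⟪g, u k l⟫)) (s k) (sin t)).comp t
        (hasDerivAt_sin t)).const_mul (a k ω))).congr_deriv ?_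
    simp only [neg_mul, mul_neg, Finset.sum_neg_distrib, one_mul, Finset.sum_mul, mul_assoc]

include hu in
lemma X1_zero (x : ℝ) : X1 u s a f χ ψ b 0 x = SS b (X0 u s a f χ) x := by
  have hA := fun k => bc_aux (u := u) (ψ := ψ) (b := b) ha hf hχ (X := E n × E n)
    (v := fun _ => 0) (BC.const 0) continuous_fst continuous_snd k x (s k)
  have hK := fun x => BC.sum Finset.univ fun k _ =>
    (ha k).mul (BC_KK (u k) x (hf k) (hχ k) (s k))
  unfold X1
  rw [integral_integral_swap ((BC.sum Finset.univ fun k _ => (hA k).1.mul (hA k).2).int _)]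
  simp only [zero_mul, sub_zero] at hA ⊢
  have h1 : ∀ ω, ∫ g, ∑ k, a k ω * KK (u k) x (fun l => f k l ω * (1 + cos (b * ⟪g, u k l⟫) / 2))
      (fun l => χ k l ω) (s k) ∂gm n = SS b (fun x => ∑ k, a k ω *
        KK (u k) x (fun l => f k l ω) (fun l => χ k l ω) (s k)) x := fun ω => by
    rw [integral_finsetSum _ fun k _ =>
      (((hA k).1.mul (hA k).2).comp (Continuous.prodMk_left ω)).pg.int]
    simp only [integral_const_mul, free (hu _), SS, Finset.mul_sum, Finset.sum_div,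
      ← Finset.sum_add_distrib]
    exact Finset.sum_congr rfl fun k _ => by ring
  simp only [h1, SS, X0]
  rw [integral_add (((BC.const _).mul (hK _)).add ((hK _).div_const _)).pg.int
    (((BC.const _).mul (hK _)).div_const _).pg.int,
    integral_add ((BC.const _).mul (hK _)).pg.int ((hK _).div_const _).pg.int,
    integral_div, integral_div, integral_const_mul, integral_const_mul]

include hu in
theorem step (W : Finset ℕ) (xs : ℕ → ℝ) {δ : ℝ}
    (h : ∀ v ∈ Icc (0 : ℝ) 1, |∑ m ∈ W, X2 u s a f χ ψ b v (xs m)| ≤ δ) :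
    |∑ m ∈ W, X1 u s a f χ ψ b 1 (xs m) - ∑ m ∈ W, SS b (X0 u s a f χ) (xs m)| ≤ 2 * δ := by
  have hδ : 0 ≤ δ := (abs_nonneg _).trans (h 0 ⟨le_rfl, zero_le_one⟩)
  have h1 := norm_image_sub_le_of_norm_deriv_le_segment' (a := 0) (b := π / 2) (C := δ)
    (f := fun t => ∑ m ∈ W, X1 u s a f χ ψ b (sin t) (xs m))
    (f' := fun t => ∑ m ∈ W, -X2 u s a f χ ψ b (sin t) (xs m) * cos t)
    (fun t _ => (HasDerivAt.fun_sum fun m _ => X1_deriv ha hf hχ (xs m) t).hasDerivWithinAt)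
    (fun t ht => by
      rw [← Finset.sum_mul, Finset.sum_neg_distrib, Real.norm_eq_abs, abs_mul, abs_neg]
      exact (mul_le_of_le_one_right (abs_nonneg _) (abs_cos_le_one t)).trans (h _
        ⟨sin_nonneg_of_nonneg_of_le_pi ht.1 (by linarith [ht.2, pi_pos]), sin_le_one t⟩))
    (π / 2) ⟨by positivity, le_rfl⟩
  simp only [sin_pi_div_two, sin_zero, X1_zero hu ha hf hχ, Real.norm_eq_abs] at h1
  nlinarith [pi_le_four]

end step

end Pool.Agent.Lib.MP_8115c2_gt.Bu
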