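import Pool.Agent.Lib.MP_8115c2_gt.Bu.G

/-!
Definitions and the statements of the steps of the proof that the Hausdorff density is not convex.
-/

open MeasureTheory Set Metric Real
open scoped RealInnerProductSpace

noncomputable section

namespace Pool.Agent.Lib.MP_8115c2_gt.Bu

variable {n : ℕ} {ι : Type} [Fintype ι]

/-- The determinant of `n` vectors. -/
def D (v : Fin n → E n) : ℝ := Matrix.det (Matrix.of fun j k => v j k)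

/-- The volume of the unit ball. -/
def om (n : ℕ) : ℝ := volume.real (ball (0 : E n) 1)

/-- The form `F ↦ ∑ w i det (F (U i j))` is bounded by the Hausdorff density. -/
def Cal (w : ι → ℝ) (U : ι → Fin n → E n) : Prop :=
  ∀ (F : E n → E n) (K : Set (E n)), (∀ ξ ∈ K, ∀ u, ‖u‖ = 1 → |⟪F u, ξ⟫| ≤ 1) →
    |∑ i, w i * D fun j => F (U i j)| * volume.real K ≤ om n

/-- The mean of the product of two cosines. -/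
def kk (x R : ℝ) : ℝ := exp (-x) * cosh (x * R)

/-- The operator `x ^ 2 ∂ ^ 2 + (2 x ^ 2 - x) ∂ + 1 - x` applied to `kk`. -/
def Lk (x R : ℝ) : ℝ :=
  exp (-x) * ((x ^ 2 * R ^ 2 - x ^ 2 + 1) * cosh (x * R) - x * R * sinh (x * R))

/-- The pair function of the form. -/
def mm (w : ι → ℝ) (U : ι → Fin n → E n) (x : ℝ) : ℝ :=
  (∑ i, w i * D (U i) * ∑ j, ∑ j' ∈ Finset.univ.erase j, kk x ⟪U i j, U i j'⟫) / n ^ 2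

/-- The operator applied to the pair function. -/
def Lm (w : ι → ℝ) (U : ι → Fin n → E n) (x : ℝ) : ℝ :=
  (∑ i, w i * D (U i) * ∑ j, ∑ j' ∈ Finset.univ.erase j, Lk x ⟪U i j, U i j'⟫) / n ^ 2

/-- The form at the perturbation `u + t V u` of the identity. -/
def pp (w : ι → ℝ) (U : ι → Fin n → E n) (V : E n → E n) (t : ℝ) : ℝ :=
  ∑ i, w i * D fun j => U i j + t • V (U i j)

/-- Twice the coefficient of `t ^ 2` in `pp`. -/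
def qq (w : ι → ℝ) (U : ι → Fin n → E n) (V : E n → E n) : ℝ :=
  ∑ i, w i * ∑ j, ∑ j' ∈ Finset.univ.erase j,
    D (Function.update (Function.update (U i) j (V (U i j))) j' (V (U i j')))

/-- The test perturbation. -/
def fv (b : ℝ) (g u : E n) : E n :=
  (b * ⟪g, u⟫ * sin (b * ⟪g, u⟫) + cos (b * ⟪g, u⟫)) • u - (b * sin (b * ⟪g, u⟫)) • g

/-- The properties of the uniform measure on the sphere. -/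
def Sph (σ : Measure (E n)) : Prop :=
  IsProbabilityMeasure σ ∧ (∀ᵐ ξ ∂σ, ‖ξ‖ = 1) ∧ (∀ v, ∫ ξ, ⟪v, ξ⟫ ^ 2 ∂σ = ‖v‖ ^ 2 / n) ∧
    ∀ ρ : E n → ℝ, Continuous ρ → (∀ ξ, 0 < ρ ξ) →
      volume.real {ξ : E n | ‖ξ‖ < ρ (‖ξ‖⁻¹ • ξ)} = om n * ∫ ξ, ρ ξ ^ n ∂σ

/-- The Hausdorff density of the matrix `A`, seen as a map to the space with the sup norm. -/
def JJ {N : ℕ} (A : Matrix (Fin N) (Fin n) ℝ) : ℝ :=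
  om n / volume.real {x : E n | ‖A.mulVec x‖ ≤ 1}

def SpStmt : Prop := ∀ n : ℕ, 1 ≤ n → ∃ σ : Measure (E n), Sph σ

def SlabStmt : Prop := ∀ n : ℕ, 1 ≤ n → ∀ G : List (E n), G.length ≤ 4 →
  om n ≤ 2 * volume.real {ξ : E n | ‖ξ‖ ≤ 1 ∧ ∀ g ∈ G, |⟪g, ξ⟫| ≤ 3 / √n * ‖g‖}

def L1Stmt : Prop := ∀ (n : ℕ) (σ : Measure (E n)), 1 ≤ n → Sph σ →
  ∀ (ι : Type) [Fintype ι] (w : ι → ℝ) (U : ι → Fin n → E n), Cal w U →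
    ∀ (b ε : ℝ) (g : E n), 0 ≤ b → 0 < ε → ε ≤ 1 / 8 →
      ε * (b ^ 2 * ‖g‖ ^ 2 + b * ‖g‖ + 1) ≤ n →
      pp w U (fv b g) (ε / n) + pp w U (fv b g) (-(ε / n)) ≤
        2 - ε ^ 2 * ∫ ξ, cos (b * ⟪g, ξ⟫) ^ 2 ∂σ + 2 * ε ^ 2 * (∫ ξ, cos (b * ⟪g, ξ⟫) ∂σ) ^ 2 +
          20 * ε ^ 3

def L2Stmt : Prop := ∀ n : ℕ, ∃ C : ℝ, 0 ≤ C ∧
  ∀ (ι : Type) [Fintype ι] (w : ι → ℝ) (U : ι → Fin n → E n), Cal w U →
    |∑ i, w i * D (U i)| ≤ 1 ∧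
    ∀ (V : E n → E n) (M : ℝ), 0 < M → (∀ u, ‖u‖ = 1 → ‖V u‖ ≤ M) →
      |qq w U V| ≤ C * M ^ 2 ∧ ∀ t : ℝ, |t| * M ≤ 1 →
        |pp w U V t + pp w U V (-t) - 2 * ∑ i, w i * D (U i) - t ^ 2 * qq w U V| ≤
          C * (|t| * M) ^ 3

def L3aStmt : Prop := ∀ (n : ℕ) (ι : Type) [Fintype ι] (w : ι → ℝ) (U : ι → Fin n → E n),
  (∀ i j, ‖U i j‖ = 1) → ∀ b : ℝ, PG (fun g => qq w U (fv b g)) ∧
    ∫ g, qq w U (fv b g) ∂gm n = n ^ 2 * Lm w U (b ^ 2)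

def L3bStmt : Prop := ∀ (n : ℕ) (σ : Measure (E n)), 1 ≤ n → Sph σ → ∀ b : ℝ,
  BC (fun g : E n => ∫ ξ, cos (b * ⟪g, ξ⟫) ∂σ) ∧
  BC (fun g : E n => ∫ ξ, cos (b * ⟪g, ξ⟫) ^ 2 ∂σ) ∧
  1 / 2 ≤ ∫ g, ∫ ξ, cos (b * ⟪g, ξ⟫) ^ 2 ∂σ ∂gm n ∧
  ∫ g, (∫ ξ, cos (b * ⟪g, ξ⟫) ∂σ) ^ 2 ∂gm n ≤ exp (-b ^ 2 / 2) + 4 / n

def LStmt : Prop := ∀ (n : ℕ) (X : ℝ), 1 ≤ n → ∃ C : ℝ, 0 ≤ C ∧
  ∀ (ι : Type) [Fintype ι] (w : ι → ℝ) (U : ι → Fin n → E n), (∀ i j, ‖U i j‖ = 1) → Cal w U →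
    ∀ η ε : ℝ, 0 < ε → ε ≤ 1 / 8 → 1 - η ≤ ∑ i, w i * D (U i) → ∀ x ∈ Icc 0 X,
      Lm w U x ≤ -1 / 2 + 2 * (exp (-x / 2) + 4 / n) + 2 * η / ε ^ 2 + C * ε

def L4Stmt : Prop := SpStmt → L1Stmt → L2Stmt → L3aStmt → L3bStmt → LStmt

def OStmt : Prop := ∀ (n : ℕ) (ι : Type) [Fintype ι] (w : ι → ℝ) (U : ι → Fin n → E n)
  (C X₀ X₁ : ℝ), 0 ≤ C → 1 ≤ X₀ → (∀ x ∈ Icc X₀ X₁, Lm w U x ≤ -1 / 4) →
    (∀ x ∈ Icc X₀ X₁, √x * |mm w U x| ≤ C) → ∀ x ∈ Icc X₀ X₁,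
      1 / (12 * x) - (C + 1) / √X₁ - (C + 1) * exp (-(x - X₀)) ≤ mm w U x

/-- No form of this kind calibrates the ball in large dimension. -/
def AStmt : Prop := ∃ n₀ : ℕ, ∀ n ≥ n₀, ∃ η > 0,
  ∀ (ι : Type) [Fintype ι] (w : ι → ℝ) (U : ι → Fin n → E n), (∀ i j, ‖U i j‖ = 1) → Cal w U →
    ∑ i, w i * D (U i) ≤ 1 - η

/-- The density is not convex. -/
def BStmt : Prop := ∃ n₀ : ℕ, ∀ n ≥ n₀, ∃ (N : ℕ) (A₀ : Matrix (Fin N) (Fin n) ℝ) (m : ℕ)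
  (A : Fin m → Matrix (Fin N) (Fin n) ℝ), (∀ x : E n, ‖x‖ ≤ ‖A₀.mulVec x‖) ∧
    (∀ I : Fin n → Fin N, ∑ i, ((A i).submatrix I id).det = (A₀.submatrix I id).det) ∧
    ∑ i, JJ (A i) < 1

def HStmt : Prop := AStmt → BStmt

def HaStmt : Prop := ∀ (n N : ℕ) (A : Matrix (Fin N) (Fin n) ℝ), 2 ≤ n →
  Measure.euclideanHausdorffMeasure n ((fun x : E n => A.mulVec x) '' ball 0 1) ≤
    ENNReal.ofReal (om n * JJ A)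

end Pool.Agent.Lib.MP_8115c2_gt.Bu
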