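import Pool.Agent.Lib.MP_8115c2_gt.Bu.St

/-!
The triangular determinant test.
-/

open MeasureTheory Set Metric Real Function
open scoped RealInnerProductSpace

noncomputable section

namespace Pool.Agent.Lib.MP_8115c2_gt.Bu

variable {n : ℕ}

/-- The determinant as an alternating map. -/
def Dm (n : ℕ) : (E n) [⋀^Fin n]→ₗ[ℝ] ℝ :=
  Matrix.detRowAlternating.compLinearMap (WithLp.linearEquiv 2 ℝ (Fin n → ℝ)).toLinearMap

lemma D_eq (v : Fin n → E n) : D v = Dm n v := rfl

lemma D_rank (c : Fin n → ℝ) (g : E n) (s : Finset (Fin n)) (W : Fin n → E n) :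
    D (fun l => if l ∈ s then W l + c l • g else W l) =
      D W + ∑ j ∈ s, c j * D (update W j g) := by
  induction s using Finset.induction_on generalizing W with
  | empty => simp
  | insert a s ha ih =>
    have h1 : (fun l => if l ∈ insert a s then W l + c l • g else W l) =
        update (fun l => if l ∈ s then W l + c l • g else W l) a (W a + c a • g) := by
      funext l
      by_cases h : l = a
      · simp [h]
      · simp [h]
    have h2 : update (fun l => if l ∈ s then W l + c l • g else W l) a (W a) =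
        fun l => if l ∈ s then W l + c l • g else W l := by
      funext l
      by_cases h : l = a
      · simp [h, ha]
      · simp [h]
    have h3 : update (fun l => if l ∈ s then W l + c l • g else W l) a g =
        fun l => if l ∈ s then update W a g l + c l • g else update W a g l := by
      funext l
      by_cases h : l = a
      · simp [h, ha]
      · simp [h]
    have h4 : ∀ j ∈ s, c j * D (update (update W a g) j g) = 0 := fun j hj => by
      have hne : a ≠ j := fun h => ha (h ▸ hj)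
      rw [D_eq, (Dm n).map_eq_zero_of_eq _ (i := a) (j := j) (by simp [hne]) hne, mul_zero]
    rw [h1, D_eq, (Dm n).map_update_add, (Dm n).map_update_smul, h2, h3, ← D_eq, ← D_eq, ih, ih,
      Finset.sum_eq_zero h4, Finset.sum_insert ha, smul_eq_mul]
    ring

lemma D_scale (c : Fin n → ℝ) (s : Finset (Fin n)) (W : Fin n → E n) :
    D (fun l => if l ∈ s then c l • W l else W l) = (∏ l ∈ s, c l) * D W := by
  have h := (Dm n).toMultilinearMap.map_piecewise_smul c W s
  rw [D_eq, D_eq, ← smul_eq_mul]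
  refine Eq.trans ?_ h
  congr 1

lemma D_riesz (V : Fin n → E n) (j : Fin n) : ∃ N : E n, ∀ g, D (update V j g) = ⟪g, N⟫ := by
  refine ⟨(InnerProductSpace.toDual ℝ (E n)).symm
    (LinearMap.toContinuousLinearMap ((Dm n).toMultilinearMap.toLinearMap V j)), fun g => ?_⟩
  rw [real_inner_comm, InnerProductSpace.toDual_symm_apply]
  rfl

lemma PG_D (V : Fin n → E n) (j : Fin n) : PG fun g => D (update V j g) := by
  obtain ⟨N, hN⟩ := D_riesz V j
  simpa [hN] using PG.inner N

lemma stein_det (V : Fin n → E n) (j : Fin n) (b : ℝ) {W : E n → ℝ} (hW : BC W)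
    (hN : ∀ N : E n, (∀ l, l ≠ j → ⟪N, V l⟫ = 0) → ∀ g (t : ℝ), W (g + t • N) = W g) :
    ∫ g, D (update V j g) * (sin (b * ⟪g, V j⟫) * W g) ∂gm n =
      b * D V * ∫ g, cos (b * ⟪g, V j⟫) * W g ∂gm n := by
  obtain ⟨N, h⟩ := D_riesz V j
  have h0 : ∀ l, l ≠ j → ⟪N, V l⟫ = 0 := fun l hl => by
    rw [real_inner_comm, ← h, D_eq]
    exact (Dm n).map_eq_zero_of_eq _ (i := l) (j := j) (by simp [hl]) hl
  have h1 : ⟪N, V j⟫ = D V := by rw [real_inner_comm, ← h, update_eq_self]
  simp only [h]
  rw [stein N ((PG.sin (by fun_prop)).mul hW.pg)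
    ((PG.const (b * D V)).mul ((PG.cos (f := fun g => b * ⟪g, V j⟫) (by fun_prop)).mul hW.pg)),
    integral_const_mul]
  intro g
  unfold HasLineDerivAt
  simp only [hN N h0, inner_add_left, real_inner_smul_left, h1]
  exact (((((hasDerivAt_id (0 : ℝ)).mul_const (D V)).const_add ⟪g, V j⟫).const_mul
    b).sin.mul_const (W g)).congr_deriv (by simp; ring)

/-- The expanded top coefficient. -/
def AX (u : Fin n → E n) (χ : E n → ℝ) :
    List ((E n → ℝ) × E n) → Finset (Fin n) → (Fin n → E n) → ℝ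
  | [], s, V => (∏ l ∈ s, χ (u l)) * D V
  | p :: Q, s, V => ∑ j ∈ s, p.1 (u j) * AX u χ Q (s.erase j) (update V j p.2)

/-- The top coefficient as an alternating mean. -/
def AY (u : Fin n → E n) (χ : E n → ℝ) :
    List ((E n → ℝ) × E n) → Finset (Fin n) → (Fin n → E n) → (E n → E n) → ℝ
  | [], s, V, F => D fun l => if l ∈ s then χ (u l) • V l + F (u l) else V l
  | p :: Q, s, V, F => (AY u χ Q s V (F + fun v => p.1 v • p.2) -
      AY u χ Q s V (F - fun v => p.1 v • p.2)) / 2

lemma AY_push (u : Fin n → E n) (χ : E n → ℝ) (Q : List ((E n → ℝ) × E n)) :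
    ∀ (p : (E n → ℝ) × E n) (s : Finset (Fin n)) (V : Fin n → E n) (F : E n → E n),
      AY u χ (p :: Q) s V F =
        ∑ j ∈ s, p.1 (u j) * AY u χ Q (s.erase j) (update V j p.2) F := by
  induction Q with
  | nil =>
    intro p s V F
    have h1 := D_rank (fun l => p.1 (u l)) p.2 s
      fun l => if l ∈ s then χ (u l) • V l + F (u l) else V l
    have h2 := D_rank (fun l => -p.1 (u l)) p.2 s
      fun l => if l ∈ s then χ (u l) • V l + F (u l) else V l
    have h3 : ∀ j ∈ s, update (fun l => if l ∈ s then χ (u l) • V l + F (u l) else V l) j p.2 =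
        fun l => if l ∈ s.erase j then χ (u l) • update V j p.2 l + F (u l)
          else update V j p.2 l := fun j _ => by
      funext l
      by_cases h : l = j
      · simp [h]
      · simp [h]
    simp only [AY, Pi.add_apply, Pi.sub_apply]
    rw [Finset.sum_congr rfl fun j hj => by rw [h3 j hj]] at h1 h2
    simp only [neg_mul, Finset.sum_neg_distrib] at h2
    have e1 : (fun l => if l ∈ s then χ (u l) • V l + (F (u l) + p.1 (u l) • p.2) else V l) =
        fun l => if l ∈ s then (if l ∈ s then χ (u l) • V l + F (u l) else V l) +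
          p.1 (u l) • p.2 else if l ∈ s then χ (u l) • V l + F (u l) else V l := by
      funext l
      by_cases h : l ∈ s <;> simp [h, add_assoc]
    have e2 : (fun l => if l ∈ s then χ (u l) • V l + (F (u l) - p.1 (u l) • p.2) else V l) =
        fun l => if l ∈ s then (if l ∈ s then χ (u l) • V l + F (u l) else V l) +
          -p.1 (u l) • p.2 else if l ∈ s then χ (u l) • V l + F (u l) else V l := by
      funext l
      by_cases h : l ∈ s <;> simp [h, add_assoc, sub_eq_add_neg]
    rw [e1, e2, h1, h2]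
    ring
  | cons p' Q ih =>
    intro p s V F
    have h1 := ih p s V (F + fun v => p'.1 v • p'.2)
    have h2 := ih p s V (F - fun v => p'.1 v • p'.2)
    simp only [AY] at h1 h2 ⊢
    simp only [mul_div_assoc', ← Finset.sum_div, mul_sub, Finset.sum_sub_distrib]
    rw [← h1, ← h2, add_right_comm F, add_sub_right_comm F, sub_add_eq_add_sub F (fun v => p.1 v • p.2),
      sub_right_comm F]
    ring

lemma AX_eq (u : Fin n → E n) (χ : E n → ℝ) (Q : List ((E n → ℝ) × E n)) :
    ∀ (s : Finset (Fin n)) (V : Fin n → E n), AX u χ Q s V = AY u χ Q s V 0 := by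
  induction Q with
  | nil => intro s V; simp only [AX, AY, Pi.zero_apply, add_zero]; rw [D_scale]
  | cons p Q ih => intro s V; rw [AY_push]; simp only [AX, ih]

variable {ι : Type} [Fintype ι] {w : ι → ℝ} {U : ι → Fin n → E n}

lemma AY_bound (hC : Cal w U) (χ : E n → ℝ) (K : Set (E n)) (Q : List ((E n → ℝ) × E n)) :
    ∀ F : E n → E n, (∀ ξ ∈ K, ∀ u, ‖u‖ = 1 → |⟪F u, ξ⟫| +
      (Q.map fun p => |p.1 u| * |⟪p.2, ξ⟫|).sum + |χ u| * |⟪u, ξ⟫| ≤ 1) →
      |∑ i, w i * AY (U i) χ Q Finset.univ (U i) F| * volume.real K ≤ om n := by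
  induction Q with
  | nil =>
    intro F h
    simp only [AY, Finset.mem_univ, if_true]
    refine hC (fun v => χ v • v + F v) K fun ξ hξ u hu => ?_
    have := h ξ hξ u hu
    rw [inner_add_left, real_inner_smul_left]
    refine (abs_add_le _ _).trans ?_
    rw [abs_mul]
    simp at this
    linarith
  | cons p Q ih =>
    intro F h
    have h1 := ih (F + fun v => p.1 v • p.2) fun ξ hξ u hu => by
      have := h ξ hξ u hu
      have h' := abs_add_le ⟪F u, ξ⟫ (p.1 u * ⟪p.2, ξ⟫)
      simp only [Pi.add_apply, inner_add_left, real_inner_smul_left, List.map_cons, List.sum_cons,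
        abs_mul] at this h' ⊢
      linarith
    have h2 := ih (F - fun v => p.1 v • p.2) fun ξ hξ u hu => by
      have := h ξ hξ u hu
      have h' := abs_sub ⟪F u, ξ⟫ (p.1 u * ⟪p.2, ξ⟫)
      simp only [Pi.sub_apply, inner_sub_left, real_inner_smul_left, List.map_cons, List.sum_cons,
        abs_mul] at this h' ⊢
      linarith
    simp only [AY, mul_div_assoc', ← Finset.sum_div, mul_sub, Finset.sum_sub_distrib]
    rw [abs_div, abs_two]
    have h3 := mul_le_mul_of_nonneg_right (abs_sub
      (∑ i, w i * AY (U i) χ Q Finset.univ (U i) (F + fun v => p.1 v • p.2))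
      (∑ i, w i * AY (U i) χ Q Finset.univ (U i) (F - fun v => p.1 v • p.2)))
      (measureReal_nonneg (μ := volume) (s := K))
    linarith

/-- One row of the test: coordinate, frequency, weight and envelope. -/
structure Stp (n : ℕ) where
  a : ℕ
  b : ℝ
  r : ℝ
  e : E n → (ℕ → ℝ) → ℝ

/-- Recording a new coordinate. -/
def upd (σ : E n → ℕ → ℝ) (a : ℕ) (g : E n) : E n → ℕ → ℝ := fun v => update (σ v) a ⟪g, v⟫

/-- The tested quantity. -/
def PP (u : Fin n → E n) (χ : E n → (ℕ → ℝ) → ℝ) :
    List (Stp n) → (E n → ℕ → ℝ) → Finset (Fin n) → ℝ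
  | [], σ, s => ∏ l ∈ s, χ (u l) (σ (u l))
  | t :: L, σ, s => ∫ g, ∑ j ∈ s, t.e (u j) (σ (u j)) * (cos (t.b * ⟪g, u j⟫) *
      PP u χ L (upd σ t.a g) (s.erase j)) ∂gm n

/-- The scale of a row. -/
def NN (t : Stp n) (g : E n) : ℝ := 3 / √n * (1 + ‖g‖) / t.r

/-- The rank one terms. -/
def qs : List (Stp n × E n) → (E n → ℕ → ℝ) → List ((E n → ℝ) × E n)
  | [], _ => []
  | p :: L, σ => (fun v => p.1.e v (σ v) * sin (p.1.b * ⟪p.2, v⟫) / NN p.1 p.2, p.2) ::
      qs L (upd σ p.1.a p.2)

/-- The last state. -/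
def lst : List (Stp n × E n) → (E n → ℕ → ℝ) → E n → ℕ → ℝ
  | [], σ => σ
  | p :: L, σ => lst L (upd σ p.1.a p.2)

/-- The envelopes are dominated. -/
def Dom (χ : E n → (ℕ → ℝ) → ℝ) (v : E n) : List (Stp n) → (ℕ → ℝ) → ℝ → Prop
  | [], σ, y => y + |χ v σ| ≤ 1
  | t :: L, σ, y => ∀ c, Dom χ v L (update σ t.a c) (y + t.r * |t.e v σ|)

variable {χ : E n → (ℕ → ℝ) → ℝ}

lemma PP_congr (u : Fin n → E n) (L : List (Stp n)) : ∀ (σ σ' : E n → ℕ → ℝ) (s : Finset (Fin n)),
    (∀ l ∈ s, σ (u l) = σ' (u l)) → PP u χ L σ s = PP u χ L σ' s := by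
  induction L with
  | nil => intro σ σ' s h; exact Finset.prod_congr rfl fun l hl => by rw [h l hl]
  | cons t L ih =>
    intro σ σ' s h
    simp only [PP]
    congr 1
    funext g
    refine Finset.sum_congr rfl fun j hj => ?_
    rw [h j hj, ih _ (upd σ' t.a g) _ fun l hl => by
      simp only [upd, h l (Finset.mem_of_mem_erase hl)]]

lemma cont_upd {X : Type} [TopologicalSpace X] {φ : X → E n → ℕ → ℝ} (hφ : Continuous φ) (a : ℕ)
    {γ : X → E n} (hγ : Continuous γ) : Continuous fun x => upd (φ x) a (γ x) :=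
  continuous_pi fun v => ((continuous_apply v).comp hφ).update a (by fun_prop)

lemma PP_bc (hχ : ∀ v, BC (χ v)) (u : Fin n → E n) (L : List (Stp n))
    (hL : ∀ t ∈ L, ∀ v, BC (t.e v)) : ∀ (X : Type) [TopologicalSpace X] [FirstCountableTopology X]
      (φ : X → E n → ℕ → ℝ), Continuous φ → ∀ s, BC fun x => PP u χ L (φ x) s := by
  induction L with
  | nil =>
    intro X _ _ φ hφ s
    exact BC.prod s fun l _ => (hχ _).comp ((continuous_apply _).comp hφ)
  | cons t L ih =>
    intro X _ _ φ hφ s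
    refine BC.integral (BC.sum s fun j _ => ?_)
    exact ((hL t (by simp) _).comp ((continuous_apply _).comp (hφ.comp continuous_fst))).mul
      ((BC.cos (by fun_prop)).mul (ih (fun t ht => hL t (by simp [ht])) (X × E n) _
        (cont_upd (hφ.comp continuous_fst) _ continuous_snd) _))

lemma NN_pos (hn : 1 ≤ n) {t : Stp n} (ht : 0 < t.r) (g : E n) : 0 < NN t g := by
  have : (0 : ℝ) < n := by exact_mod_cast hn
  unfold NN
  positivity

lemma int_NN (hn : 1 ≤ n) {t : Stp n} (ht : 0 < t.r) : ∫ g, NN t g ∂gm n ≤ 6 / t.r := by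
  have h0 : (0 : ℝ) < n := by exact_mod_cast hn
  unfold NN
  rw [integral_div, integral_const_mul]
  gcongr
  refine (mul_le_mul_of_nonneg_left (int_one_add_norm hn) (by positivity)).trans_eq ?_
  field_simp
  norm_num

theorem core (hn : 1 ≤ n) (hχ : ∀ v, BC (χ v)) (L : List (Stp n))
    (hL : ∀ t ∈ L, 0 < t.r ∧ ∀ v, BC (t.e v)) :
    ∀ (τ : Type) [Fintype τ] (ω : τ → ℝ) (u V : τ → Fin n → E n) (s : τ → Finset (Fin n))
      (σ : E n → ℕ → ℝ) (B : ℝ), (∀ k, ∀ l ∈ s k, V k l = u k l) →
      (∀ G : List (E n), G.length = L.length → |∑ k, ω k * AX (u k)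
        (fun v => χ v (lst (L.zip G) σ v)) (qs (L.zip G) σ) (s k) (V k)| ≤ B) →
      |(L.map Stp.b).prod * ∑ k, ω k * D (V k) * PP (u k) χ L σ (s k)| ≤
        B * (L.map fun t => 6 / t.r).prod := by
  induction L with
  | nil =>
    intro τ _ ω u V s σ B _ h
    have := h [] rfl
    simp only [List.zip_nil_right, lst, qs, AX] at this
    simp only [List.map_nil, List.prod_nil, one_mul, mul_one, PP]
    refine le_of_eq_of_le ?_ this
    congr 1
    exact Finset.sum_congr rfl fun k _ => by ring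
  | cons t L ih =>
    intro τ _ ω u V s σ B hV h
    obtain ⟨hr, he⟩ := hL t (by simp)
    have hL' : ∀ t ∈ L, 0 < t.r ∧ ∀ v, BC (t.e v) := fun t ht => hL t (by simp [ht])
    have hW : ∀ k j, BC fun g => PP (u k) χ L (upd σ t.a g) ((s k).erase j) := fun k j =>
      PP_bc hχ (u k) L (fun t ht => (hL' t ht).2) (E n) _
        (cont_upd continuous_const _ continuous_id) _
    have hP : 0 ≤ (L.map fun t => 6 / t.r).prod := List.prod_nonneg fun x hx => by
      obtain ⟨t', ht', rfl⟩ := List.mem_map.1 hx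
      have := (hL' t' ht').1
      positivity
    have hB : 0 ≤ B := (abs_nonneg _).trans (h (List.replicate (L.length + 1) 0) (by simp))
    have h1 : ∀ g, |(L.map Stp.b).prod * ∑ k, ∑ j ∈ s k, ω k * t.e (u k j) (σ (u k j)) *
        (D (update (V k) j g) * (sin (t.b * ⟪g, V k j⟫) *
          PP (u k) χ L (upd σ t.a g) ((s k).erase j)))| ≤
        B * (L.map fun t => 6 / t.r).prod * NN t g := fun g => by
      have h2 := ih hL' (τ × Fin n) (fun p => if p.2 ∈ s p.1 then ω p.1 *
        (t.e (u p.1 p.2) (σ (u p.1 p.2)) * sin (t.b * ⟪g, u p.1 p.2⟫) / NN t g) else 0)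
        (fun p => u p.1) (fun p => update (V p.1) p.2 g) (fun p => (s p.1).erase p.2)
        (upd σ t.a g) B (fun p l hl => by
          rw [update_of_ne (Finset.ne_of_mem_erase hl), hV _ _ (Finset.mem_of_mem_erase hl)])
        fun G hG => by
          have := h (g :: G) (by simp [hG])
          simp only [List.zip_cons_cons, lst, qs, AX] at this
          refine le_of_eq_of_le ?_ this
          congr 1
          rw [Fintype.sum_prod_type]
          refine Finset.sum_congr rfl fun k _ => ?_
          simp only [ite_mul, zero_mul, Finset.sum_ite_mem, Finset.univ_inter, Finset.mul_sum,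
            mul_assoc]
      have h3 := mul_le_mul_of_nonneg_right h2 (NN_pos hn hr g).le
      rw [← abs_of_pos (NN_pos hn hr g), ← abs_mul, abs_of_pos (NN_pos hn hr g)] at h3
      refine le_of_eq_of_le ?_ h3
      congr 1
      rw [Fintype.sum_prod_type, mul_assoc, Finset.sum_mul]
      congr 1
      refine Finset.sum_congr rfl fun k _ => ?_
      simp only [ite_mul, zero_mul, Finset.sum_ite_mem, Finset.univ_inter, Finset.sum_mul]
      refine Finset.sum_congr rfl fun j hj => ?_
      rw [hV k j hj]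
      field_simp [(NN_pos hn hr g).ne']
    have h4 : ∀ k j, PG fun g => ω k * t.e (u k j) (σ (u k j)) *
        (D (update (V k) j g) * (sin (t.b * ⟪g, V k j⟫) *
          PP (u k) χ L (upd σ t.a g) ((s k).erase j))) := fun k j =>
      (PG.const _).mul ((PG_D _ _).mul ((PG.sin (by fun_prop)).mul (hW k j).pg))
    have h5 := norm_integral_le_of_norm_le (μ := gm n)
      (((PG.const (3 / √n)).mul ((PG.const 1).add PG.norm)).int.div_const t.r |>.const_mul
        (B * (L.map fun t => 6 / t.r).prod))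
      (.of_forall fun g => (Real.norm_eq_abs _).trans_le (h1 g))
    rw [integral_const_mul, integral_const_mul, integral_finsetSum _ fun k _ =>
      (PG.sum _ fun j _ => h4 k j).int] at h5
    have h6 := mul_le_mul_of_nonneg_left (int_NN hn hr) (mul_nonneg hB hP)
    simp only [List.map_cons, List.prod_cons, PP]
    refine le_of_eq_of_le ?_ (h5.trans (h6.trans_eq (by ring)))
    rw [Real.norm_eq_abs, mul_comm t.b, mul_assoc, Finset.mul_sum]
    congr 2
    refine Finset.sum_congr rfl fun k _ => ?_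
    rw [integral_finsetSum _ fun j _ => (h4 k j).int, integral_finsetSum _ fun j _ =>
      ((PG.const _).mul ((PG.cos (by fun_prop)).mul (hW k j).pg)).int, Finset.mul_sum,
      Finset.mul_sum]
    refine Finset.sum_congr rfl fun j hj => ?_
    rw [integral_const_mul, integral_const_mul, stein_det _ _ _ (hW k j), hV k j hj]
    · ring
    · intro N hN g c
      refine PP_congr _ _ _ _ _ fun l hl => ?_
      have := hN l (Finset.ne_of_mem_erase hl)
      rw [hV _ _ (Finset.mem_of_mem_erase hl)] at this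
      simp only [upd, inner_add_left, real_inner_smul_left, this, mul_zero, add_zero]

lemma dom_qs (hn : 1 ≤ n) (v ξ : E n) (L : List (Stp n × E n))
    (hL : ∀ p ∈ L, 0 < p.1.r ∧ |⟪p.2, ξ⟫| ≤ 3 / √n * ‖p.2‖) : ∀ (σ : E n → ℕ → ℝ) (y : ℝ),
    Dom χ v (L.map Prod.fst) (σ v) y →
      y + ((qs L σ).map fun p => |p.1 v| * |⟪p.2, ξ⟫|).sum + |χ v (lst L σ v)| ≤ 1 := by
  induction L with
  | nil => intro σ y h; simpa [qs, lst, Dom] using h
  | cons p L ih =>
    intro σ y h
    obtain ⟨hr, hξ⟩ := hL p (by simp)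
    have h1 := ih (fun p hp => hL p (by simp [hp])) (upd σ p.1.a p.2) _ (h ⟪p.2, v⟫)
    have h2 : |p.1.e v (σ v) * sin (p.1.b * ⟪p.2, v⟫) / NN p.1 p.2| * |⟪p.2, ξ⟫| ≤
        p.1.r * |p.1.e v (σ v)| := by
      have h0 : (0 : ℝ) < n := by exact_mod_cast hn
      have hN := NN_pos hn hr p.2
      have h3 : |⟪p.2, ξ⟫| ≤ p.1.r * NN p.1 p.2 := by
        refine hξ.trans ?_
        rw [NN, mul_div_cancel₀ _ hr.ne']
        gcongr
        linarith
      rw [abs_div, abs_mul, abs_of_pos hN, div_mul_eq_mul_div, div_le_iff₀ hN]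
      calc _ ≤ |p.1.e v (σ v)| * 1 * (p.1.r * NN p.1 p.2) := by
            gcongr
            exact abs_sin_le_one _
        _ = _ := by ring
    simp only [qs, lst, List.map_cons, List.sum_cons]
    linarith

/-- The triangular determinant test. -/
theorem triang (hS : SlabStmt) (hn : 1 ≤ n) (hC : Cal w U) (hχ : ∀ v, BC (χ v))
    (L : List (Stp n)) (hL : ∀ t ∈ L, 0 < t.r ∧ ∀ v, BC (t.e v)) (h4 : L.length ≤ 4)
    (hD : ∀ v, ‖v‖ = 1 → Dom χ v L 0 0) :
    |(L.map Stp.b).prod * ∑ i, w i * D (U i) * PP (U i) χ L 0 Finset.univ| ≤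
      2 * (L.map fun t => 6 / t.r).prod := by
  refine core hn hχ L hL ι w U U (fun _ => Finset.univ) 0 2 (fun _ _ _ => rfl) fun G hG => ?_
  have h1 := hS n hn G (hG.le.trans h4)
  have h2 := AY_bound hC (fun v => χ v (lst (L.zip G) 0 v))
    {ξ : E n | ‖ξ‖ ≤ 1 ∧ ∀ g ∈ G, |⟪g, ξ⟫| ≤ 3 / √n * ‖g‖} (qs (L.zip G) 0) 0 fun ξ hξ u hu => by
      have h3 := dom_qs (χ := χ) hn u ξ (L.zip G) (fun p hp =>
        ⟨(hL _ (List.of_mem_zip hp).1).1, hξ.2 _ (List.of_mem_zip hp).2⟩) 0 0 (by
          rw [List.map_fst_zip hG.ge]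
          exact hD u hu)
      have h5 : |⟪u, ξ⟫| ≤ 1 := (abs_real_inner_le_norm u ξ).trans (by rw [hu, one_mul]; exact hξ.1)
      have h6 := mul_le_of_le_one_right (abs_nonneg (χ u (lst (L.zip G) 0 u))) h5
      simp only [Pi.zero_apply, inner_zero_left, abs_zero]
      linarith
  have h7 : 0 < om n := ENNReal.toReal_pos (measure_ball_pos _ _ one_pos).ne' measure_ball_lt_top.ne
  simp only [AX_eq]
  by_contra h8
  nlinarith [not_le.1 h8]

end Pool.Agent.Lib.MP_8115c2_gt.Bu
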